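import Mathlib
import Pool.Agent.HypU.Defs

/-!
# AMS: definitions (MP_16d252_co, unimodality for all large linear hypertrees of bounded edge size)

Graph level: a symmetric relation `r` on a finite type `V` (conflict relation), independent sets,
`cnt r k` = number of independent sets of size `k`, the hard-core measure
`P_x(S) = x ^ |S| / Zx r x`.

Tree level: a structure `Tr V ι`: every vertex lies in exactly one block (`b v : ι`), every block `i`
has at most one parent vertex (`t i : Option V`), depths increase. Two vertices conflict if they are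
in the same block or one of them is the parent of the block of the other. (A linear hypertree gives
such a structure: the blocks are `e \ {top e}` and the single root vertices.)
-/

open Finset

namespace Pool.Agent.AMS

section graph

variable {V : Type} [Fintype V] [DecidableEq V]

/-- `S` is independent for the relation `r`. -/
def Ind (r : V → V → Prop) (S : Finset V) : Prop := ∀ u ∈ S, ∀ v ∈ S, u ≠ v → ¬ r u v

open Classical in
/-- The family of independent sets. -/
noncomputable def fam (r : V → V → Prop) : Finset (Finset V) := univ.filter (Ind r)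

theorem mem_fam {r : V → V → Prop} {S : Finset V} : S ∈ fam r ↔ Ind r S := by
  classical
  simp [fam]

/-- The number of independent sets of size `k`. -/
noncomputable def cnt (r : V → V → Prop) (k : ℕ) : ℕ :=
  ((fam r).filter (fun S => S.card = k)).card

open Classical in
/-- The degree of a vertex. -/
noncomputable def dg (r : V → V → Prop) (v : V) : ℕ :=
  (univ.filter (fun u => u ≠ v ∧ r v u)).card

/-- The independence number. -/
noncomputable def alph (r : V → V → Prop) : ℕ := (fam r).sup Finset.card

/-- The partition function. -/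
noncomputable def Zx (r : V → V → Prop) (x : ℝ) : ℝ := ∑ S ∈ fam r, x ^ S.card

/-- Real expectation. -/
noncomputable def ExR (r : V → V → Prop) (x : ℝ) (F : Finset V → ℝ) : ℝ :=
  (∑ S ∈ fam r, x ^ S.card * F S) / Zx r x

/-- Complex expectation. -/
noncomputable def ExC (r : V → V → Prop) (x : ℝ) (F : Finset V → ℂ) : ℂ :=
  (∑ S ∈ fam r, ((x ^ S.card : ℝ) : ℂ) * F S) / ((Zx r x : ℝ) : ℂ)

/-- Mean size of the random independent set. -/
noncomputable def mean (r : V → V → Prop) (x : ℝ) : ℝ := ExR r x (fun S => (S.card : ℝ))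

/-- Variance of the size. -/
noncomputable def vari (r : V → V → Prop) (x : ℝ) : ℝ :=
  ExR r x (fun S => ((S.card : ℝ) - mean r x) ^ 2)

/-- Graph-level hypotheses: symmetric, at most `D n` ordered conflicts, every vertex set `U` has an
independent subset of size at least `|U| / L`. -/
structure Good (r : V → V → Prop) (L D : ℕ) : Prop where
  symm : ∀ u v, r u v → r v u
  deg : ∑ v, dg r v ≤ D * Fintype.card V
  sub : ∀ U : Finset V, ∃ W ⊆ U, Ind r W ∧ U.card ≤ L * W.card

end graph

/-- Unimodal sequence (as in `HypU.Unimodal`). -/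
def Uni (a : ℕ → ℕ) : Prop :=
  ∃ m, (∀ k, k < m → a k ≤ a (k + 1)) ∧ (∀ k, m ≤ k → a (k + 1) ≤ a k)

/-- Block forests. -/
structure Tr (V ι : Type) where
  /-- the block of a vertex -/
  b : V → ι
  /-- the parent vertex of a block -/
  t : ι → Option V
  /-- depth of a block -/
  dep : ι → ℕ
  lt : ∀ (i : ι) (v : V), t i = some v → dep (b v) < dep i

namespace Tr

variable {V ι : Type} [Fintype V] [DecidableEq V] [Fintype ι] [DecidableEq ι]

/-- The conflict relation. -/
def rel (T : Tr V ι) (u v : V) : Prop :=
  T.b u = T.b v ∨ T.t (T.b v) = some u ∨ T.t (T.b u) = some v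

/-- The vertices of a block. -/
def blk (T : Tr V ι) (i : ι) : Finset V := univ.filter (fun v => T.b v = i)

/-- The child blocks of a vertex. -/
def ch (T : Tr V ι) (v : V) : Finset ι := univ.filter (fun i => T.t i = some v)

/-- Sum over the child vertices. -/
def chs (T : Tr V ι) (h : V → ℝ) (v : V) : ℝ := ∑ i ∈ T.ch v, ∑ w ∈ T.blk i, h w

/-- Odds `o` and conditional probabilities `q` of the hard-core measure with activity `x`. -/
structure Dat (T : Tr V ι) (x : ℝ) (o q : V → ℝ) : Prop where
  pos : ∀ v, 0 < o v
  req : ∀ v, o v = x * ∏ i ∈ T.ch v, (1 + ∑ w ∈ T.blk i, o w)⁻¹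
  q_eq : ∀ v, q v = o v / (1 + ∑ w ∈ T.blk (T.b v), o w)

/-- `D` is the influence vector of the coefficient vector `c`. -/
def Infl (T : Tr V ι) (q c D : V → ℝ) : Prop := ∀ v, D v = c v - T.chs (fun w => q w * D w) v

/-- block mean -/
def bm (T : Tr V ι) (q D : V → ℝ) (i : ι) : ℝ := ∑ w ∈ T.blk i, q w * D w

/-- block second moment -/
def b2 (T : Tr V ι) (q D : V → ℝ) (i : ι) : ℝ := ∑ w ∈ T.blk i, q w * D w ^ 2

/-- block variance -/
def bv (T : Tr V ι) (q D : V → ℝ) (i : ι) : ℝ := T.b2 q D i - T.bm q D i ^ 2

/-- sum of the variances of the child blocks -/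
def G (T : Tr V ι) (q D : V → ℝ) (v : V) : ℝ := ∑ i ∈ T.ch v, T.bv q D i

/-- the mean `μ = ∑ q D` -/
def mu (q D : V → ℝ) : ℝ := ∑ v, q v * D v

/-- the random conditional variance `V(S) = ∑_i bv_i - ∑_{v ∈ S} G v` -/
def cv (T : Tr V ι) (q D : V → ℝ) (S : Finset V) : ℝ := ∑ i, T.bv q D i - ∑ v ∈ S, T.G q D v

end Tr

end Pool.Agent.AMS
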