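import Mathlib
import Pool.Agent.AMS.Defs

/-!
# AMS: module Fix — recursion and induction on a block forest (easy)

`w` is a child of `v` if `T.t (T.b w) = some v`; then `dep (b v) < dep (b w)` (field `lt`).

* `down`: induction from the leaves to the roots (strong induction on `N - dep (b v)` where `N` bounds
  all depths, `Finset.sup univ T.dep`).
* `up`: induction from the roots to the leaves (strong induction on `dep (b v)`).
* `exists_fix`: recursion on the children (`WellFounded.fix`, or: iterate `f_(k+1) v = Φ v f_k`; after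
  `N + 1` steps the value at `v` no longer changes).
* `exists_dat`: apply `exists_fix` to `Φ v f = x * ∏ i ∈ ch v, (1 + ∑ w ∈ blk i, f w)⁻¹` (it depends
  only on `f` at the children); positivity by `down`.
-/

open Finset

namespace Pool.Agent.AMS

variable {V ι : Type} [Fintype V] [DecidableEq V] [Fintype ι] [DecidableEq ι]

omit [Fintype V] [DecidableEq V] [DecidableEq ι] in
theorem Fix_lt (T : Tr V ι) (w v : V) (h : T.t (T.b w) = some v) :
    Finset.sup univ T.dep - T.dep (T.b w) < Finset.sup univ T.dep - T.dep (T.b v) := by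
  have h1 := T.lt (T.b w) v h
  have h2 : T.dep (T.b w) ≤ Finset.sup univ T.dep := Finset.le_sup (mem_univ _)
  omega

theorem down (T : Tr V ι) (P : V → Prop)
    (h : ∀ v, (∀ w, T.t (T.b w) = some v → P w) → P v) : ∀ v, P v := by
  intro v
  induction hn : Finset.sup univ T.dep - T.dep (T.b v) using Nat.strong_induction_on generalizing v with
  | _ n ih =>
    apply h
    intro w hw
    have h1 := Fix_lt T w v hw
    exact ih _ (by omega) w rfl

theorem up (T : Tr V ι) (P : V → Prop)
    (h : ∀ v, (∀ u, T.t (T.b v) = some u → P u) → P v) : ∀ v, P v := by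
  intro v
  induction hn : T.dep (T.b v) using Nat.strong_induction_on generalizing v with
  | _ n ih =>
    apply h
    intro u hu
    have h1 := T.lt (T.b v) u hu
    exact ih _ (by omega) u rfl

theorem exists_fix (T : Tr V ι) {β : Type} [Inhabited β] (Φ : V → (V → β) → β)
    (h : ∀ v f g, (∀ w, T.t (T.b w) = some v → f w = g w) → Φ v f = Φ v g) :
    ∃ f : V → β, ∀ v, f v = Φ v f := by
  classical
  have wf : WellFounded (fun w v : V => T.t (T.b w) = some v) :=
    Subrelation.wf (r := (measure (fun v : V => Finset.sup univ T.dep - T.dep (T.b v))).rel)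
      (fun {w v} hw => Fix_lt T w v hw) (measure _).wf
  let F : ∀ v : V, (∀ w : V, T.t (T.b w) = some v → β) → β := fun v rc =>
    Φ v (fun w => if hw : T.t (T.b w) = some v then rc w hw else default)
  refine ⟨wf.fix F, fun v => ?_⟩
  rw [wf.fix_eq]
  apply h
  intro w hw
  rw [dif_pos hw]

theorem Fix_mem (T : Tr V ι) {v w : V} {i : ι} (hi : i ∈ T.ch v) (hw : w ∈ T.blk i) :
    T.t (T.b w) = some v := by
  unfold Tr.ch at hi
  unfold Tr.blk at hw
  rw [mem_filter] at hi hw
  rw [hw.2]
  exact hi.2

theorem exists_dat (T : Tr V ι) (x : ℝ) (hx : 0 < x) : ∃ o q : V → ℝ, T.Dat x o q := by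
  obtain ⟨o, ho⟩ := exists_fix T (fun v f => x * ∏ i ∈ T.ch v, (1 + ∑ w ∈ T.blk i, f w)⁻¹) (by
    intro v f g hfg
    show x * _ = x * _
    congr 1
    apply Finset.prod_congr rfl
    intro i hi
    congr 2
    apply Finset.sum_congr rfl
    intro w hw
    exact hfg w (Fix_mem T hi hw))
  refine ⟨o, fun v => o v / (1 + ∑ w ∈ T.blk (T.b v), o w), ?_, ho, fun v => rfl⟩
  apply down T
  intro v hv
  rw [ho v]
  apply mul_pos hx
  apply Finset.prod_pos
  intro i hi
  apply inv_pos.2
  have : 0 ≤ ∑ w ∈ T.blk i, o w := Finset.sum_nonneg (fun w hw => (hv w (Fix_mem T hi hw)).le)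
  linarith

/-- a sum over the children of the children of ... depends only on the children: useful form -/
theorem chs_congr (T : Tr V ι) (v : V) (f g : V → ℝ)
    (h : ∀ w, T.t (T.b w) = some v → f w = g w) : T.chs f v = T.chs g v := by
  unfold Tr.chs
  apply Finset.sum_congr rfl
  intro i hi
  apply Finset.sum_congr rfl
  intro w hw
  exact h w (Fix_mem T hi hw)

/-- every coefficient vector has an influence vector -/
theorem exists_infl (T : Tr V ι) (q c : V → ℝ) : ∃ D : V → ℝ, T.Infl q c D := by
  obtain ⟨D, hD⟩ := exists_fix T (fun v f => c v - T.chs (fun w => q w * f w) v) (by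
    intro v f g hfg
    show c v - _ = c v - _
    congr 1
    apply chs_congr
    intro w hw
    show q w * f w = q w * g w
    rw [hfg w hw])
  exact ⟨D, hD⟩

end Pool.Agent.AMS
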