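import Mathlib
import Pool.Agent.AMS.Defs
import Pool.Agent.AMS.Fix

/-!
# AMS: module Bas — basic facts about the data `o, q` and child sums (easy)

* `q_pos`, `q_blk`: `0 < q v`, `∑_{w ∈ blk i} q w < 1` (it equals `O / (1 + O)` with
  `O = ∑_{blk i} o`); `q v ≤ o v / (1 + o v) ≤ x / (1 + x)` as `o v ≤ x`.
* `q_exp`: `q v * (1 + exp (s v) / x) ≤ 1` with `s v = chs q v`. Indeed
  `(1 + O_i)⁻¹ = 1 - Q_i ≤ exp (-Q_i)` with `Q_i = ∑_{blk i} q`, so `o v ≤ x exp (- s v)` and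
  `q v ≤ o v / (1 + o v) = 1 / (1 + 1 / o v)`.
* `q_mul_s`: from `q_exp` and `e^s ≥ s`.
* `chs_sum`, `blk_sum`, `ch_sum`: swap sums (every block has at most one parent vertex, every vertex
  is in exactly one block).
-/

open Finset

namespace Pool.Agent.AMS

variable {V ι : Type} [Fintype V] [DecidableEq V] [Fintype ι] [DecidableEq ι]

theorem Bas_O_nonneg (T : Tr V ι) {x : ℝ} {o q : V → ℝ} (hd : T.Dat x o q) (i : ι) :
    0 ≤ ∑ w ∈ T.blk i, o w := Finset.sum_nonneg (fun w _ => (hd.pos w).le)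

theorem q_pos (T : Tr V ι) {x : ℝ} {o q : V → ℝ} (hx : 0 < x) (hd : T.Dat x o q) (v : V) :
    0 < q v := by
  rw [hd.q_eq v]
  have := Bas_O_nonneg T hd (T.b v)
  exact div_pos (hd.pos v) (by linarith)

theorem Bas_mem_blk (T : Tr V ι) (v : V) : v ∈ T.blk (T.b v) := by
  simp [Tr.blk]

theorem Bas_q_le_odds (T : Tr V ι) {x : ℝ} {o q : V → ℝ} (hd : T.Dat x o q) (v : V) :
    q v ≤ o v / (1 + o v) := by
  rw [hd.q_eq v]
  have h1 : o v ≤ ∑ w ∈ T.blk (T.b v), o w :=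
    Finset.single_le_sum (f := o) (fun w _ => (hd.pos w).le) (Bas_mem_blk T v)
  have h2 := hd.pos v
  exact div_le_div_of_nonneg_left h2.le (by linarith) (by linarith)

theorem q_blk_inv (T : Tr V ι) {x : ℝ} {o q : V → ℝ} (hx : 0 < x) (hd : T.Dat x o q) (i : ι) :
    (1 + ∑ w ∈ T.blk i, o w)⁻¹ = 1 - ∑ w ∈ T.blk i, q w := by
  have h1 : ∑ w ∈ T.blk i, q w = (∑ w ∈ T.blk i, o w) / (1 + ∑ w ∈ T.blk i, o w) := by
    rw [Finset.sum_div]
    refine Finset.sum_congr rfl (fun w hw => ?_)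
    rw [hd.q_eq w]
    have : T.b w = i := by simpa [Tr.blk] using hw
    rw [this]
  rw [h1]
  have := Bas_O_nonneg T hd i
  have h2 : (1 + ∑ w ∈ T.blk i, o w) ≠ 0 := by linarith
  field_simp
  ring

theorem Bas_inv_pos (T : Tr V ι) {x : ℝ} {o q : V → ℝ} (hd : T.Dat x o q) (i : ι) :
    0 < (1 + ∑ w ∈ T.blk i, o w)⁻¹ := by
  have := Bas_O_nonneg T hd i
  exact inv_pos.mpr (by linarith)

theorem q_blk (T : Tr V ι) {x : ℝ} {o q : V → ℝ} (hx : 0 < x) (hd : T.Dat x o q) (i : ι) :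
    ∑ w ∈ T.blk i, q w < 1 := by
  have h1 := q_blk_inv T hx hd i
  have h2 := Bas_inv_pos T hd i
  linarith

theorem Bas_o_le_exp (T : Tr V ι) {x : ℝ} {o q : V → ℝ} (hx : 0 < x) (hd : T.Dat x o q) (v : V) :
    o v ≤ x * Real.exp (-(T.chs q v)) := by
  rw [hd.req v]
  refine mul_le_mul_of_nonneg_left ?_ hx.le
  have h1 : Real.exp (-(T.chs q v)) = ∏ i ∈ T.ch v, Real.exp (-(∑ w ∈ T.blk i, q w)) := by
    rw [← Real.exp_sum]
    congr 1
    unfold Tr.chs
    rw [Finset.sum_neg_distrib]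
  rw [h1]
  refine Finset.prod_le_prod (fun i _ => (Bas_inv_pos T hd i).le) (fun i _ => ?_)
  rw [q_blk_inv T hx hd i]
  have := Real.add_one_le_exp (-(∑ w ∈ T.blk i, q w))
  linarith

theorem chs_nonneg (T : Tr V ι) (h : V → ℝ) (hh : ∀ v, 0 ≤ h v) (v : V) : 0 ≤ T.chs h v :=
  Finset.sum_nonneg (fun _ _ => Finset.sum_nonneg (fun w _ => hh w))

theorem Bas_o_le (T : Tr V ι) {x : ℝ} {o q : V → ℝ} (hx : 0 < x) (hd : T.Dat x o q) (v : V) :
    o v ≤ x := by
  refine (Bas_o_le_exp T hx hd v).trans ?_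
  have h1 : 0 ≤ T.chs q v := chs_nonneg T q (fun v => (q_pos T hx hd v).le) v
  have h2 : Real.exp (-(T.chs q v)) ≤ 1 := Real.exp_le_one_iff.mpr (by linarith)
  nlinarith

theorem q_le (T : Tr V ι) {x : ℝ} {o q : V → ℝ} (hx : 0 < x) (hd : T.Dat x o q) (v : V) :
    q v ≤ x / (1 + x) := by
  refine (Bas_q_le_odds T hd v).trans ?_
  have h1 := hd.pos v
  have h2 := Bas_o_le T hx hd v
  rw [div_le_div_iff₀ (by linarith) (by linarith)]
  nlinarith

theorem q_exp (T : Tr V ι) {x : ℝ} {o q : V → ℝ} (hx : 0 < x) (hd : T.Dat x o q) (v : V) :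
    q v * (1 + Real.exp (T.chs q v) / x) ≤ 1 := by
  have h1 := Bas_q_le_odds T hd v
  have h2 := Bas_o_le_exp T hx hd v
  have h3 := hd.pos v
  have h4 : Real.exp (T.chs q v) / x ≤ 1 / o v := by
    rw [div_le_div_iff₀ hx h3]
    calc Real.exp (T.chs q v) * o v
        ≤ Real.exp (T.chs q v) * (x * Real.exp (-(T.chs q v))) :=
          mul_le_mul_of_nonneg_left h2 (Real.exp_pos _).le
      _ = x * (Real.exp (T.chs q v) * Real.exp (-(T.chs q v))) := by ring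
      _ = x * 1 := by rw [← Real.exp_add]; simp
      _ = 1 * x := by ring
  have h5 := q_pos T hx hd v
  calc q v * (1 + Real.exp (T.chs q v) / x) ≤ q v * (1 + 1 / o v) :=
        mul_le_mul_of_nonneg_left (by linarith) h5.le
    _ ≤ o v / (1 + o v) * (1 + 1 / o v) :=
        mul_le_mul_of_nonneg_right h1 (by positivity)
    _ = 1 := by
        have : (1 + o v) ≠ 0 := by linarith
        field_simp
        ring

theorem q_mul_s (T : Tr V ι) {x : ℝ} {o q : V → ℝ} (hx : 0 < x) (hd : T.Dat x o q) (v : V) :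
    q v * T.chs q v ≤ x := by
  have h1 := q_exp T hx hd v
  have h2 := q_pos T hx hd v
  have h3 : q v * Real.exp (T.chs q v) ≤ x := by
    have h4 : q v * (Real.exp (T.chs q v) / x) ≤ 1 := by nlinarith
    have h5 : q v * (Real.exp (T.chs q v) / x) = q v * Real.exp (T.chs q v) / x := by ring
    rw [h5, div_le_one hx] at h4
    exact h4
  have h6 := Real.add_one_le_exp (T.chs q v)
  nlinarith

theorem chs_mono (T : Tr V ι) (h k : V → ℝ) (hh : ∀ w, h w ≤ k w) (v : V) :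
    T.chs h v ≤ T.chs k v :=
  Finset.sum_le_sum (fun _ _ => Finset.sum_le_sum (fun w _ => hh w))

theorem chs_add (T : Tr V ι) (h k : V → ℝ) (v : V) :
    T.chs (fun w => h w + k w) v = T.chs h v + T.chs k v := by
  unfold Tr.chs
  simp only [Finset.sum_add_distrib]

theorem chs_smul (T : Tr V ι) (a : ℝ) (h : V → ℝ) (v : V) :
    T.chs (fun w => a * h w) v = a * T.chs h v := by
  unfold Tr.chs
  simp only [Finset.mul_sum]

theorem abs_chs_le (T : Tr V ι) (h : V → ℝ) (v : V) : |T.chs h v| ≤ T.chs (fun w => |h w|) v := by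
  unfold Tr.chs
  refine (Finset.abs_sum_le_sum_abs _ _).trans ?_
  exact Finset.sum_le_sum (fun i _ => Finset.abs_sum_le_sum_abs _ _)

/-- the sum over all blocks is the sum over all vertices -/
theorem blk_sum {M : Type} [AddCommMonoid M] (T : Tr V ι) (h : V → M) :
    ∑ i, ∑ w ∈ T.blk i, h w = ∑ w, h w := by
  unfold Tr.blk
  exact Finset.sum_fiberwise_of_maps_to (fun v _ => Finset.mem_univ (T.b v)) h

/-- `∑_v ∑_{i ∈ ch v} f i ≤ ∑_i f i` for `f ≥ 0` -/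
theorem ch_sum (T : Tr V ι) (f : ι → ℝ) (hf : ∀ i, 0 ≤ f i) :
    ∑ v, ∑ i ∈ T.ch v, f i ≤ ∑ i, f i := by
  have h1 : ∑ v, ∑ i ∈ T.ch v, f i = ∑ i, ∑ v : V, if T.t i = some v then f i else 0 := by
    rw [Finset.sum_comm]
    refine Finset.sum_congr rfl (fun v _ => ?_)
    unfold Tr.ch
    rw [Finset.sum_filter]
  rw [h1]
  refine Finset.sum_le_sum (fun i _ => ?_)
  rcases ht : T.t i with _ | u
  · simp [hf i]
  · simp

theorem chs_sum (T : Tr V ι) (h : V → ℝ) (hh : ∀ v, 0 ≤ h v) :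
    ∑ v, T.chs h v ≤ ∑ w, h w := by
  rw [← blk_sum T h]
  exact ch_sum T (fun i => ∑ w ∈ T.blk i, h w) (fun i => Finset.sum_nonneg (fun w _ => hh w))

/-- `bv ≥ 0` (Cauchy-Schwarz and `∑_{blk i} q < 1`) -/
theorem bv_nonneg (T : Tr V ι) {x : ℝ} {o q : V → ℝ} (hx : 0 < x) (hd : T.Dat x o q)
    (D : V → ℝ) (i : ι) : 0 ≤ T.bv q D i := by
  unfold Tr.bv Tr.b2 Tr.bm
  have hq : ∀ w, 0 ≤ q w := fun w => (q_pos T hx hd w).le
  have h1 : (∑ w ∈ T.blk i, q w * D w) ^ 2 ≤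
      (∑ w ∈ T.blk i, q w) * ∑ w ∈ T.blk i, q w * D w ^ 2 := by
    have := Finset.sum_mul_sq_le_sq_mul_sq (T.blk i) (fun w => Real.sqrt (q w))
      (fun w => Real.sqrt (q w) * D w)
    have e1 : ∀ w ∈ T.blk i, Real.sqrt (q w) * (Real.sqrt (q w) * D w) = q w * D w := by
      intro w _
      rw [← mul_assoc, Real.mul_self_sqrt (hq w)]
    have e2 : ∀ w ∈ T.blk i, Real.sqrt (q w) ^ 2 = q w := fun w _ => Real.sq_sqrt (hq w)
    have e3 : ∀ w ∈ T.blk i, (Real.sqrt (q w) * D w) ^ 2 = q w * D w ^ 2 := by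
      intro w _
      rw [mul_pow, Real.sq_sqrt (hq w)]
    rw [Finset.sum_congr rfl e1, Finset.sum_congr rfl e2, Finset.sum_congr rfl e3] at this
    exact this
  have h2 := (q_blk T hx hd i).le
  have h3 : 0 ≤ ∑ w ∈ T.blk i, q w * D w ^ 2 :=
    Finset.sum_nonneg (fun w _ => mul_nonneg (hq w) (by positivity))
  nlinarith

theorem bv_le (T : Tr V ι) (q D : V → ℝ) (i : ι) : T.bv q D i ≤ T.b2 q D i := by
  unfold Tr.bv
  have := sq_nonneg (T.bm q D i)
  linarith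

/-- `0 ≤ cv S` for independent `S`: `∑_{v ∈ S} G v` is the sum of `bv i` over the blocks whose parent
is in `S` -/
theorem cv_nonneg (T : Tr V ι) {x : ℝ} {o q : V → ℝ} (hx : 0 < x) (hd : T.Dat x o q)
    (D : V → ℝ) (S : Finset V) : 0 ≤ T.cv q D S := by
  unfold Tr.cv
  have h1 : ∑ v ∈ S, T.G q D v ≤ ∑ v, T.G q D v :=
    Finset.sum_le_sum_of_subset_of_nonneg (Finset.subset_univ _)
      (fun v _ _ => Finset.sum_nonneg (fun i _ => bv_nonneg T hx hd D i))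
  have h2 : ∑ v, T.G q D v ≤ ∑ i, T.bv q D i :=
    ch_sum T (fun i => T.bv q D i) (fun i => bv_nonneg T hx hd D i)
  linarith

/-- `cv S ≤ ∑ q D²` -/
theorem cv_le (T : Tr V ι) {x : ℝ} {o q : V → ℝ} (hx : 0 < x) (hd : T.Dat x o q)
    (D : V → ℝ) (S : Finset V) : T.cv q D S ≤ ∑ v, q v * D v ^ 2 := by
  unfold Tr.cv
  have h1 : 0 ≤ ∑ v ∈ S, T.G q D v :=
    Finset.sum_nonneg (fun v _ => Finset.sum_nonneg (fun i _ => bv_nonneg T hx hd D i))
  have h2 : ∑ i, T.bv q D i ≤ ∑ v, q v * D v ^ 2 := by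
    rw [← blk_sum T (fun v => q v * D v ^ 2)]
    exact Finset.sum_le_sum (fun i _ => bv_le T q D i)
  linarith

end Pool.Agent.AMS
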