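import Mathlib
import Pool.Agent.AMS.Defs

/-!
# AMS: sequence-level definitions
-/

open Finset

namespace Pool.Agent.AMS

/-- partition function of a sequence -/
noncomputable def sZ (a : ℕ → ℕ) (n : ℕ) (x : ℝ) : ℝ := ∑ k ∈ range (n + 1), (a k : ℝ) * x ^ k

/-- mean -/
noncomputable def sM (a : ℕ → ℕ) (n : ℕ) (x : ℝ) : ℝ :=
  (∑ k ∈ range (n + 1), (k : ℝ) * ((a k : ℝ) * x ^ k)) / sZ a n x

/-- variance -/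
noncomputable def sV (a : ℕ → ℕ) (n : ℕ) (x : ℝ) : ℝ :=
  (∑ k ∈ range (n + 1), ((k : ℝ) - sM a n x) ^ 2 * ((a k : ℝ) * x ^ k)) / sZ a n x

/-- All facts about the sequence `a = cnt r` which are used in the end. -/
structure SeqHyp (L D n α : ℕ) (a : ℕ → ℕ) (ε : ℝ) : Prop where
  αn : α ≤ n
  nα : n ≤ L * α
  pos : ∀ k, k ≤ α → 0 < a k
  zero : ∀ k, α < k → a k = 0
  dwn : ∀ k, (k + 1) * a (k + 1) ≤ n * a k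
  tot : ∑ k ∈ range (n + 1), a k ≤ 2 ^ n
  lip : ∀ q, q + 1 ≤ α →
    (a (q + 1) : ℝ) / a q - 3 * n / ((q : ℝ) + 1) ^ 2 ≤ (a (q + 2) : ℝ) / a (q + 1)
  start : ∀ q, 4 * (D + 1) * (q + 1) ≤ n → 2 * (D + 1) * a q ≤ a (q + 1)
  tail : ∀ q, (q + 1) * a (q + 1) ≤ L * (α - q) * a q
  var : ∀ x : ℝ, 0 < x → x ≤ 2 ^ (4 * L * (L + 1)) → sV a n x ≤ ε * (n : ℝ) ^ 2
  loc : ∀ (x : ℝ) (q : ℕ), 1 / 2 ≤ x → x ≤ 3 / 2 → 1 ≤ q → sM a n x = q →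
    (a (q - 1) : ℝ) * x ^ (q - 1) + a (q + 1) * x ^ (q + 1) ≤ 2 * (a q * x ^ q)

end Pool.Agent.AMS
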