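import Mathlib
import Pool.Agent.AMS.SeqDefs

/-!
# AMS: module Gap — a geometric stretch around the mean forces a large variance (medium)

`w k = a k x^k`, `sZ = ∑_{k ≤ n} w k`.

`gap_up`: if `(5/4) w k ≤ w (k+1)` for `q ≤ k < q + 2J`, `q + 2J ≤ n`, then for `q ≤ k ≤ q + J`:
`w k ≤ (4/5)^{q+2J-k} w (q+2J) ≤ (4/5)^{q+2J-k} sZ`, and `∑_{k=q}^{q+J} w k ≤ 5 (4/5)^J sZ`. If the mean
is `q + J/2`, all other `k` are at distance `≥ J/2` from the mean, so
`sV ≥ (J/2)² (1 - 5 (4/5)^J)`.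

`gap_down`: if `w (k+1) ≤ (4/5) w k` for `q - 2J ≤ k ≤ q` (`2J ≤ q ≤ n`), then for
`q - J ≤ k ≤ q`: `w k ≤ (4/5)^{k-(q-2J)} w (q-2J)`; same conclusion if the mean is `q - J/2`.
-/

open Finset

namespace Pool.Agent.AMS

theorem Gap_geom (m : ℕ) : ∑ i ∈ range m, ((4 : ℝ) / 5) ^ i ≤ 5 := by
  have h : ∑ i ∈ range m, ((4 : ℝ) / 5) ^ i = 5 * (1 - (4 / 5) ^ m) := by
    induction m with
    | zero => simp
    | succ m ih => rw [Finset.sum_range_succ, ih, pow_succ]; ring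
  rw [h]
  have : (0 : ℝ) ≤ (4 / 5) ^ m := by positivity
  linarith

theorem Gap_core (a : ℕ → ℕ) (n J : ℕ) (x : ℝ) (hx : 0 < x) (h0 : 0 < a 0) (I : Finset ℕ)
    (hI : ∀ k, k ∉ I → ((J : ℝ) / 2) ^ 2 ≤ ((k : ℝ) - sM a n x) ^ 2)
    (hs : ∑ k ∈ I, (a k : ℝ) * x ^ k ≤ 5 * (4 / 5) ^ J * sZ a n x) :
    ((J : ℝ) / 2) ^ 2 * (1 - 5 * (4 / 5) ^ J) ≤ sV a n x := by
  have hw : ∀ k, 0 ≤ (a k : ℝ) * x ^ k := fun k => by positivity
  have hZ : 0 < sZ a n x := by
    unfold sZ
    apply Finset.sum_pos' (fun k _ => hw k)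
    refine ⟨0, by simp, ?_⟩
    have : (0 : ℝ) < (a 0 : ℝ) := by exact_mod_cast h0
    simpa using this
  unfold sV
  rw [le_div_iff₀ hZ]
  have h1 : sZ a n x - 5 * (4 / 5) ^ J * sZ a n x ≤
      ∑ k ∈ (range (n + 1)).filter (fun k => k ∉ I), (a k : ℝ) * x ^ k := by
    have h2 : sZ a n x = ∑ k ∈ (range (n + 1)).filter (fun k => k ∈ I), (a k : ℝ) * x ^ k +
        ∑ k ∈ (range (n + 1)).filter (fun k => k ∉ I), (a k : ℝ) * x ^ k := by
      unfold sZ
      rw [Finset.sum_filter_add_sum_filter_not]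
    have h3 : ∑ k ∈ (range (n + 1)).filter (fun k => k ∈ I), (a k : ℝ) * x ^ k ≤
        ∑ k ∈ I, (a k : ℝ) * x ^ k := by
      apply Finset.sum_le_sum_of_subset_of_nonneg
      · intro k hk
        exact (Finset.mem_filter.mp hk).2
      · intro k _ _
        exact hw k
    linarith
  have hJ : (0 : ℝ) ≤ ((J : ℝ) / 2) ^ 2 := by positivity
  calc ((J : ℝ) / 2) ^ 2 * (1 - 5 * (4 / 5) ^ J) * sZ a n x
      = ((J : ℝ) / 2) ^ 2 * (sZ a n x - 5 * (4 / 5) ^ J * sZ a n x) := by ring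
    _ ≤ ((J : ℝ) / 2) ^ 2 *
        ∑ k ∈ (range (n + 1)).filter (fun k => k ∉ I), (a k : ℝ) * x ^ k :=
        mul_le_mul_of_nonneg_left h1 hJ
    _ = ∑ k ∈ (range (n + 1)).filter (fun k => k ∉ I), ((J : ℝ) / 2) ^ 2 * ((a k : ℝ) * x ^ k) := by
        rw [Finset.mul_sum]
    _ ≤ ∑ k ∈ (range (n + 1)).filter (fun k => k ∉ I),
        ((k : ℝ) - sM a n x) ^ 2 * ((a k : ℝ) * x ^ k) := by
        apply Finset.sum_le_sum
        intro k hk
        exact mul_le_mul_of_nonneg_right (hI k (Finset.mem_filter.mp hk).2) (hw k)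
    _ ≤ ∑ k ∈ range (n + 1), ((k : ℝ) - sM a n x) ^ 2 * ((a k : ℝ) * x ^ k) := by
        apply Finset.sum_le_sum_of_subset_of_nonneg (Finset.filter_subset _ _)
        intro k _ _
        exact mul_nonneg (sq_nonneg _) (hw k)

theorem Gap_le_Z (a : ℕ → ℕ) (n k : ℕ) (x : ℝ) (hx : 0 < x) (hk : k ≤ n) :
    (a k : ℝ) * x ^ k ≤ sZ a n x := by
  unfold sZ
  exact Finset.single_le_sum (f := fun k => (a k : ℝ) * x ^ k)
    (fun k _ => by positivity) (by simpa using Nat.lt_succ_of_le hk)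

theorem gap_up (a : ℕ → ℕ) (n q J : ℕ) (x : ℝ) (hx : 0 < x) (h0 : 0 < a 0) (hq : q + 2 * J ≤ n)
    (h : ∀ k, q ≤ k → k < q + 2 * J → 5 / 4 * ((a k : ℝ) * x ^ k) ≤ (a (k + 1) : ℝ) * x ^ (k + 1))
    (hm : sM a n x = q + (J : ℝ) / 2) :
    ((J : ℝ) / 2) ^ 2 * (1 - 5 * (4 / 5) ^ J) ≤ sV a n x := by
  apply Gap_core a n J x hx h0 (Finset.Ico q (q + (J + 1)))
  · intro k hk
    rw [Finset.mem_Ico, not_and_or, not_le, not_lt] at hk
    have hJ : (0 : ℝ) ≤ (J : ℝ) / 2 := by positivity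
    rw [hm]
    rcases hk with hk | hk
    · have : (k : ℝ) ≤ q := by exact_mod_cast hk.le
      nlinarith
    · have : (q : ℝ) + (J + 1) ≤ k := by exact_mod_cast hk
      nlinarith
  · have hstep : ∀ j, j ≤ 2 * J → (a (q + 2 * J - j) : ℝ) * x ^ (q + 2 * J - j) ≤
        (4 / 5) ^ j * sZ a n x := by
      intro j
      induction j with
      | zero =>
        intro _
        simpa using Gap_le_Z a n (q + 2 * J) x hx hq
      | succ j ih =>
        intro hj
        have ih' := ih (by omega)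
        have h1 := h (q + 2 * J - (j + 1)) (by omega) (by omega)
        have e : q + 2 * J - (j + 1) + 1 = q + 2 * J - j := by omega
        rw [e] at h1
        calc (a (q + 2 * J - (j + 1)) : ℝ) * x ^ (q + 2 * J - (j + 1))
            ≤ 4 / 5 * ((a (q + 2 * J - j) : ℝ) * x ^ (q + 2 * J - j)) := by linarith
          _ ≤ 4 / 5 * ((4 / 5) ^ j * sZ a n x) := by linarith
          _ = (4 / 5) ^ (j + 1) * sZ a n x := by rw [pow_succ]; ring
    have hZ0 : 0 ≤ sZ a n x := by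
      unfold sZ
      exact Finset.sum_nonneg (fun k _ => by positivity)
    rw [Finset.sum_Ico_eq_sum_range]
    have e1 : q + (J + 1) - q = J + 1 := by omega
    rw [e1]
    calc ∑ i ∈ range (J + 1), (a (q + i) : ℝ) * x ^ (q + i)
        ≤ ∑ i ∈ range (J + 1), (4 / 5) ^ J * sZ a n x * (4 / 5) ^ (J + 1 - 1 - i) := by
          apply Finset.sum_le_sum
          intro i hi
          have hi' : i ≤ J := by
            have := Finset.mem_range.mp hi
            omega
          have h2 := hstep (2 * J - i) (by omega)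
          have e2 : q + 2 * J - (2 * J - i) = q + i := by omega
          rw [e2] at h2
          calc (a (q + i) : ℝ) * x ^ (q + i) ≤ (4 / 5) ^ (2 * J - i) * sZ a n x := h2
            _ = (4 / 5) ^ J * sZ a n x * (4 / 5) ^ (J + 1 - 1 - i) := by
              have e3 : 2 * J - i = J + (J + 1 - 1 - i) := by omega
              rw [e3, pow_add]; ring
      _ = (4 / 5) ^ J * sZ a n x * ∑ i ∈ range (J + 1), ((4 : ℝ) / 5) ^ i := by
          rw [← Finset.mul_sum, Finset.sum_range_reflect (fun i => ((4 : ℝ) / 5) ^ i) (J + 1)]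
      _ ≤ (4 / 5) ^ J * sZ a n x * 5 :=
          mul_le_mul_of_nonneg_left (Gap_geom _) (by positivity)
      _ = 5 * (4 / 5) ^ J * sZ a n x := by ring

theorem gap_down (a : ℕ → ℕ) (n q J : ℕ) (x : ℝ) (hx : 0 < x) (h0 : 0 < a 0) (hq : 2 * J ≤ q)
    (hqn : q ≤ n)
    (h : ∀ k, q ≤ k + 2 * J → k ≤ q → (a (k + 1) : ℝ) * x ^ (k + 1) ≤ 4 / 5 * ((a k : ℝ) * x ^ k))
    (hm : sM a n x = q - (J : ℝ) / 2) :
    ((J : ℝ) / 2) ^ 2 * (1 - 5 * (4 / 5) ^ J) ≤ sV a n x := by
  obtain ⟨p, rfl⟩ : ∃ p, q = p + 2 * J := ⟨q - 2 * J, by omega⟩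
  apply Gap_core a n J x hx h0 (Finset.Ico (p + J) (p + J + (J + 1)))
  · intro k hk
    rw [Finset.mem_Ico, not_and_or, not_le, not_lt] at hk
    have hJ : (0 : ℝ) ≤ (J : ℝ) / 2 := by positivity
    rw [hm]
    push_cast
    rcases hk with hk | hk
    · have : (k : ℝ) ≤ p + J := by exact_mod_cast hk.le
      nlinarith
    · have : (p : ℝ) + J + (J + 1) ≤ k := by exact_mod_cast hk
      nlinarith
  · have hstep : ∀ j, j ≤ 2 * J → (a (p + j) : ℝ) * x ^ (p + j) ≤
        (4 / 5) ^ j * sZ a n x := by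
      intro j
      induction j with
      | zero =>
        intro _
        simpa using Gap_le_Z a n p x hx (by omega)
      | succ j ih =>
        intro hj
        have ih' := ih (by omega)
        have h1 := h (p + j) (by omega) (by omega)
        calc (a (p + (j + 1)) : ℝ) * x ^ (p + (j + 1))
            ≤ 4 / 5 * ((a (p + j) : ℝ) * x ^ (p + j)) := h1
          _ ≤ 4 / 5 * ((4 / 5) ^ j * sZ a n x) := by linarith
          _ = (4 / 5) ^ (j + 1) * sZ a n x := by rw [pow_succ]; ring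
    have hZ0 : 0 ≤ sZ a n x := by
      unfold sZ
      exact Finset.sum_nonneg (fun k _ => by positivity)
    rw [Finset.sum_Ico_eq_sum_range]
    have e1 : p + J + (J + 1) - (p + J) = J + 1 := by omega
    rw [e1]
    calc ∑ i ∈ range (J + 1), (a (p + J + i) : ℝ) * x ^ (p + J + i)
        ≤ ∑ i ∈ range (J + 1), (4 / 5) ^ J * sZ a n x * (4 / 5) ^ i := by
          apply Finset.sum_le_sum
          intro i hi
          have hi' : i ≤ J := by
            have := Finset.mem_range.mp hi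
            omega
          have h2 := hstep (J + i) (by omega)
          have e2 : p + (J + i) = p + J + i := by omega
          rw [e2] at h2
          calc (a (p + J + i) : ℝ) * x ^ (p + J + i) ≤ (4 / 5) ^ (J + i) * sZ a n x := h2
            _ = (4 / 5) ^ J * sZ a n x * (4 / 5) ^ i := by
              rw [pow_add]; ring
      _ = (4 / 5) ^ J * sZ a n x * ∑ i ∈ range (J + 1), ((4 : ℝ) / 5) ^ i := by
          rw [← Finset.mul_sum]
      _ ≤ (4 / 5) ^ J * sZ a n x * 5 :=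
          mul_le_mul_of_nonneg_left (Gap_geom _) (by positivity)
      _ = 5 * (4 / 5) ^ J * sZ a n x := by ring

end Pool.Agent.AMS
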