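import Mathlib
import Pool.Agent.AMS.SeqDefs

/-!
# AMS: module SeqMean — the mean as a function of the activity (easy-medium)

* `sM_ivt`: `sM a n` is continuous on `(0, ∞)` (quotient of polynomials, denominator positive);
  intermediate value theorem on `[y, z]`.
* `sM_le`: `∑ k a_k x^k = x ∑ (k+1) a_{k+1} x^k ≤ x n ∑ a_k x^k`.
* `sM_large`: `x = 2^M`. `∑_{k ≤ k0} a_k x^k ≤ 2^n x^{k0}`, `sZ ≥ x^α`, so the probability of
  `k ≤ k0` is at most `2^{n + M k0 - M α} ≤ 2^{-L α} ≤ 2^{-α}`, and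
  `sM ≥ (k0 + 1)(1 - 2^{-α}) ≥ k0` because `k0 + 1 ≤ α + 1 ≤ 2^α`.
-/

open Finset

namespace Pool.Agent.AMS

theorem sZ_pos (a : ℕ → ℕ) (n : ℕ) (h0 : 0 < a 0) {x : ℝ} (hx : 0 < x) : 0 < sZ a n x := by
  unfold sZ
  apply Finset.sum_pos'
  · intro k _
    positivity
  · refine ⟨0, by simp, ?_⟩
    have : (0 : ℝ) < a 0 := by exact_mod_cast h0
    simpa using this

theorem sM_ivt (a : ℕ → ℕ) (n : ℕ) (h0 : 0 < a 0) {y z t : ℝ} (hy : 0 < y) (hyz : y ≤ z)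
    (h1 : sM a n y ≤ t) (h2 : t ≤ sM a n z) : ∃ x, y ≤ x ∧ x ≤ z ∧ sM a n x = t := by
  have hc : ContinuousOn (sM a n) (Set.Icc y z) := by
    unfold sM
    apply ContinuousOn.div
    · fun_prop
    · unfold sZ
      fun_prop
    · intro x hx
      exact (sZ_pos a n h0 (lt_of_lt_of_le hy hx.1)).ne'
  obtain ⟨x, hx, hxt⟩ := intermediate_value_Icc hyz hc ⟨h1, h2⟩
  exact ⟨x, hx.1, hx.2, hxt⟩

theorem sM_le (a : ℕ → ℕ) (n : ℕ) (h0 : 0 < a 0) (hd : ∀ k, (k + 1) * a (k + 1) ≤ n * a k)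
    {x : ℝ} (hx : 0 < x) : sM a n x ≤ x * n := by
  have hZ := sZ_pos a n h0 hx
  unfold sM
  rw [div_le_iff₀ hZ, Finset.sum_range_succ']
  have h2 : ∑ k ∈ range n, (((k + 1 : ℕ) : ℝ)) * ((a (k + 1) : ℝ) * x ^ (k + 1)) ≤
      ∑ k ∈ range n, x * n * ((a k : ℝ) * x ^ k) := by
    apply Finset.sum_le_sum
    intro k _
    have h3 : (((k + 1) * a (k + 1) : ℕ) : ℝ) ≤ ((n * a k : ℕ) : ℝ) := by exact_mod_cast hd k
    push_cast at h3
    have h4 : (0 : ℝ) ≤ x ^ k * x := by positivity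
    have h5 := mul_le_mul_of_nonneg_right h3 h4
    push_cast
    calc ((k : ℝ) + 1) * ((a (k + 1) : ℝ) * x ^ (k + 1)) = ((k : ℝ) + 1) * (a (k + 1) : ℝ) * (x ^ k * x) := by ring
      _ ≤ _ := h5
      _ = _ := by ring
  have h6 : ∑ k ∈ range n, x * n * ((a k : ℝ) * x ^ k) ≤ x * n * sZ a n x := by
    unfold sZ
    rw [Finset.mul_sum, Finset.sum_range_succ]
    have : (0 : ℝ) ≤ x * n * ((a n : ℝ) * x ^ n) := by positivity
    linarith
  have h7 : (((0 : ℕ) : ℝ)) * ((a 0 : ℝ) * x ^ 0) = 0 := by simp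
  linarith

theorem sM_large (a : ℕ → ℕ) (n α L M k0 : ℕ) (hαn : α ≤ n) (hn : n ≤ L * α)
    (hpos : ∀ k, k ≤ α → 0 < a k) (htot : ∑ k ∈ range (n + 1), a k ≤ 2 ^ n) (hα : 1 ≤ α)
    (hk : k0 ≤ α) (hL : 1 ≤ L) (hM : 2 * L * α ≤ M * (α - k0)) :
    (k0 : ℝ) ≤ sM a n ((2 : ℝ) ^ M) := by
  have h0 : 0 < a 0 := hpos 0 (Nat.zero_le _)
  set x : ℝ := (2 : ℝ) ^ M with hxdef
  have hx1 : 1 ≤ x := one_le_pow₀ (by norm_num)
  have hx : 0 < x := lt_of_lt_of_le one_pos hx1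
  have hZ := sZ_pos a n h0 hx
  have hk' : k0 < α := by
    rcases Nat.lt_or_ge k0 α with h | h
    · exact h
    · exfalso
      have h1 : α - k0 = 0 := by omega
      rw [h1, Nat.mul_zero] at hM
      have h2 : 0 < 2 * L * α := by positivity
      omega
  unfold sM
  rw [le_div_iff₀ hZ]
  unfold sZ
  rw [Finset.mul_sum, ← sub_nonneg, ← Finset.sum_sub_distrib]
  have hterm : ∀ k ∈ range (n + 1), (-(k0 : ℝ) * x ^ k0 * (a k : ℝ) + (if k = α then x ^ α else 0)) ≤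
      (k : ℝ) * ((a k : ℝ) * x ^ k) - (k0 : ℝ) * ((a k : ℝ) * x ^ k) := by
    intro k _
    have hak : (0 : ℝ) ≤ (a k : ℝ) := Nat.cast_nonneg _
    have hxk : (0 : ℝ) < x ^ k := by positivity
    have hxk0 : (0 : ℝ) < x ^ k0 := by positivity
    have hk0n : (0 : ℝ) ≤ (k0 : ℝ) := Nat.cast_nonneg _
    by_cases h : k = α
    · subst h
      simp only [if_true]
      have h1 : (1 : ℝ) ≤ (a k : ℝ) := by exact_mod_cast hpos k le_rfl
      have h2 : (k0 : ℝ) + 1 ≤ (k : ℝ) := by exact_mod_cast hk'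
      have h3 : x ^ k ≤ (a k : ℝ) * x ^ k := by nlinarith
      have h4 : (a k : ℝ) * x ^ k ≤ ((k : ℝ) - k0) * ((a k : ℝ) * x ^ k) := by nlinarith
      have h5 : 0 ≤ (k0 : ℝ) * x ^ k0 * (a k : ℝ) := by positivity
      nlinarith
    · simp only [h, if_false, add_zero]
      rcases le_or_gt k k0 with h1 | h1
      · have h2 : x ^ k ≤ x ^ k0 := pow_le_pow_right₀ hx1 h1
        have h3 : (k : ℝ) ≤ (k0 : ℝ) := by exact_mod_cast h1
        have h4 : (a k : ℝ) * x ^ k ≤ (a k : ℝ) * x ^ k0 := mul_le_mul_of_nonneg_left h2 hak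
        have h5 : 0 ≤ (k : ℝ) * ((a k : ℝ) * x ^ k) := by positivity
        have h6 : (k0 : ℝ) * ((a k : ℝ) * x ^ k) ≤ (k0 : ℝ) * ((a k : ℝ) * x ^ k0) :=
          mul_le_mul_of_nonneg_left h4 hk0n
        nlinarith
      · have h3 : (k0 : ℝ) ≤ (k : ℝ) := by exact_mod_cast h1.le
        have h4 : 0 ≤ ((k : ℝ) - k0) * ((a k : ℝ) * x ^ k) := by
          apply mul_nonneg (by linarith) (by positivity)
        have h5 : 0 ≤ (k0 : ℝ) * x ^ k0 * (a k : ℝ) := by positivity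
        nlinarith
  refine le_trans ?_ (Finset.sum_le_sum hterm)
  rw [Finset.sum_add_distrib, ← Finset.mul_sum, Finset.sum_ite_eq' (range (n + 1)) α (fun _ => x ^ α)]
  rw [if_pos (by simp; omega)]
  have htot' : ∑ k ∈ range (n + 1), (a k : ℝ) ≤ 2 ^ n := by exact_mod_cast htot
  have hpw : (2 : ℝ) ^ n * 2 ^ α ≤ x ^ (α - k0) := by
    rw [hxdef, ← pow_mul, ← pow_add]
    apply pow_le_pow_right₀ (by norm_num)
    have h1 : α ≤ L * α := Nat.le_mul_of_pos_left α (by omega)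
    have h2 : 2 * L * α = L * α + L * α := by ring
    omega
  have hα2 : (α : ℝ) ≤ 2 ^ α := by exact_mod_cast Nat.lt_two_pow_self.le
  have hk0α : (k0 : ℝ) ≤ 2 ^ α := le_trans (by exact_mod_cast hk) hα2
  have hxa : x ^ α = x ^ k0 * x ^ (α - k0) := by
    rw [← pow_add]; congr 1; omega
  have hxk0 : (0 : ℝ) < x ^ k0 := by positivity
  have h1 : (k0 : ℝ) * x ^ k0 * ∑ k ∈ range (n + 1), (a k : ℝ) ≤ x ^ α := by
    calc (k0 : ℝ) * x ^ k0 * ∑ k ∈ range (n + 1), (a k : ℝ) ≤ 2 ^ α * x ^ k0 * 2 ^ n := by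
          apply mul_le_mul _ htot' (by positivity) (by positivity)
          exact mul_le_mul_of_nonneg_right hk0α hxk0.le
      _ = x ^ k0 * ((2 : ℝ) ^ n * 2 ^ α) := by ring
      _ ≤ x ^ k0 * x ^ (α - k0) := mul_le_mul_of_nonneg_left hpw hxk0.le
      _ = x ^ α := hxa.symm
  have h2 : -(k0 : ℝ) * x ^ k0 * ∑ k ∈ range (n + 1), (a k : ℝ) =
      -((k0 : ℝ) * x ^ k0 * ∑ k ∈ range (n + 1), (a k : ℝ)) := by ring
  linarith

end Pool.Agent.AMS
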