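import Mathlib
import Pool.Agent.AMS.SeqDefs
import Pool.Agent.AMS.SeqMean
import Pool.Agent.AMS.Gap

/-!
# AMS: module CaseDown — no decrease before the mean at activity 1/2 (medium)

`B = 4(D+1)`, `ε₀ ≤ 1/(72 B²)`, `J = ⌊ε₀ n/2⌋`, `ε = ε₀²/256`. Suppose `a (q+1) < a q`,
`n < B (q+1)`, `q < sM (1/2)`. `R k = a (k+1)/a k`, `R q < 1`. By `lip` (at `q - i`),
`R (q-i) ≤ R (q-i+1) + 3n/(q-i+1)²`, and `q - i + 1 ≥ n/B - ε₀ n ≥ n/(2B)` for `i ≤ 2J`, so
`R (q-j) ≤ 1 + 2J * 3n * 4B²/n² ≤ 1 + 12 B² ε₀ ≤ 7/6` for `j ≤ 2J`. (All `a k > 0` for `k ≤ q`, as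
`a q > 0` means `q ≤ α`.) Put `t = q - J/2 > 0` (large `n`), `y = t/n`: `sM y ≤ y n = t` (`sM_le`),
`t < sM (1/2) ≤ n/2` gives `y ≤ 1/2`. `sM_ivt` on `[y, 1/2]`: `x ≤ 1/2`, `sM x = t`, so
`a (k+1) x^(k+1) = x R k a k x^k ≤ (7/12) a k x^k ≤ (4/5) a k x^k` for `q - 2J ≤ k ≤ q`. `gap_down`
and `var` give a contradiction as in `CaseUp` (`x ≤ 1/2 ≤ 2^(4L(L+1))`).
-/

open Finset

namespace Pool.Agent.AMS

theorem CaseDown_fin (K n J : ℕ) (hK : 1 ≤ K) (hJ : J = n / (2 * K)) (hn : 24 * K ≤ n) (ε V : ℝ)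
    (hε : ε ≤ 1 / (256 * (K : ℝ) ^ 2)) (hV : V ≤ ε * (n : ℝ) ^ 2)
    (h : ((J : ℝ) / 2) ^ 2 * (1 - 5 * (4 / 5) ^ J) ≤ V) : False := by
  have hJ12 : 12 ≤ J := by
    rw [hJ]
    rw [Nat.le_div_iff_mul_le (by omega)]
    nlinarith
  have hlt : n < 2 * K * (J + 1) := by
    rw [hJ]
    exact Nat.lt_mul_div_succ n (by omega)
  have hle : (n : ℝ) ≤ 4 * K * J := by
    have : n ≤ 4 * K * J := by nlinarith
    exact_mod_cast this
  have hKr : (1 : ℝ) ≤ K := by exact_mod_cast hK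
  have hJr : (12 : ℝ) ≤ J := by exact_mod_cast hJ12
  have hpow : ((4 : ℝ) / 5) ^ J ≤ 1 / 10 := by
    calc ((4 : ℝ) / 5) ^ J ≤ (4 / 5) ^ 12 :=
          pow_le_pow_of_le_one (by norm_num) (by norm_num) hJ12
      _ ≤ 1 / 10 := by norm_num
  have h1 : (J : ℝ) ^ 2 / 8 ≤ V := by
    refine le_trans ?_ h
    have : 0 ≤ (J : ℝ) ^ 2 := by positivity
    nlinarith
  have h2 : (n : ℝ) ^ 2 ≤ (4 * K * J) ^ 2 := by
    have : (0 : ℝ) ≤ n := by positivity
    nlinarith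
  have h3 : ε * (n : ℝ) ^ 2 ≤ 1 / (256 * (K : ℝ) ^ 2) * (4 * K * J) ^ 2 := by
    calc ε * (n : ℝ) ^ 2 ≤ 1 / (256 * (K : ℝ) ^ 2) * (n : ℝ) ^ 2 := by
          apply mul_le_mul_of_nonneg_right hε (by positivity)
      _ ≤ _ := by
          apply mul_le_mul_of_nonneg_left h2 (by positivity)
  have h4 : 1 / (256 * (K : ℝ) ^ 2) * (4 * K * J) ^ 2 = (J : ℝ) ^ 2 / 16 := by
    have : (K : ℝ) ≠ 0 := by positivity
    field_simp
    ring
  have : (J : ℝ) ^ 2 / 8 ≤ (J : ℝ) ^ 2 / 16 := by linarith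
  nlinarith

/-- `144 J n ≤ (q+1)²`. -/
theorem CaseDown_ar (L D n q J : ℕ) (hL : 1 ≤ L)
    (hJ : 2 * (72 * (4 * (D + 1)) ^ 2 * (L * (L + 1))) * J ≤ n) (hq : n < 4 * (D + 1) * (q + 1)) :
    144 * J * n ≤ (q + 1) ^ 2 := by
  set B := 4 * (D + 1) with hB
  have hB1 : 1 ≤ B := by omega
  have hLL : 1 ≤ L * (L + 1) := by nlinarith
  have h1 : n * n ≤ (B * (q + 1)) * (B * (q + 1)) := Nat.mul_le_mul hq.le hq.le
  have h2 : 2 * (72 * B ^ 2 * (L * (L + 1))) * J * n ≤ n * n := Nat.mul_le_mul_right n hJ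
  have h3 : B ^ 2 * (144 * J * n) ≤ B ^ 2 * (q + 1) ^ 2 := by
    calc B ^ 2 * (144 * J * n) = B ^ 2 * (144 * J * n) * 1 := by ring
      _ ≤ B ^ 2 * (144 * J * n) * (L * (L + 1)) := Nat.mul_le_mul_left _ hLL
      _ = 2 * (72 * B ^ 2 * (L * (L + 1))) * J * n := by ring
      _ ≤ n * n := h2
      _ ≤ _ := h1
      _ = B ^ 2 * (q + 1) ^ 2 := by ring
  exact Nat.le_of_mul_le_mul_left h3 (by positivity)

theorem case_down (L D : ℕ) (hL : 1 ≤ L) : ∃ ε₁ : ℝ, 0 < ε₁ ∧ ∃ N : ℕ,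
    ∀ (n α : ℕ) (a : ℕ → ℕ) (ε : ℝ), ε ≤ ε₁ → N ≤ n → SeqHyp L D n α a ε →
      ∀ q : ℕ, a (q + 1) < a q → n < 4 * (D + 1) * (q + 1) → (q : ℝ) < sM a n (1 / 2) → False := by
  set K : ℕ := 72 * (4 * (D + 1)) ^ 2 * (L * (L + 1)) with hKdef
  have hLL : 1 ≤ L * (L + 1) := by nlinarith
  have hB2 : 1 ≤ (4 * (D + 1)) ^ 2 := Nat.one_le_pow _ _ (by omega)
  have hK : 1 ≤ K := by
    rw [hKdef]
    nlinarith [Nat.mul_le_mul hB2 hLL]
  have hKB : 4 * (D + 1) ≤ K := by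
    rw [hKdef]
    have h1 : 4 * (D + 1) ≤ (4 * (D + 1)) ^ 2 := by
      rw [pow_two]
      exact Nat.le_mul_of_pos_left _ (by omega)
    calc 4 * (D + 1) ≤ (4 * (D + 1)) ^ 2 := h1
      _ ≤ 72 * (4 * (D + 1)) ^ 2 := Nat.le_mul_of_pos_left _ (by norm_num)
      _ = 72 * (4 * (D + 1)) ^ 2 * 1 := by ring
      _ ≤ 72 * (4 * (D + 1)) ^ 2 * (L * (L + 1)) := Nat.mul_le_mul_left _ hLL
  refine ⟨1 / (256 * (K : ℝ) ^ 2), by positivity, 24 * K, ?_⟩
  intro n α a ε hε hn H q hup hq hmean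
  set J : ℕ := n / (2 * K) with hJ
  have hJle : 2 * K * J ≤ n := by
    rw [hJ]; exact Nat.mul_div_le n (2 * K)
  have hJ12 : 12 ≤ J := by
    rw [hJ, Nat.le_div_iff_mul_le (by omega)]
    nlinarith
  have har : 144 * J * n ≤ (q + 1) ^ 2 := by
    apply CaseDown_ar L D n q J hL _ hq
    rw [← hKdef]
    exact hJle
  have hJq : 4 * J ≤ q + 1 := by
    -- 144 J n ≤ (q+1)^2 and 36 * B * J ≤ q+1
    have h1 : 2 * (72 * (4 * (D + 1)) ^ 2 * (L * (L + 1))) * J ≤ 4 * (D + 1) * (q + 1) := by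
      rw [← hKdef]; omega
    have h2 : 4 * (D + 1) * (4 * J) ≤ 4 * (D + 1) * (q + 1) := by
      refine le_trans ?_ h1
      calc 4 * (D + 1) * (4 * J) = 4 * (4 * (D + 1)) * J := by ring
        _ ≤ 2 * (72 * (4 * (D + 1)) ^ 2 * (L * (L + 1))) * J := by
          apply Nat.mul_le_mul_right
          have h3 : 4 * (D + 1) ≤ (4 * (D + 1)) ^ 2 * (L * (L + 1)) := by
            calc 4 * (D + 1) ≤ (4 * (D + 1)) ^ 2 := by
                  rw [pow_two]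
                  exact Nat.le_mul_of_pos_left _ (by omega)
              _ = (4 * (D + 1)) ^ 2 * 1 := by ring
              _ ≤ _ := Nat.mul_le_mul_left _ hLL
          nlinarith
    exact Nat.le_of_mul_le_mul_left h2 (by omega)
  have hzero : ∀ k, 0 < a k → k ≤ α := by
    intro k hk
    by_contra hc
    have := H.zero k (by omega)
    omega
  have hqα : q ≤ α := hzero _ (by omega)
  have haq : (0 : ℝ) < a q := by
    have : 0 < a q := by omega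
    exact_mod_cast this
  set δ : ℝ := 12 * n / ((q : ℝ) + 1) ^ 2 with hδ
  have hq0 : (0 : ℝ) < (q : ℝ) + 1 := by positivity
  have hδ0 : 0 ≤ δ := by rw [hδ]; positivity
  have h2J : 2 * (J : ℝ) * δ ≤ 1 / 6 := by
    have h : (144 : ℝ) * J * n ≤ ((q : ℝ) + 1) ^ 2 := by exact_mod_cast har
    rw [hδ]
    rw [show 2 * (J : ℝ) * (12 * n / ((q : ℝ) + 1) ^ 2) = (24 * J * n) / ((q : ℝ) + 1) ^ 2 by ring]
    rw [div_le_iff₀ (by positivity)]
    have : (0 : ℝ) ≤ J * n := by positivity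
    nlinarith
  have hstep : ∀ j : ℕ, j ≤ 2 * J →
      (a (q - j + 1) : ℝ) / a (q - j) ≤ 1 + (j : ℝ) * δ := by
    intro j
    induction j with
    | zero =>
      intro _
      simp only [Nat.sub_zero, Nat.cast_zero, zero_mul, add_zero]
      rw [div_le_one haq]
      exact_mod_cast hup.le
    | succ j ih =>
      intro hj
      have h2 := ih (by omega)
      have h3 := H.lip (q - (j + 1)) (by omega)
      have e1 : q - (j + 1) + 1 = q - j := by omega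
      have e2 : q - (j + 1) + 2 = q - j + 1 := by omega
      rw [e1, e2] at h3
      rw [e1]
      have hc : (((q - (j + 1) : ℕ) : ℝ) + 1) = (q : ℝ) - j := by
        rw [Nat.cast_sub (by omega)]
        push_cast
        ring
      rw [hc] at h3
      have hj4 : (j : ℝ) + 1 ≤ 2 * J := by exact_mod_cast hj
      have hJq' : (4 : ℝ) * J ≤ q + 1 := by exact_mod_cast hJq
      have h4 : 3 * (n : ℝ) / ((q : ℝ) - j) ^ 2 ≤ δ := by
        rw [hδ]
        have hge : ((q : ℝ) + 1) / 2 ≤ (q : ℝ) - j := by linarith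
        have hpos : (0 : ℝ) < (q : ℝ) - j := by linarith
        rw [div_le_div_iff₀ (by positivity) (by positivity)]
        have hsq : ((q : ℝ) + 1) ^ 2 ≤ 4 * ((q : ℝ) - j) ^ 2 := by nlinarith
        have hn0 : (0 : ℝ) ≤ n := by positivity
        nlinarith
      push_cast
      linarith
  have h0 : 0 < a 0 := H.pos 0 (by omega)
  -- the activity
  have hJr : (12 : ℝ) ≤ J := by exact_mod_cast hJ12
  have hJq' : (4 : ℝ) * J ≤ q + 1 := by exact_mod_cast hJq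
  have hn0 : (0 : ℝ) < n := by
    have : 0 < n := by omega
    exact_mod_cast this
  set t : ℝ := (q : ℝ) - (J : ℝ) / 2 with ht
  have ht0 : 0 < t := by rw [ht]; linarith
  have hy0 : 0 < t / n := by positivity
  have hhalf := sM_le a n h0 H.dwn (by norm_num : (0 : ℝ) < 1 / 2)
  have hy1 : t / n ≤ 1 / 2 := by
    rw [div_le_iff₀ hn0]
    rw [ht]
    linarith
  have hmy : sM a n (t / n) ≤ t := by
    have := sM_le a n h0 H.dwn hy0
    rwa [div_mul_cancel₀ _ hn0.ne'] at this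
  obtain ⟨x, hx1, hx2, hx3⟩ := sM_ivt a n h0 hy0 hy1 (t := t) hmy (by
      rw [ht]; linarith)
  have hx0 : 0 < x := by linarith
  have hx4 : x ≤ 2 ^ (4 * L * (L + 1)) := by
    refine le_trans hx2 ?_
    have : (1 : ℝ) ≤ 2 ^ (4 * L * (L + 1)) := one_le_pow₀ (by norm_num)
    linarith
  have hgap := gap_down a n q J x hx0 h0 (by omega) (by have := H.αn; omega) (by
    intro k hk1 hk2
    obtain ⟨j, hj, rfl⟩ : ∃ j, j ≤ q ∧ k = q - j := ⟨q - k, by omega, by omega⟩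
    have hj2 : j ≤ 2 * J := by omega
    have h1 := hstep j hj2
    have hj' : ((j : ℕ) : ℝ) ≤ 2 * (J : ℝ) := by exact_mod_cast hj2
    have h6 : (j : ℝ) * δ ≤ 1 / 6 :=
      le_trans (mul_le_mul_of_nonneg_right hj' hδ0) h2J
    have h7 : (a (q - j + 1) : ℝ) / a (q - j) ≤ 7 / 6 := by linarith
    have h8 : (0 : ℝ) < a (q - j) := by
      have := H.pos (q - j) (by omega)
      exact_mod_cast this
    rw [div_le_iff₀ h8] at h7
    have h9 : (0 : ℝ) < x ^ (q - j) := by positivity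
    have h10 : (a (q - j + 1) : ℝ) * x ≤ 4 / 5 * a (q - j) := by
      have h11 : (0 : ℝ) ≤ a (q - j + 1) := by positivity
      nlinarith
    calc (a (q - j + 1) : ℝ) * x ^ (q - j + 1) = (a (q - j + 1) * x) * x ^ (q - j) := by
          ring
      _ ≤ (4 / 5 * a (q - j)) * x ^ (q - j) := mul_le_mul_of_nonneg_right h10 h9.le
      _ = 4 / 5 * ((a (q - j) : ℝ) * x ^ (q - j)) := by ring) hx3
  exact CaseDown_fin K n J hK hJ hn ε _ hε (H.var x hx0 hx4) hgap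

end Pool.Agent.AMS
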