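import Mathlib
import Pool.Agent.AMS.SeqDefs
import Pool.Agent.AMS.SeqMean
import Pool.Agent.AMS.Gap

/-!
# AMS: module CaseUp — no increase beyond the mean at activity 3/2 (medium)

`B = 4(D+1)`, `ε₀ = 1/(18 B² + L(L+1))`-ish (need `ε₀ ≤ 1/(18 B²)` and `ε₀ ≤ 1/(L(L+1))`),
`J = ⌊ε₀ n/2⌋`, `ε = ε₀²/256`. Suppose `a q < a (q+1)`, `n < B (q+1)`, `sM (3/2) < q`.
(1) `R k = a (k+1)/a k`. `R q ≥ 1`; by `lip`, as long as everything is positive,
`R (q+j) ≥ 1 - j * 3n/(q+1)² ≥ 1 - 3 B² j/n ≥ 5/6` for `j ≤ 2J ≤ ε₀ n`. In particular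
`a (q+j+1) > 0`, so `q + j + 1 ≤ α`, for all `j ≤ 2J` (induction on `j`).
(2) From `tail` and `a q < a (q+1)`: `q + 1 < L (α - q)`, so `(L+1) q < L α`, `α < (L+1)(α - q)`.
`k0 = q + J ≤ α`, and `α - k0 ≥ α/(L+1) - J ≥ α/(2(L+1))` (`J ≤ ε₀ n/2 ≤ ε₀ L α/2`), so
`2 L α ≤ 4L(L+1)(α - k0)`; `sM_large` with `M = 4L(L+1)`: `q + J ≤ sM (2^M)`.
(3) `sM_ivt` on `[3/2, 2^M]` with `t = q + J/2`: `x ≥ 3/2`, `x ≤ 2^M`, so `x R k ≥ 5/4` for
`q ≤ k < q + 2J`. `gap_up`: `(J/2)² (1 - 5(4/5)^J) ≤ sV ≤ ε n²`. For large `n`: `J ≥ ε₀ n/4`,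
`5 (4/5)^J ≤ 1/2`: contradiction, `(ε₀ n/8)²/2 > ε₀² n²/256`.
-/

open Finset

namespace Pool.Agent.AMS

theorem CaseUp_fin (K n J : ℕ) (hK : 1 ≤ K) (hJ : J = n / (2 * K)) (hn : 24 * K ≤ n) (ε V : ℝ)
    (hε : ε ≤ 1 / (256 * (K : ℝ) ^ 2)) (hV : V ≤ ε * (n : ℝ) ^ 2)
    (h : ((J : ℝ) / 2) ^ 2 * (1 - 5 * (4 / 5) ^ J) ≤ V) : False := by
  have hJ12 : 12 ≤ J := by
    rw [hJ]
    rw [Nat.le_div_iff_mul_le (by omega)]
    nlinarith
  have hlt : n < 2 * K * (J + 1) := by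
    rw [hJ]
    exact Nat.lt_mul_div_succ n (by omega)
  have hle : (n : ℝ) ≤ 4 * K * J := by
    have : n ≤ 4 * K * J := by nlinarith
    exact_mod_cast this
  have hKr : (1 : ℝ) ≤ K := by exact_mod_cast hK
  have hJr : (12 : ℝ) ≤ J := by exact_mod_cast hJ12
  have hpow : ((4 : ℝ) / 5) ^ J ≤ 1 / 10 := by
    calc ((4 : ℝ) / 5) ^ J ≤ (4 / 5) ^ 12 :=
          pow_le_pow_of_le_one (by norm_num) (by norm_num) hJ12
      _ ≤ 1 / 10 := by norm_num
  have h1 : (J : ℝ) ^ 2 / 8 ≤ V := by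
    refine le_trans ?_ h
    have : 0 ≤ (J : ℝ) ^ 2 := by positivity
    nlinarith
  have h2 : (n : ℝ) ^ 2 ≤ (4 * K * J) ^ 2 := by
    have : (0 : ℝ) ≤ n := by positivity
    nlinarith
  have h3 : ε * (n : ℝ) ^ 2 ≤ 1 / (256 * (K : ℝ) ^ 2) * (4 * K * J) ^ 2 := by
    calc ε * (n : ℝ) ^ 2 ≤ 1 / (256 * (K : ℝ) ^ 2) * (n : ℝ) ^ 2 := by
          apply mul_le_mul_of_nonneg_right hε (by positivity)
      _ ≤ _ := by
          apply mul_le_mul_of_nonneg_left h2 (by positivity)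
  have h4 : 1 / (256 * (K : ℝ) ^ 2) * (4 * K * J) ^ 2 = (J : ℝ) ^ 2 / 16 := by
    have : (K : ℝ) ≠ 0 := by positivity
    field_simp
    ring
  have : (J : ℝ) ^ 2 / 8 ≤ (J : ℝ) ^ 2 / 16 := by linarith
  nlinarith

/-- `36 J n ≤ (q+1)²` and `2 (L+1) J ≤ α`. -/
theorem CaseUp_ar (L D n q J : ℕ) (hL : 1 ≤ L)
    (hJ : 2 * (72 * (4 * (D + 1)) ^ 2 * (L * (L + 1))) * J ≤ n) (hq : n < 4 * (D + 1) * (q + 1)) :
    144 * J * n ≤ (q + 1) ^ 2 := by
  set B := 4 * (D + 1) with hB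
  have hB1 : 1 ≤ B := by omega
  have hLL : 1 ≤ L * (L + 1) := by nlinarith
  have h1 : n * n ≤ (B * (q + 1)) * (B * (q + 1)) := Nat.mul_le_mul hq.le hq.le
  have h2 : 2 * (72 * B ^ 2 * (L * (L + 1))) * J * n ≤ n * n := Nat.mul_le_mul_right n hJ
  have h3 : B ^ 2 * (144 * J * n) ≤ B ^ 2 * (q + 1) ^ 2 := by
    calc B ^ 2 * (144 * J * n) = B ^ 2 * (144 * J * n) * 1 := by ring
      _ ≤ B ^ 2 * (144 * J * n) * (L * (L + 1)) := Nat.mul_le_mul_left _ hLL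
      _ = 2 * (72 * B ^ 2 * (L * (L + 1))) * J * n := by ring
      _ ≤ n * n := h2
      _ ≤ _ := h1
      _ = B ^ 2 * (q + 1) ^ 2 := by ring
  exact Nat.le_of_mul_le_mul_left h3 (by positivity)

theorem case_up (L D : ℕ) (hL : 1 ≤ L) : ∃ ε₁ : ℝ, 0 < ε₁ ∧ ∃ N : ℕ,
    ∀ (n α : ℕ) (a : ℕ → ℕ) (ε : ℝ), ε ≤ ε₁ → N ≤ n → SeqHyp L D n α a ε →
      ∀ q : ℕ, a q < a (q + 1) → n < 4 * (D + 1) * (q + 1) → sM a n (3 / 2) < q → False := by
  set K : ℕ := 72 * (4 * (D + 1)) ^ 2 * (L * (L + 1)) with hKdef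
  have hLL : 1 ≤ L * (L + 1) := by nlinarith
  have hB2 : 1 ≤ (4 * (D + 1)) ^ 2 := Nat.one_le_pow _ _ (by omega)
  have hK : 1 ≤ K := by
    rw [hKdef]
    nlinarith [Nat.mul_le_mul hB2 hLL]
  have hKL : L * (L + 1) ≤ K := by
    rw [hKdef]
    calc L * (L + 1) = 1 * (L * (L + 1)) := by ring
      _ ≤ 72 * (4 * (D + 1)) ^ 2 * (L * (L + 1)) := Nat.mul_le_mul_right _ (by nlinarith)
  refine ⟨1 / (256 * (K : ℝ) ^ 2), by positivity, 24 * K, ?_⟩
  intro n α a ε hε hn H q hup hq hmean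
  set J : ℕ := n / (2 * K) with hJ
  have hJle : 2 * K * J ≤ n := by
    rw [hJ]; exact Nat.mul_div_le n (2 * K)
  have har : 144 * J * n ≤ (q + 1) ^ 2 := by
    apply CaseUp_ar L D n q J hL _ hq
    rw [← hKdef]
    exact hJle
  have hzero : ∀ k, 0 < a k → k ≤ α := by
    intro k hk
    by_contra hc
    have := H.zero k (by omega)
    omega
  have hq1 : q + 1 ≤ α := hzero _ (by omega)
  set δ : ℝ := 3 * n / ((q : ℝ) + 1) ^ 2 with hδ
  have hq0 : (0 : ℝ) < (q : ℝ) + 1 := by positivity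
  have hδ0 : 0 ≤ δ := by rw [hδ]; positivity
  have h2J : 2 * (J : ℝ) * δ ≤ 1 / 6 := by
    have h : (144 : ℝ) * J * n ≤ ((q : ℝ) + 1) ^ 2 := by exact_mod_cast har
    rw [hδ]
    rw [show 2 * (J : ℝ) * (3 * n / ((q : ℝ) + 1) ^ 2) = (6 * J * n) / ((q : ℝ) + 1) ^ 2 by ring]
    rw [div_le_iff₀ (by positivity)]
    have : (0 : ℝ) ≤ J * n := by positivity
    nlinarith
  -- step 1
  have hstep : ∀ j : ℕ, j ≤ 2 * J → q + j + 1 ≤ α ∧
      1 - (j : ℝ) * δ ≤ (a (q + j + 1) : ℝ) / a (q + j) := by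
    intro j
    induction j with
    | zero =>
      intro _
      refine ⟨by simpa using hq1, ?_⟩
      have h1 : (0 : ℝ) < a (q + 0) := by
        have := H.pos (q + 0) (by omega)
        exact_mod_cast this
      rw [le_div_iff₀ h1]
      have : (a q : ℝ) ≤ a (q + 1) := by exact_mod_cast hup.le
      simpa using this
    | succ j ih =>
      intro hj
      obtain ⟨h1, h2⟩ := ih (by omega)
      have h3 := H.lip (q + j) h1
      have h4 : 3 * (n : ℝ) / (((q + j : ℕ) : ℝ) + 1) ^ 2 ≤ δ := by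
        rw [hδ]
        apply div_le_div_of_nonneg_left (by positivity) (by positivity)
        push_cast
        have : (0 : ℝ) ≤ j := by positivity
        nlinarith
      have h5 : 1 - ((j + 1 : ℕ) : ℝ) * δ ≤ (a (q + j + 2) : ℝ) / a (q + j + 1) := by
        push_cast
        linarith
      have hj' : ((j + 1 : ℕ) : ℝ) ≤ 2 * (J : ℝ) := by exact_mod_cast hj
      have h6 : ((j + 1 : ℕ) : ℝ) * δ ≤ 1 / 6 :=
        le_trans (mul_le_mul_of_nonneg_right hj' hδ0) h2J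
      have h7 : (0 : ℝ) < (a (q + j + 2) : ℝ) / a (q + j + 1) := by linarith
      have h8 : 0 < a (q + j + 2) := by
        by_contra hc
        have : a (q + j + 2) = 0 := by omega
        rw [this] at h7
        simp at h7
      refine ⟨?_, h5⟩
      have := hzero _ h8
      omega
  have hα2J : q + 2 * J + 1 ≤ α := (hstep (2 * J) le_rfl).1
  -- step 2
  have htail : q + 1 ≤ L * (α - q) := by
    have h1 := H.tail q
    have h2 : L * (α - q) * a q ≤ L * (α - q) * a (q + 1) := Nat.mul_le_mul_left _ hup.le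
    exact Nat.le_of_mul_le_mul_right (le_trans h1 h2) (by omega)
  have hLJ : 2 * (L + 1) * J ≤ α := by
    have h1 : L * (2 * (L + 1) * J) ≤ L * α := by
      calc L * (2 * (L + 1) * J) = 2 * (L * (L + 1)) * J := by ring
        _ ≤ 2 * K * J := Nat.mul_le_mul_right _ (Nat.mul_le_mul_left _ hKL)
        _ ≤ n := hJle
        _ ≤ L * α := H.nα
    exact Nat.le_of_mul_le_mul_left h1 (by omega)
  obtain ⟨d, hd⟩ : ∃ d, α = q + J + d := ⟨α - (q + J), by omega⟩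
  have hM : 2 * L * α ≤ 4 * L * (L + 1) * (α - (q + J)) := by
    have h1 : α - (q + J) = d := by omega
    have h2 : α - q = J + d := by omega
    rw [h1]
    rw [h2] at htail
    have h3 : α ≤ 2 * ((L + 1) * d) := by
      nlinarith
    calc 2 * L * α ≤ 2 * L * (2 * ((L + 1) * d)) := Nat.mul_le_mul_left _ h3
      _ = _ := by ring
  have h0 : 0 < a 0 := H.pos 0 (by omega)
  have hlarge := sM_large a n α L (4 * L * (L + 1)) (q + J) H.αn H.nα H.pos H.tot (by omega)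
    (by omega) hL hM
  -- step 3
  have h32 : (3 / 2 : ℝ) ≤ 2 ^ (4 * L * (L + 1)) := by
    calc (3 / 2 : ℝ) ≤ 2 ^ 1 := by norm_num
      _ ≤ 2 ^ (4 * L * (L + 1)) := by
        apply pow_le_pow_right₀ (by norm_num)
        nlinarith
  obtain ⟨x, hx1, hx2, hx3⟩ := sM_ivt a n h0 (by norm_num : (0 : ℝ) < 3 / 2) h32
    (t := (q : ℝ) + (J : ℝ) / 2) (by
      have : (0 : ℝ) ≤ J := by positivity
      linarith) (by
      refine le_trans ?_ hlarge
      push_cast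
      have : (0 : ℝ) ≤ J := by positivity
      linarith)
  have hx0 : 0 < x := by linarith
  have hgap := gap_up a n q J x hx0 h0 (by have := H.αn; omega) (by
    intro k hk1 hk2
    obtain ⟨j, rfl⟩ : ∃ j, k = q + j := ⟨k - q, by omega⟩
    obtain ⟨h1, h2⟩ := hstep j (by omega)
    have hj' : ((j : ℕ) : ℝ) ≤ 2 * (J : ℝ) := by
      have : j ≤ 2 * J := by omega
      exact_mod_cast this
    have h6 : (j : ℝ) * δ ≤ 1 / 6 :=
      le_trans (mul_le_mul_of_nonneg_right hj' hδ0) h2J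
    have h7 : (5 / 6 : ℝ) ≤ (a (q + j + 1) : ℝ) / a (q + j) := by linarith
    have h8 : (0 : ℝ) < a (q + j) := by
      have := H.pos (q + j) (by omega)
      exact_mod_cast this
    rw [le_div_iff₀ h8] at h7
    have h9 : (0 : ℝ) < x ^ (q + j) := by positivity
    have h10 : 5 / 4 * (a (q + j) : ℝ) ≤ a (q + j + 1) * x := by
      have h11 : (0 : ℝ) ≤ a (q + j + 1) := by positivity
      nlinarith
    calc 5 / 4 * ((a (q + j) : ℝ) * x ^ (q + j)) = (5 / 4 * (a (q + j) : ℝ)) * x ^ (q + j) := by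
          ring
      _ ≤ (a (q + j + 1) * x) * x ^ (q + j) := mul_le_mul_of_nonneg_right h10 h9.le
      _ = (a (q + j + 1) : ℝ) * x ^ (q + j + 1) := by ring) hx3
  exact CaseUp_fin K n J hK hJ hn ε _ hε (H.var x hx0 hx2) hgap

end Pool.Agent.AMS
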