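import Mathlib
import Pool.Agent.AMS.Defs

/-!
# AMS: module CntLink — expectations of functions of the size (easy)

Group the sum over `fam r` by `S.card ∈ range (card V + 1)` (`Finset.sum_fiberwise_of_maps_to`).
-/

open Finset

namespace Pool.Agent.AMS

variable {V : Type} [Fintype V] [DecidableEq V]

theorem Zx_pos (r : V → V → Prop) {x : ℝ} (hx : 0 < x) : 0 < Zx r x := by
  refine Finset.sum_pos (fun S _ => pow_pos hx _) ⟨∅, mem_fam.mpr ?_⟩
  intro u hu
  exact absurd hu (Finset.notMem_empty u)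

theorem sum_fam (r : V → V → Prop) {M : Type} [AddCommMonoid M] (g : ℕ → M) :
    ∑ S ∈ fam r, g S.card = ∑ k ∈ range (Fintype.card V + 1), cnt r k • g k := by
  have hmaps : ∀ S ∈ fam r, S.card ∈ range (Fintype.card V + 1) := by
    intro S _
    rw [mem_range]
    exact Nat.lt_succ_of_le (Finset.card_le_univ S)
  rw [← Finset.sum_fiberwise_of_maps_to hmaps]
  refine Finset.sum_congr rfl fun k _ => ?_
  have h1 : ∑ S ∈ (fam r).filter (fun S => S.card = k), g S.card =
      ∑ S ∈ (fam r).filter (fun S => S.card = k), g k := by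
    refine Finset.sum_congr rfl fun S hS => ?_
    rw [(Finset.mem_filter.mp hS).2]
  rw [h1, Finset.sum_const, cnt]

theorem Zx_cnt (r : V → V → Prop) (x : ℝ) :
    Zx r x = ∑ k ∈ range (Fintype.card V + 1), (cnt r k : ℝ) * x ^ k := by
  have h := sum_fam r (fun k => x ^ k)
  simp only [nsmul_eq_mul] at h
  exact h

theorem ExR_cnt (r : V → V → Prop) (x : ℝ) (g : ℕ → ℝ) :
    ExR r x (fun S => g S.card) =
      (∑ k ∈ range (Fintype.card V + 1), g k * ((cnt r k : ℝ) * x ^ k)) / Zx r x := by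
  have h := sum_fam r (fun k => x ^ k * g k)
  simp only [nsmul_eq_mul] at h
  unfold ExR
  rw [h]
  congr 1
  refine Finset.sum_congr rfl fun k _ => ?_
  ring

theorem cnt_zero_of_lt (r : V → V → Prop) (k : ℕ) (h : Fintype.card V < k) : cnt r k = 0 := by
  unfold cnt
  rw [Finset.card_eq_zero, Finset.filter_eq_empty_iff]
  intro S _ hS
  have := Finset.card_le_univ S
  omega

/-- real part of the characteristic function -/
theorem ExC_re (r : V → V → Prop) {x : ℝ} (hx : 0 < x) (φ m : ℝ) :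
    (ExC r x (fun S => Complex.exp (Complex.I * φ * (((S.card : ℝ) - m : ℝ) : ℂ)))).re =
      ∑ k ∈ range (Fintype.card V + 2), (cnt r k * x ^ k / Zx r x) * Real.cos (φ * ((k : ℝ) - m)) := by
  have hz := cnt_zero_of_lt r (Fintype.card V + 1) (by omega)
  have h := sum_fam r (fun k => ((x ^ k : ℝ) : ℂ) * Complex.exp (Complex.I * φ * (((k : ℝ) - m : ℝ) : ℂ)))
  simp only [nsmul_eq_mul] at h
  unfold ExC
  rw [h, Complex.div_ofReal_re, Complex.re_sum, Finset.sum_range_succ (n := Fintype.card V + 1), hz,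
    Finset.sum_div]
  simp only [Nat.cast_zero, zero_mul, zero_div, add_zero]
  refine Finset.sum_congr rfl fun k _ => ?_
  have e1 : Complex.I * φ * (((k : ℝ) - m : ℝ) : ℂ) = ((φ * ((k : ℝ) - m) : ℝ) : ℂ) * Complex.I := by
    push_cast
    ring
  have e2 : ((cnt r k : ℂ) * (((x ^ k : ℝ) : ℂ) *
      Complex.exp (Complex.I * φ * (((k : ℝ) - m : ℝ) : ℂ)))).re =
      (cnt r k : ℝ) * (x ^ k * Real.cos (φ * ((k : ℝ) - m))) := by
    rw [e1]
    have e3 : (cnt r k : ℂ) = (((cnt r k : ℕ) : ℝ) : ℂ) := by push_cast; rfl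
    rw [e3, Complex.re_ofReal_mul, Complex.re_ofReal_mul, Complex.exp_ofReal_mul_I_re]
  rw [e2]
  ring

theorem ExR_mono (r : V → V → Prop) {x : ℝ} (hx : 0 < x) (F G : Finset V → ℝ)
    (h : ∀ S ∈ fam r, F S ≤ G S) : ExR r x F ≤ ExR r x G := by
  refine div_le_div_of_nonneg_right (Finset.sum_le_sum fun S hS => ?_) (Zx_pos r hx).le
  exact mul_le_mul_of_nonneg_left (h S hS) (pow_nonneg hx.le _)

theorem ExR_const (r : V → V → Prop) {x : ℝ} (hx : 0 < x) (a : ℝ) : ExR r x (fun _ => a) = a := by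
  unfold ExR
  rw [← Finset.sum_mul]
  have h := (Zx_pos r hx).ne'
  have e : ∑ S ∈ fam r, x ^ S.card = Zx r x := rfl
  rw [e, mul_div_assoc, mul_comm, div_mul_cancel₀ _ h]

theorem ExR_add (r : V → V → Prop) (x : ℝ) (F G : Finset V → ℝ) :
    ExR r x (fun S => F S + G S) = ExR r x F + ExR r x G := by
  unfold ExR
  rw [← add_div, ← Finset.sum_add_distrib]
  congr 1
  refine Finset.sum_congr rfl fun S _ => ?_
  ring

theorem ExR_smul (r : V → V → Prop) (x a : ℝ) (F : Finset V → ℝ) :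
    ExR r x (fun S => a * F S) = a * ExR r x F := by
  unfold ExR
  rw [← mul_div_assoc, Finset.mul_sum]
  congr 1
  refine Finset.sum_congr rfl fun S _ => ?_
  ring

/-- Jensen / Cauchy-Schwarz: `(E|F|)² ≤ E F²` -/
theorem ExR_abs_sq (r : V → V → Prop) {x : ℝ} (hx : 0 < x) (F : Finset V → ℝ) :
    ExR r x (fun S => |F S|) ^ 2 ≤ ExR r x (fun S => F S ^ 2) := by
  have hZ := Zx_pos r hx
  unfold ExR
  rw [div_pow, div_le_div_iff₀ (pow_pos hZ 2) hZ]
  have h1 : (∑ S ∈ fam r, x ^ S.card * |F S|) ^ 2 ≤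
      (∑ S ∈ fam r, x ^ S.card) * ∑ S ∈ fam r, x ^ S.card * F S ^ 2 := by
    refine Finset.sum_sq_le_sum_mul_sum_of_sq_eq_mul _ (fun S _ => pow_nonneg hx.le _)
      (fun S _ => mul_nonneg (pow_nonneg hx.le _) (sq_nonneg _)) fun S _ => ?_
    rw [mul_pow, sq_abs]
    ring
  have e : ∑ S ∈ fam r, x ^ S.card = Zx r x := rfl
  rw [e] at h1
  nlinarith [mul_le_mul_of_nonneg_right h1 hZ.le]

theorem ExC_norm_le (r : V → V → Prop) {x : ℝ} (hx : 0 < x) (F : Finset V → ℂ) :
    ‖ExC r x F‖ ≤ ExR r x (fun S => ‖F S‖) := by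
  have hZ := Zx_pos r hx
  unfold ExC ExR
  rw [norm_div, Complex.norm_real, Real.norm_eq_abs, abs_of_pos hZ]
  refine div_le_div_of_nonneg_right ((norm_sum_le _ _).trans (le_of_eq ?_)) hZ.le
  refine Finset.sum_congr rfl fun S _ => ?_
  rw [norm_mul, Complex.norm_real, Real.norm_eq_abs, abs_of_pos (pow_pos hx _)]

end Pool.Agent.AMS
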