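import Mathlib
import Pool.Agent.AMS.Defs
import Pool.Agent.AMS.Fix
import Pool.Agent.AMS.Bas

/-!
# AMS: module Contr — the contraction inequalities (medium, elementary)

Notation `s v = chs q v`.

* `con1`: `q v ≤ x/(1+x)` and `chs_sum`.
* `con2`: with `b v = chs (q|H|) v`: `|H|² ≤ 3 c² + (3/2) b²`, `b v ² ≤ s v * chs (q H²) v`
  (Cauchy-Schwarz), `q v * s v ≤ 1/2` because `s ≤ (1 + (2/3) e^s)/2` for `s ≥ 0` (use
  `e^s ≥ 1 + s + s²/2`) and `q_exp`. So `∑ q H² ≤ 3 ∑ q c² + (3/4) ∑ q H²`.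
* `con3`: `(a + b)³ ≤ 400 a³ + (20/19)² b³` for `a, b ≥ 0` (convexity of the cube with weights
  `1/20, 19/20`), `b v ³ ≤ (s v)² chs (q|H|³) v` (power mean), `q v * (s v)² ≤ 4/5` because
  `s² ≤ (4/5)(1 + (2/3) e^s)` for `s ≥ 0` (use `e^s ≥ 1 + s + s²/2 + s³/6 + s⁴/24`; the polynomial
  `(4/5)(1 + (2/3)(1 + s + s²/2 + s³/6 + s⁴/24)) - s²` has minimum about `0.34`). So
  `∑ q|H|³ ≤ 400 ∑ q|c|³ + (8/9) ∑ q|H|³`, and `400 * 9 = 3600`.
* the sum over `v` of `chs (...) v` is at most the sum over all `w` (`chs_sum`).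
-/

open Finset

namespace Pool.Agent.AMS

variable {V ι : Type} [Fintype V] [DecidableEq V] [Fintype ι] [DecidableEq ι]

theorem Contr_cs (T : Tr V ι) (r f g : V → ℝ) (hf : ∀ w, 0 ≤ f w) (hg : ∀ w, 0 ≤ g w)
    (h : ∀ w, r w ^ 2 = f w * g w) (v : V) : T.chs r v ^ 2 ≤ T.chs f v * T.chs g v := by
  unfold Tr.chs
  rw [Finset.sum_sigma', Finset.sum_sigma', Finset.sum_sigma']
  exact Finset.sum_sq_le_sum_mul_sum_of_sq_le_mul _ (fun i _ => hf i.2) (fun i _ => hg i.2)
    (fun i _ => (h i.2).le)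

theorem Contr_chs_le (T : Tr V ι) {x : ℝ} {o q : V → ℝ} (hx : 0 < x) (hd : T.Dat x o q)
    (h : V → ℝ) (hh : ∀ v, 0 ≤ h v) :
    ∑ v, T.chs (fun w => q w * h w) v ≤ ∑ v, q v * h v :=
  chs_sum T (fun w => q w * h w) (fun w => mul_nonneg (q_pos T hx hd w).le (hh w))

theorem con1 (T : Tr V ι) {x : ℝ} {o q : V → ℝ} (hx : 0 < x) (hd : T.Dat x o q)
    (h : V → ℝ) (hh : ∀ v, 0 ≤ h v) :
    ∑ v, q v * T.chs (fun w => q w * h w) v ≤ x / (1 + x) * ∑ v, q v * h v := by
  have hq := fun w => (q_pos T hx hd w).le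
  have h1 : ∑ v, q v * T.chs (fun w => q w * h w) v
      ≤ ∑ v, x / (1 + x) * T.chs (fun w => q w * h w) v := by
    apply Finset.sum_le_sum
    intro v _
    exact mul_le_mul_of_nonneg_right (q_le T hx hd v)
      (chs_nonneg T _ (fun w => mul_nonneg (hq w) (hh w)) v)
  rw [← Finset.mul_sum] at h1
  have h2 : 0 ≤ x / (1 + x) := by positivity
  exact h1.trans (mul_le_mul_of_nonneg_left (Contr_chs_le T hx hd h hh) h2)

theorem Contr_exp (T : Tr V ι) {x : ℝ} {o q : V → ℝ} (hx : 0 < x) (hx2 : x ≤ 3 / 2)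
    (hd : T.Dat x o q) (v : V) : q v * (1 + 2 / 3 * Real.exp (T.chs q v)) ≤ 1 := by
  have h1 := q_exp T hx hd v
  have h0 := q_pos T hx hd v
  have h2 : 2 / 3 * Real.exp (T.chs q v) ≤ Real.exp (T.chs q v) / x := by
    rw [le_div_iff₀ hx]
    have := Real.exp_pos (T.chs q v)
    nlinarith
  refine le_trans ?_ h1
  exact mul_le_mul_of_nonneg_left (by linarith) h0.le

theorem Contr_s1 (T : Tr V ι) {x : ℝ} {o q : V → ℝ} (hx : 0 < x) (hx2 : x ≤ 3 / 2)
    (hd : T.Dat x o q) (v : V) : q v * T.chs q v ≤ 1 / 2 := by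
  have h1 := Contr_exp T hx hx2 hd v
  have h0 := q_pos T hx hd v
  have hs : 0 ≤ T.chs q v := chs_nonneg T q (fun w => (q_pos T hx hd w).le) v
  have he := Real.quadratic_le_exp_of_nonneg hs
  have h3 : 2 * T.chs q v ≤ 1 + 2 / 3 * Real.exp (T.chs q v) := by
    nlinarith [sq_nonneg (T.chs q v - 2)]
  have h4 := mul_le_mul_of_nonneg_left h3 h0.le
  linarith

theorem Contr_s2 (T : Tr V ι) {x : ℝ} {o q : V → ℝ} (hx : 0 < x) (hx2 : x ≤ 3 / 2)
    (hd : T.Dat x o q) (v : V) : q v * T.chs q v ^ 2 ≤ 4 / 5 := by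
  have h1 := Contr_exp T hx hx2 hd v
  have h0 := q_pos T hx hd v
  have hs : 0 ≤ T.chs q v := chs_nonneg T q (fun w => (q_pos T hx hd w).le) v
  have he := Real.sum_le_exp_of_nonneg hs 5
  simp only [Finset.sum_range_succ, Finset.sum_range_zero, Nat.factorial] at he
  norm_num at he
  generalize T.chs q v = s at *
  have h3 : 5 / 4 * s ^ 2 ≤ 1 + 2 / 3 * Real.exp s := by
    nlinarith [sq_nonneg (s ^ 2 - 7), mul_nonneg hs (sq_nonneg (s - 12 / 5)), sq_nonneg s]
  have h4 := mul_le_mul_of_nonneg_left h3 h0.le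
  linarith

theorem con2 (T : Tr V ι) {x : ℝ} {o q : V → ℝ} (hx : 0 < x) (hx2 : x ≤ 3 / 2)
    (hd : T.Dat x o q) (c H : V → ℝ)
    (h : ∀ v, |H v| ≤ |c v| + T.chs (fun w => q w * |H w|) v) :
    ∑ v, q v * H v ^ 2 ≤ 12 * ∑ v, q v * c v ^ 2 := by
  have hq := fun w => (q_pos T hx hd w).le
  have key : ∀ v, q v * H v ^ 2 ≤ 3 * (q v * c v ^ 2)
      + 3 / 4 * T.chs (fun w => q w * H w ^ 2) v := by
    intro v
    have hb0 : 0 ≤ T.chs (fun w => q w * |H w|) v :=
      chs_nonneg T _ (fun w => mul_nonneg (hq w) (abs_nonneg _)) v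
    have hc0 : 0 ≤ T.chs (fun w => q w * H w ^ 2) v :=
      chs_nonneg T _ (fun w => mul_nonneg (hq w) (sq_nonneg _)) v
    have hcs := Contr_cs T (fun w => q w * |H w|) q (fun w => q w * H w ^ 2) hq
      (fun w => mul_nonneg (hq w) (sq_nonneg _))
      (fun w => by
        have := sq_abs (H w)
        calc (q w * |H w|) ^ 2 = q w * (q w * |H w| ^ 2) := by ring
          _ = q w * (q w * H w ^ 2) := by rw [this]) v
    have hv := h v
    have hs1 := Contr_s1 T hx hx2 hd v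
    set b := T.chs (fun w => q w * |H w|) v
    set d := T.chs (fun w => q w * H w ^ 2) v
    set s := T.chs q v
    have e1 : H v ^ 2 ≤ 3 * c v ^ 2 + 3 / 2 * b ^ 2 := by
      have h1 : H v ^ 2 ≤ (|c v| + b) ^ 2 := by
        rw [← sq_abs (H v)]
        exact pow_le_pow_left₀ (abs_nonneg _) hv 2
      have h2 : (|c v| + b) ^ 2 ≤ 3 * |c v| ^ 2 + 3 / 2 * b ^ 2 := by
        nlinarith [sq_nonneg (2 * |c v| - b)]
      rw [sq_abs] at h2
      linarith
    have e2 : q v * b ^ 2 ≤ 1 / 2 * d := by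
      calc q v * b ^ 2 ≤ q v * (s * d) := mul_le_mul_of_nonneg_left hcs (hq v)
        _ = (q v * s) * d := by ring
        _ ≤ 1 / 2 * d := mul_le_mul_of_nonneg_right hs1 hc0
    have e3 := mul_le_mul_of_nonneg_left e1 (hq v)
    nlinarith
  have hsum := Finset.sum_le_sum (fun v (_ : v ∈ (univ : Finset V)) => key v)
  rw [Finset.sum_add_distrib, ← Finset.mul_sum, ← Finset.mul_sum] at hsum
  have h2 := Contr_chs_le T hx hd (fun w => H w ^ 2) (fun w => sq_nonneg _)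
  linarith

theorem Contr_cube {a b : ℝ} (ha : 0 ≤ a) (hb : 0 ≤ b) :
    (a + b) ^ 3 ≤ 400 * a ^ 3 + 400 / 361 * b ^ 3 := by
  have h : 400 * a ^ 3 + 400 / 361 * b ^ 3 - (a + b) ^ 3
      = 19 / 400 * (20 * a - 20 * b / 19) ^ 2 * (21 / 20 * (20 * a) + 39 / 20 * (20 * b / 19)) := by
    ring
  have h2 : 0 ≤ 19 / 400 * (20 * a - 20 * b / 19) ^ 2
      * (21 / 20 * (20 * a) + 39 / 20 * (20 * b / 19)) := by positivity
  linarith

theorem con3 (T : Tr V ι) {x : ℝ} {o q : V → ℝ} (hx : 0 < x) (hx2 : x ≤ 3 / 2)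
    (hd : T.Dat x o q) (c H : V → ℝ)
    (h : ∀ v, |H v| ≤ |c v| + T.chs (fun w => q w * |H w|) v) :
    ∑ v, q v * |H v| ^ 3 ≤ 3600 * ∑ v, q v * |c v| ^ 3 := by
  have hq := fun w => (q_pos T hx hd w).le
  have key : ∀ v, q v * |H v| ^ 3 ≤ 400 * (q v * |c v| ^ 3)
      + 8 / 9 * T.chs (fun w => q w * |H w| ^ 3) v := by
    intro v
    have hb0 : 0 ≤ T.chs (fun w => q w * |H w|) v :=
      chs_nonneg T _ (fun w => mul_nonneg (hq w) (abs_nonneg _)) v
    have hc0 : 0 ≤ T.chs (fun w => q w * |H w| ^ 2) v :=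
      chs_nonneg T _ (fun w => mul_nonneg (hq w) (by positivity)) v
    have hd0 : 0 ≤ T.chs (fun w => q w * |H w| ^ 3) v :=
      chs_nonneg T _ (fun w => mul_nonneg (hq w) (by positivity)) v
    have hs0 : 0 ≤ T.chs q v := chs_nonneg T _ hq v
    have hcs := Contr_cs T (fun w => q w * |H w|) q (fun w => q w * |H w| ^ 2) hq
      (fun w => mul_nonneg (hq w) (by positivity)) (fun w => by ring) v
    have hcs2 := Contr_cs T (fun w => q w * |H w| ^ 2) (fun w => q w * |H w|)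
      (fun w => q w * |H w| ^ 3) (fun w => mul_nonneg (hq w) (abs_nonneg _))
      (fun w => mul_nonneg (hq w) (by positivity)) (fun w => by ring) v
    have hv := h v
    have hs2 := Contr_s2 T hx hx2 hd v
    set b := T.chs (fun w => q w * |H w|) v
    set d := T.chs (fun w => q w * |H w| ^ 2) v
    set t := T.chs (fun w => q w * |H w| ^ 3) v
    set s := T.chs q v
    have e0 : b ^ 3 ≤ s ^ 2 * t := by
      rcases hb0.eq_or_lt with hb | hb
      · rw [← hb]
        have : 0 ≤ s ^ 2 * t := by positivity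
        simpa using this
      · have h1 : (b ^ 2) ^ 2 ≤ (s * d) ^ 2 := pow_le_pow_left₀ (by positivity) hcs 2
        have h2 : (s * d) ^ 2 ≤ s ^ 2 * (b * t) := by
          rw [mul_pow]
          exact mul_le_mul_of_nonneg_left hcs2 (by positivity)
        have h3 : b * b ^ 3 ≤ b * (s ^ 2 * t) := by nlinarith
        exact le_of_mul_le_mul_left h3 hb
    have e1 : |H v| ^ 3 ≤ 400 * |c v| ^ 3 + 400 / 361 * b ^ 3 :=
      (pow_le_pow_left₀ (abs_nonneg _) hv 3).trans (Contr_cube (abs_nonneg _) hb0)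
    have e2 : q v * b ^ 3 ≤ 4 / 5 * t := by
      calc q v * b ^ 3 ≤ q v * (s ^ 2 * t) := mul_le_mul_of_nonneg_left e0 (hq v)
        _ = (q v * s ^ 2) * t := by ring
        _ ≤ 4 / 5 * t := mul_le_mul_of_nonneg_right hs2 hd0
    have e3 := mul_le_mul_of_nonneg_left e1 (hq v)
    nlinarith
  have hsum := Finset.sum_le_sum (fun v (_ : v ∈ (univ : Finset V)) => key v)
  rw [Finset.sum_add_distrib, ← Finset.mul_sum, ← Finset.mul_sum] at hsum
  have h2 := Contr_chs_le T hx hd (fun w => |H w| ^ 3) (fun w => by positivity)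
  linarith

/-- an influence vector satisfies the hypothesis of `con2`, `con3` -/
theorem infl_abs (T : Tr V ι) {x : ℝ} {o q : V → ℝ} (hx : 0 < x) (hd : T.Dat x o q)
    (c D : V → ℝ) (hD : T.Infl q c D) (v : V) :
    |D v| ≤ |c v| + T.chs (fun w => q w * |D w|) v := by
  have h1 := hD v
  have h2 := abs_chs_le T (fun w => q w * D w) v
  have h3 : (fun w => |q w * D w|) = (fun w => q w * |D w|) := by
    funext w
    rw [abs_mul, abs_of_pos (q_pos T hx hd w)]
  rw [h3] at h2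
  rw [h1]
  exact (abs_sub _ _).trans (by linarith)

/-- `∑ q |D| ≤ x n` for the influence vector of `c = 1` -/
theorem infl_one (T : Tr V ι) {x : ℝ} {o q : V → ℝ} (hx : 0 < x) (hd : T.Dat x o q)
    (D : V → ℝ) (hD : T.Infl q (fun _ => 1) D) :
    ∑ v, q v * |D v| ≤ x * Fintype.card V := by
  have hq := fun w => (q_pos T hx hd w).le
  have h1 : ∑ v, q v * |D v| ≤ ∑ v, (x / (1 + x) + q v * T.chs (fun w => q w * |D w|) v) := by
    apply Finset.sum_le_sum
    intro v _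
    have h2 := infl_abs T hx hd (fun _ => 1) D hD v
    rw [abs_one] at h2
    have h3 := mul_le_mul_of_nonneg_left h2 (hq v)
    have h4 := q_le T hx hd v
    linarith
  rw [Finset.sum_add_distrib, Finset.sum_const, Finset.card_univ, nsmul_eq_mul] at h1
  have h5 := con1 T hx hd (fun w => |D w|) (fun w => abs_nonneg _)
  have h6 : (0 : ℝ) < 1 + x := by positivity
  have h7 := h1.trans (add_le_add le_rfl h5)
  have h8 := mul_le_mul_of_nonneg_left h7 h6.le
  have h9 : (1 + x) * ((Fintype.card V : ℝ) * (x / (1 + x)) + x / (1 + x) * ∑ v, q v * |D v|)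
      = (Fintype.card V : ℝ) * x + x * ∑ v, q v * |D v| := by
    field_simp
  rw [h9] at h8
  linarith

end Pool.Agent.AMS
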