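import Mathlib

/-!
# AMS: module Loc1 — one-step characteristic function estimate (medium)

`X` takes the value `D i` with probability `q i` and `0` with probability `1 - ∑ q`. Mean
`m = ∑ q D`, `S2 = ∑ q D²`, `v = S2 - m²`, `S3 = ∑ q |D|³`, `φ² S2 ≤ 1`. Then
`|exp(φ² v/2) E exp(iφ(X - m)) - 1| ≤ 60 |φ|³ S3`.

Proof. `|e^{iz} - 1 - iz + z²/2| ≤ (7/2) |z|³` for real `z` (for `|z| ≤ 1` by `Complex.exp_bound`, for
`|z| > 1` trivially: `2 + |z| + z²/2 ≤ (7/2)|z|³`). So `E e^{iφ(X-m)} = 1 - y + ρ` with `y = φ² v/2`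
and `|ρ| ≤ (7/2)|φ|³ E|X-m|³ ≤ 28 |φ|³ S3`, since `E|X - m|³ = ∑ q|D-m|³ + (1-∑q)|m|³ ≤ 4 S3 + 4|m|³`
and `|m|³ ≤ S3` (power mean, `∑ q ≤ 1`). `0 ≤ y ≤ 1/2`, `e^y = 1 + y + ρ'` with `0 ≤ ρ' ≤ y²`. Hence
`(1 + y + ρ')(1 - y + ρ) - 1 = - y² + ρ'(1 - y) + ρ e^y` has absolute value `≤ 2 y² + 2|ρ|`.
`y² ≤ φ⁴ S2²/4`, `S2² ≤ S1 S3` with `S1 = ∑ q|D|` (Cauchy-Schwarz), `(|φ| S1)² ≤ φ² S2 ≤ 1`; so
`y² ≤ |φ|³ S3 / 4`. Total `≤ (1/2 + 56) |φ|³ S3`.
-/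

open Finset

namespace Pool.Agent.AMS

theorem exp_taylor2 (z : ℝ) :
    ‖Complex.exp (Complex.I * z) - (1 + Complex.I * z - (z : ℂ) ^ 2 / 2)‖ ≤ 7 / 2 * |z| ^ 3 := by
  rcases le_or_gt |z| 1 with hz | hz
  · have hn : ‖Complex.I * (z : ℂ)‖ = |z| := by
      rw [norm_mul, Complex.norm_I, one_mul, Complex.norm_real, Real.norm_eq_abs]
    have h := Complex.exp_bound (x := Complex.I * z) (by rw [hn]; exact hz) (n := 3) (by norm_num)
    have hs : ∑ m ∈ range 3, (Complex.I * (z : ℂ)) ^ m / (m.factorial : ℂ) =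
        1 + Complex.I * z - (z : ℂ) ^ 2 / 2 := by
      simp only [Finset.sum_range_succ, Finset.sum_range_zero, Nat.factorial, pow_zero, pow_one,
        Nat.cast_one, div_one, zero_add, mul_pow, Complex.I_sq]
      push_cast
      ring
    rw [hs, hn] at h
    refine h.trans ?_
    have h3 : 0 ≤ |z| ^ 3 := by positivity
    have e : (((3 : ℕ).succ : ℝ) * (((3 : ℕ).factorial : ℝ) * (3 : ℕ))⁻¹) = 2 / 9 := by
      simp [Nat.factorial]
      norm_num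
    rw [e]
    nlinarith
  · have h1 : ‖Complex.exp (Complex.I * z)‖ = 1 := by
      rw [mul_comm]
      exact Complex.norm_exp_ofReal_mul_I z
    have h2 : ‖(1 + Complex.I * z - (z : ℂ) ^ 2 / 2 : ℂ)‖ ≤ 1 + |z| + |z| ^ 2 / 2 := by
      refine (norm_sub_le _ _).trans (add_le_add ((norm_add_le _ _).trans (add_le_add ?_ ?_)) ?_)
      · simp
      · rw [norm_mul, Complex.norm_I, one_mul, Complex.norm_real, Real.norm_eq_abs]
      · rw [norm_div, norm_pow, Complex.norm_real, Real.norm_eq_abs]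
        simp
    refine (norm_sub_le _ _).trans ?_
    rw [h1]
    have h3 : 1 ≤ |z| ^ 2 := by nlinarith
    have h4 : |z| ^ 2 ≤ |z| ^ 3 := by nlinarith [abs_nonneg z]
    have h5 : |z| ≤ |z| ^ 3 := by nlinarith [abs_nonneg z]
    linarith

theorem loc1 {κ : Type} (s : Finset κ) (q D : κ → ℝ) (hq : ∀ i ∈ s, 0 ≤ q i)
    (hQ : ∑ i ∈ s, q i ≤ 1) (φ : ℝ) (h : φ ^ 2 * ∑ i ∈ s, q i * D i ^ 2 ≤ 1) :
    ‖Complex.exp ((φ ^ 2 / 2 * (∑ i ∈ s, q i * D i ^ 2 - (∑ i ∈ s, q i * D i) ^ 2) : ℝ) : ℂ) *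
        Complex.exp (-(Complex.I * φ * ((∑ i ∈ s, q i * D i : ℝ) : ℂ))) *
        (1 + ∑ i ∈ s, (q i : ℂ) * (Complex.exp (Complex.I * φ * D i) - 1)) - 1‖ ≤
      60 * (|φ| ^ 3 * ∑ i ∈ s, q i * |D i| ^ 3) := by
  set m : ℝ := ∑ i ∈ s, q i * D i with hm
  set S1 : ℝ := ∑ i ∈ s, q i * |D i| with hS1
  set S2 : ℝ := ∑ i ∈ s, q i * D i ^ 2 with hS2
  set S3 : ℝ := ∑ i ∈ s, q i * |D i| ^ 3 with hS3
  set Q : ℝ := ∑ i ∈ s, q i with hQd
  have hQ0 : 0 ≤ Q := Finset.sum_nonneg hq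
  have hS10 : 0 ≤ S1 := Finset.sum_nonneg fun i hi => mul_nonneg (hq i hi) (abs_nonneg _)
  have hS20 : 0 ≤ S2 := Finset.sum_nonneg fun i hi => mul_nonneg (hq i hi) (sq_nonneg _)
  have hS30 : 0 ≤ S3 := Finset.sum_nonneg fun i hi => mul_nonneg (hq i hi) (by positivity)
  have hmS : |m| ≤ S1 := by
    refine (Finset.abs_sum_le_sum_abs _ _).trans (le_of_eq ?_)
    refine Finset.sum_congr rfl fun i hi => ?_
    rw [abs_mul, abs_of_nonneg (hq i hi)]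
  have c1 : S1 ^ 2 ≤ Q * S2 := by
    refine Finset.sum_sq_le_sum_mul_sum_of_sq_le_mul s hq
      (fun i hi => mul_nonneg (hq i hi) (sq_nonneg _)) fun i _ => le_of_eq ?_
    rw [mul_pow, sq_abs]
    ring
  have c1' : S1 ^ 2 ≤ S2 := by nlinarith
  have c2 : S2 ^ 2 ≤ S1 * S3 := by
    refine Finset.sum_sq_le_sum_mul_sum_of_sq_le_mul s
      (fun i hi => mul_nonneg (hq i hi) (abs_nonneg _))
      (fun i hi => mul_nonneg (hq i hi) (by positivity)) fun i _ => le_of_eq ?_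
    have : D i ^ 2 = |D i| ^ 2 := (sq_abs _).symm
    rw [this]
    ring
  have c3 : S1 ^ 3 ≤ S3 := by
    rcases hS10.eq_or_lt with h0 | h0
    · rw [← h0]
      simpa using hS30
    · have h4 : S1 ^ 4 ≤ S1 * S3 := by
        calc S1 ^ 4 = (S1 ^ 2) ^ 2 := by ring
          _ ≤ S2 ^ 2 := pow_le_pow_left₀ (by positivity) c1' 2
          _ ≤ S1 * S3 := c2
      have h5 : S1 * S1 ^ 3 ≤ S1 * S3 := by nlinarith
      exact le_of_mul_le_mul_left h5 h0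
  have hm3 : |m| ^ 3 ≤ S3 := (pow_le_pow_left₀ (abs_nonneg _) hmS 3).trans c3
  have hm2 : m ^ 2 ≤ S2 := by
    rw [← sq_abs]
    exact (pow_le_pow_left₀ (abs_nonneg _) hmS 2).trans c1'
  have hphiS1 : |φ| * S1 ≤ 1 := by
    have : (|φ| * S1) ^ 2 ≤ 1 := by
      rw [mul_pow, sq_abs]
      exact (mul_le_mul_of_nonneg_left c1' (sq_nonneg φ)).trans h
    have h0 : 0 ≤ |φ| * S1 := mul_nonneg (abs_nonneg _) hS10
    nlinarith
  -- remainders
  set R : ℝ → ℂ := fun z => Complex.exp (Complex.I * z) - (1 + Complex.I * z - (z : ℂ) ^ 2 / 2)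
    with hR
  have hRb : ∀ z, ‖R z‖ ≤ 7 / 2 * |z| ^ 3 := exp_taylor2
  have hRe : ∀ z : ℝ, Complex.exp (Complex.I * z) = 1 + Complex.I * z - (z : ℂ) ^ 2 / 2 + R z := by
    intro z
    simp only [hR]
    ring
  set ρ : ℂ := (1 - (Q : ℂ)) * R (-(φ * m)) + ∑ i ∈ s, (q i : ℂ) * R (φ * (D i - m)) with hρ
  set y : ℝ := φ ^ 2 / 2 * (S2 - m ^ 2) with hy
  have key : Complex.exp (-(Complex.I * φ * (m : ℂ))) *
      (1 + ∑ i ∈ s, (q i : ℂ) * (Complex.exp (Complex.I * φ * D i) - 1)) = 1 - (y : ℂ) + ρ := by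
    have e1 : Complex.exp (-(Complex.I * φ * (m : ℂ))) =
        1 + Complex.I * ((-(φ * m) : ℝ) : ℂ) - ((-(φ * m) : ℝ) : ℂ) ^ 2 / 2 + R (-(φ * m)) := by
      rw [← hRe]
      congr 1
      push_cast
      ring
    have e2 : ∀ i, Complex.exp (-(Complex.I * φ * (m : ℂ))) *
        Complex.exp (Complex.I * φ * D i) = 1 + Complex.I * ((φ * (D i - m) : ℝ) : ℂ) -
          ((φ * (D i - m) : ℝ) : ℂ) ^ 2 / 2 + R (φ * (D i - m)) := by
      intro i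
      rw [← hRe, ← Complex.exp_add]
      congr 1
      push_cast
      ring
    have e3 : Complex.exp (-(Complex.I * φ * (m : ℂ))) *
        (1 + ∑ i ∈ s, (q i : ℂ) * (Complex.exp (Complex.I * φ * D i) - 1)) =
        (1 - (Q : ℂ)) * Complex.exp (-(Complex.I * φ * (m : ℂ))) +
          ∑ i ∈ s, (q i : ℂ) * (Complex.exp (-(Complex.I * φ * (m : ℂ))) *
            Complex.exp (Complex.I * φ * D i)) := by
      have hQc : (Q : ℂ) = ∑ i ∈ s, (q i : ℂ) := by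
        rw [hQd]
        push_cast
        rfl
      rw [hQc, mul_add, mul_one, Finset.mul_sum, sub_mul, one_mul, Finset.sum_mul, sub_add,
        ← Finset.sum_sub_distrib]
      have : ∀ a b : ℂ, ∀ c : ℂ, b = -c → a + b = a - c := by
        intro a b c hbc
        rw [hbc]
        ring
      refine this _ _ _ ?_
      rw [← Finset.sum_neg_distrib]
      refine Finset.sum_congr rfl fun i _ => ?_
      ring
    have e5 : ∑ i ∈ s, (q i : ℂ) * (Complex.exp (-(Complex.I * φ * (m : ℂ))) *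
            Complex.exp (Complex.I * φ * D i)) =
        ∑ i ∈ s, (q i : ℂ) * (1 + Complex.I * ((φ * (D i - m) : ℝ) : ℂ) -
          ((φ * (D i - m) : ℝ) : ℂ) ^ 2 / 2 + R (φ * (D i - m))) :=
      Finset.sum_congr rfl fun i _ => by rw [e2 i]
    rw [e3, e5, e1]
    have e4 : ∑ i ∈ s, (q i : ℂ) * (1 + Complex.I * ((φ * (D i - m) : ℝ) : ℂ) -
          ((φ * (D i - m) : ℝ) : ℂ) ^ 2 / 2 + R (φ * (D i - m))) =
        (Q : ℂ) + Complex.I * ((φ * (m - m * Q) : ℝ) : ℂ) -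
          ((φ ^ 2 * (S2 - 2 * m * m + m ^ 2 * Q) / 2 : ℝ) : ℂ) +
          ∑ i ∈ s, (q i : ℂ) * R (φ * (D i - m)) := by
      have f1 : ∀ i ∈ s, (q i : ℂ) * (1 + Complex.I * ((φ * (D i - m) : ℝ) : ℂ) -
          ((φ * (D i - m) : ℝ) : ℂ) ^ 2 / 2 + R (φ * (D i - m))) =
          (((q i : ℝ) : ℂ) + Complex.I * ((φ * (q i * D i - m * q i) : ℝ) : ℂ) -
          ((φ ^ 2 * (q i * D i ^ 2 - 2 * m * (q i * D i) + m ^ 2 * q i) / 2 : ℝ) : ℂ)) +
            (q i : ℂ) * R (φ * (D i - m)) := by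
        intro i _
        push_cast
        ring
      rw [Finset.sum_congr rfl f1, Finset.sum_add_distrib, Finset.sum_sub_distrib,
        Finset.sum_add_distrib, ← Finset.mul_sum]
      have g1 : ∑ i ∈ s, ((q i : ℝ) : ℂ) = (Q : ℂ) := by
        rw [hQd]; push_cast; rfl
      have g2 : ∑ i ∈ s, ((φ * (q i * D i - m * q i) : ℝ) : ℂ) = ((φ * (m - m * Q) : ℝ) : ℂ) := by
        rw [← Complex.ofReal_sum]
        congr 1
        rw [← Finset.mul_sum, Finset.sum_sub_distrib, ← Finset.mul_sum]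
      have g3 : ∑ i ∈ s, ((φ ^ 2 * (q i * D i ^ 2 - 2 * m * (q i * D i) + m ^ 2 * q i) / 2 : ℝ) : ℂ)
          = ((φ ^ 2 * (S2 - 2 * m * m + m ^ 2 * Q) / 2 : ℝ) : ℂ) := by
        rw [← Complex.ofReal_sum]
        congr 1
        rw [← Finset.sum_div, ← Finset.mul_sum, Finset.sum_add_distrib, Finset.sum_sub_distrib,
          ← Finset.mul_sum, ← Finset.mul_sum]
      rw [g1, g2, g3]
    rw [e4, hρ, hy]
    push_cast
    ring
  have hρb : ‖ρ‖ ≤ 28 * (|φ| ^ 3 * S3) := by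
    have b1 : ‖(1 - (Q : ℂ)) * R (-(φ * m))‖ ≤ (1 - Q) * (7 / 2 * (|φ| ^ 3 * |m| ^ 3)) := by
      rw [norm_mul]
      have : ‖(1 - (Q : ℂ))‖ = 1 - Q := by
        rw [← Complex.ofReal_one, ← Complex.ofReal_sub, Complex.norm_real, Real.norm_eq_abs,
          abs_of_nonneg (by linarith)]
      rw [this]
      refine mul_le_mul_of_nonneg_left ((hRb _).trans (le_of_eq ?_)) (by linarith)
      rw [abs_neg, abs_mul, mul_pow]
    have b2 : ‖∑ i ∈ s, (q i : ℂ) * R (φ * (D i - m))‖ ≤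
        ∑ i ∈ s, (q i * (7 / 2 * (|φ| ^ 3 * (4 * (|D i| ^ 3 + |m| ^ 3))))) := by
      refine (norm_sum_le _ _).trans (Finset.sum_le_sum fun i hi => ?_)
      rw [norm_mul, Complex.norm_real, Real.norm_eq_abs, abs_of_nonneg (hq i hi)]
      refine mul_le_mul_of_nonneg_left ((hRb _).trans ?_) (hq i hi)
      rw [abs_mul, mul_pow]
      have c : |D i - m| ^ 3 ≤ 4 * (|D i| ^ 3 + |m| ^ 3) := by
        have h1 : |D i - m| ≤ |D i| + |m| := abs_sub _ _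
        have h2 : |D i - m| ^ 3 ≤ (|D i| + |m|) ^ 3 := pow_le_pow_left₀ (abs_nonneg _) h1 3
        have ha := abs_nonneg (D i)
        have hb := abs_nonneg m
        nlinarith [mul_nonneg (add_nonneg ha hb) (sq_nonneg (|D i| - |m|))]
      have h3 : 0 ≤ |φ| ^ 3 := by positivity
      nlinarith [mul_le_mul_of_nonneg_left c h3]
    have b3 : ∑ i ∈ s, (q i * (7 / 2 * (|φ| ^ 3 * (4 * (|D i| ^ 3 + |m| ^ 3))))) =
        14 * |φ| ^ 3 * (S3 + |m| ^ 3 * Q) := by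
      have : ∀ i ∈ s, (q i * (7 / 2 * (|φ| ^ 3 * (4 * (|D i| ^ 3 + |m| ^ 3))))) =
          14 * |φ| ^ 3 * (q i * |D i| ^ 3 + |m| ^ 3 * q i) := by
        intro i _
        ring
      rw [Finset.sum_congr rfl this, ← Finset.mul_sum, Finset.sum_add_distrib, ← Finset.mul_sum]
    rw [b3] at b2
    have h3 : 0 ≤ |φ| ^ 3 := by positivity
    have hm0 : 0 ≤ |m| ^ 3 := by positivity
    refine (norm_add_le _ _).trans ((add_le_add b1 b2).trans ?_)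
    have e1 : (1 - Q) * (7 / 2 * (|φ| ^ 3 * |m| ^ 3)) + 14 * |φ| ^ 3 * (S3 + |m| ^ 3 * Q) =
        |φ| ^ 3 * (14 * S3 + |m| ^ 3 * (7 / 2 + 21 / 2 * Q)) := by ring
    rw [e1]
    have e2 : |m| ^ 3 * (7 / 2 + 21 / 2 * Q) ≤ S3 * 14 := by
      refine mul_le_mul hm3 (by linarith) (by linarith) hS30
    have e3 : 14 * S3 + |m| ^ 3 * (7 / 2 + 21 / 2 * Q) ≤ 28 * S3 := by linarith
    nlinarith [mul_le_mul_of_nonneg_left e3 h3]
  have hy0 : 0 ≤ y := by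
    rw [hy]
    exact mul_nonneg (by positivity) (by linarith)
  have hyS : y ≤ φ ^ 2 * S2 / 2 := by
    rw [hy]
    nlinarith [mul_nonneg (sq_nonneg φ) (sq_nonneg m)]
  have hy1 : y ≤ 1 / 2 := by linarith
  have hy2 : y ^ 2 ≤ |φ| ^ 3 * S3 / 4 := by
    have e1 : y ^ 2 ≤ (φ ^ 2 * S2 / 2) ^ 2 := pow_le_pow_left₀ hy0 hyS 2
    have e2 : (φ ^ 2 * S2 / 2) ^ 2 = |φ| ^ 4 * S2 ^ 2 / 4 := by
      rw [← sq_abs φ]
      ring
    have e3 : |φ| ^ 4 * S2 ^ 2 ≤ |φ| ^ 4 * (S1 * S3) :=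
      mul_le_mul_of_nonneg_left c2 (by positivity)
    have e4 : |φ| ^ 4 * (S1 * S3) ≤ |φ| ^ 3 * S3 := by
      have : |φ| ^ 4 * (S1 * S3) = (|φ| * S1) * (|φ| ^ 3 * S3) := by ring
      rw [this]
      have h0 : 0 ≤ |φ| ^ 3 * S3 := mul_nonneg (by positivity) hS30
      nlinarith
    linarith
  have hexp : |Real.exp y - 1 - y| ≤ y ^ 2 :=
    Real.abs_exp_sub_one_sub_id_le (by rw [abs_of_nonneg hy0]; linarith)
  have hexp2 : Real.exp y ≤ 2 := by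
    have := (abs_le.mp hexp).2
    nlinarith
  have hfin : Complex.exp ((y : ℝ) : ℂ) * Complex.exp (-(Complex.I * φ * (m : ℂ))) *
      (1 + ∑ i ∈ s, (q i : ℂ) * (Complex.exp (Complex.I * φ * D i) - 1)) - 1 =
      ((-(y ^ 2) + (Real.exp y - 1 - y) * (1 - y) : ℝ) : ℂ) + ((Real.exp y : ℝ) : ℂ) * ρ := by
    rw [mul_assoc, key, ← Complex.ofReal_exp]
    push_cast
    ring
  rw [hfin]
  refine (norm_add_le _ _).trans ?_
  have n1 : ‖((-(y ^ 2) + (Real.exp y - 1 - y) * (1 - y) : ℝ) : ℂ)‖ ≤ 2 * y ^ 2 := by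
    rw [Complex.norm_real, Real.norm_eq_abs]
    refine (abs_add_le _ _).trans ?_
    rw [abs_neg, abs_of_nonneg (sq_nonneg y), abs_mul, abs_of_nonneg (show 0 ≤ 1 - y by linarith)]
    have : |Real.exp y - 1 - y| * (1 - y) ≤ y ^ 2 * 1 :=
      mul_le_mul hexp (by linarith) (by linarith) (sq_nonneg y)
    linarith
  have n2 : ‖((Real.exp y : ℝ) : ℂ) * ρ‖ ≤ 2 * (28 * (|φ| ^ 3 * S3)) := by
    rw [norm_mul, Complex.norm_real, Real.norm_eq_abs, abs_of_pos (Real.exp_pos y)]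
    exact mul_le_mul hexp2 hρb (norm_nonneg _) (by norm_num)
  have h0 : 0 ≤ |φ| ^ 3 * S3 := mul_nonneg (by positivity) hS30
  linarith

end Pool.Agent.AMS
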