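import Mathlib

/-!
# AMS: module PertL — products of numbers close to 1 (easy)

`‖g⁻¹ - 1‖ = ‖1 - g‖/‖g‖ ≤ y/(1 - y)` if `‖g - 1‖ ≤ y < 1`;
`Finset.norm_prod_one_add_sub_one_le : ‖∏ (1 + f i) - 1‖ ≤ exp (∑ ‖f i‖) - 1`;
`exp u - 1 ≤ u (1 + u)` for `0 ≤ u ≤ 1` (e.g. from `Real.abs_exp_sub_one_sub_id_le`).
-/

open Finset

namespace Pool.Agent.AMS

theorem PertL_exp_sub (u : ℝ) (h0 : 0 ≤ u) (h1 : u ≤ 1) : Real.exp u - 1 ≤ u * (1 + u) := by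
  have h := Real.abs_exp_sub_one_sub_id_le (x := u) (by rwa [abs_of_nonneg h0])
  have h2 := (abs_le.1 h).2
  nlinarith

theorem inv_prod_close (δ₁ : ℝ) (hδ : 0 < δ₁) : ∃ η₀ : ℝ, 0 < η₀ ∧
    ∀ (κ : Type) (s : Finset κ) (g : κ → ℂ) (y : κ → ℝ), (∀ j ∈ s, ‖g j - 1‖ ≤ y j) →
      ∑ j ∈ s, y j ≤ η₀ → ‖∏ j ∈ s, (g j)⁻¹ - 1‖ ≤ (1 + δ₁) * ∑ j ∈ s, y j := by
  refine ⟨min (1 / 4) (δ₁ / 4), by positivity, fun κ s g y hg hy => ?_⟩
  set e := min (1 / 4 : ℝ) (δ₁ / 4) with he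
  have he0 : 0 < e := by positivity
  have he1 : e ≤ 1 / 4 := min_le_left _ _
  have he2 : e ≤ δ₁ / 4 := min_le_right _ _
  have hy0 : ∀ j ∈ s, 0 ≤ y j := fun j hj => (norm_nonneg _).trans (hg j hj)
  have hyj : ∀ j ∈ s, y j ≤ e := fun j hj => (Finset.single_le_sum hy0 hj).trans hy
  set Y := ∑ j ∈ s, y j with hY
  have hY0 : 0 ≤ Y := Finset.sum_nonneg hy0
  have h1e : 0 < 1 - e := by linarith
  have hinv : ∀ j ∈ s, ‖(g j)⁻¹ - 1‖ ≤ y j / (1 - e) := fun j hj => by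
    have h1 := hg j hj
    have h2 := hyj j hj
    have h3 : 1 - e ≤ ‖g j‖ := by
      have h4 : ‖(1 : ℂ)‖ ≤ ‖g j‖ + ‖g j - 1‖ := by
        have : (1 : ℂ) = g j - (g j - 1) := by ring
        calc ‖(1 : ℂ)‖ = ‖g j - (g j - 1)‖ := by rw [← this]
          _ ≤ _ := norm_sub_le _ _
      rw [norm_one] at h4
      linarith
    have h5 : g j ≠ 0 := by
      intro h0
      rw [h0, norm_zero] at h3
      linarith
    have h6 : (g j)⁻¹ - 1 = -(g j - 1) / g j := by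
      field_simp
      ring
    rw [h6, norm_div, norm_neg]
    exact div_le_div₀ (hy0 j hj) h1 h1e h3
  have hprod := Finset.norm_prod_one_add_sub_one_le s (fun j => (g j)⁻¹ - 1)
  have hcongr : ∏ j ∈ s, (1 + ((g j)⁻¹ - 1)) = ∏ j ∈ s, (g j)⁻¹ :=
    Finset.prod_congr rfl fun j _ => by ring
  rw [hcongr] at hprod
  refine hprod.trans ?_
  have hsum : ∑ j ∈ s, ‖(g j)⁻¹ - 1‖ ≤ Y / (1 - e) := by
    rw [hY, Finset.sum_div]
    exact Finset.sum_le_sum hinv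
  have hu0 : 0 ≤ Y / (1 - e) := by positivity
  have hu1 : Y / (1 - e) ≤ e / (1 - e) := by gcongr
  have hu2 : e / (1 - e) ≤ 1 := by
    rw [div_le_one h1e]; linarith
  have h7 : Real.exp (∑ j ∈ s, ‖(g j)⁻¹ - 1‖) - 1 ≤ Y / (1 - e) * (1 + Y / (1 - e)) := by
    refine le_trans ?_ (PertL_exp_sub _ hu0 (hu1.trans hu2))
    have := Real.exp_le_exp.2 hsum
    linarith
  refine h7.trans ?_
  have h8 : Y / (1 - e) * (1 + Y / (1 - e)) ≤ Y / (1 - e) * (1 + e / (1 - e)) := by gcongr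
  refine h8.trans ?_
  have h9 : Y / (1 - e) * (1 + e / (1 - e)) = Y * (1 / (1 - e) ^ 2) := by
    field_simp
    ring
  rw [h9]
  have h10 : 1 / (1 - e) ^ 2 ≤ 1 + δ₁ := by
    rw [div_le_iff₀ (by positivity)]
    nlinarith [mul_nonneg he0.le he0.le, mul_nonneg (mul_nonneg he0.le he0.le) he0.le,
      mul_nonneg he0.le (sub_nonneg.2 he1)]
  rw [mul_comm]
  exact mul_le_mul_of_nonneg_right h10 hY0

theorem prod_close (κ : Type) (s : Finset κ) (g : κ → ℂ) (y : κ → ℝ)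
    (h : ∀ j ∈ s, ‖g j - 1‖ ≤ y j) (hy : ∑ j ∈ s, y j ≤ 1) :
    ‖∏ j ∈ s, g j - 1‖ ≤ 2 * ∑ j ∈ s, y j := by
  have hy0 : ∀ j ∈ s, 0 ≤ y j := fun j hj => (norm_nonneg _).trans (h j hj)
  have hY0 : 0 ≤ ∑ j ∈ s, y j := Finset.sum_nonneg hy0
  have hprod := Finset.norm_prod_one_add_sub_one_le s (fun j => g j - 1)
  have hcongr : ∏ j ∈ s, (1 + (g j - 1)) = ∏ j ∈ s, g j :=
    Finset.prod_congr rfl fun j _ => by ring
  rw [hcongr] at hprod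
  refine hprod.trans ?_
  have h1 : Real.exp (∑ j ∈ s, ‖g j - 1‖) ≤ Real.exp (∑ j ∈ s, y j) :=
    Real.exp_le_exp.2 (Finset.sum_le_sum h)
  have h2 := PertL_exp_sub _ hY0 hy
  nlinarith

end Pool.Agent.AMS
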