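import Mathlib
import Pool.Agent.AMS.Defs
import Pool.Agent.AMS.Fix
import Pool.Agent.AMS.Bas

/-!
# AMS: module PertZ — the majorant of the error propagation (easy-medium)

`z` exists by `exists_fix` (it depends only on the values at the children), `z ≥ 0` by `down`.
`y_j = η_j + κ ∑_{w ∈ blk j} q w z w`, `z v = ∑_{j ∈ ch v} y_j`. By `blk_sum`, `q_le`, `ch_sum`:
`∑_j y_j = ∑ η + κ ∑_w q w z w ≤ ∑ η + κ (x/(1+x)) ∑_w z w ≤ ∑ η + θ ∑_j y_j`.
-/

open Finset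

namespace Pool.Agent.AMS

variable {V ι : Type} [Fintype V] [DecidableEq V] [Fintype ι] [DecidableEq ι]

theorem majorant (T : Tr V ι) {x : ℝ} {o q : V → ℝ} (hx : 0 < x) (hd : T.Dat x o q)
    (η : ι → ℝ) (hη : ∀ i, 0 ≤ η i) (κ θ : ℝ) (hκ : 0 ≤ κ) (hθ : κ * (x / (1 + x)) ≤ θ)
    (hθ1 : θ < 1) :
    ∃ z : V → ℝ, (∀ v, 0 ≤ z v) ∧
      (∀ v, z v = ∑ j ∈ T.ch v, (η j + κ * ∑ w ∈ T.blk j, q w * z w)) ∧
      ∑ j, (η j + κ * ∑ w ∈ T.blk j, q w * z w) ≤ (∑ j, η j) / (1 - θ) := by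
  have hpar : ∀ v : V, ∀ j ∈ T.ch v, ∀ w ∈ T.blk j, T.t (T.b w) = some v := by
    intro v j hj w hw
    simp only [Tr.ch, Tr.blk, mem_filter, mem_univ, true_and] at hj hw
    rw [hw, hj]
  obtain ⟨z, hz⟩ := exists_fix T
    (fun (v : V) (f : V → ℝ) => ∑ j ∈ T.ch v, (η j + κ * ∑ w ∈ T.blk j, q w * f w))
    (fun v f g hfg => by
      refine Finset.sum_congr rfl fun j hj => ?_
      congr 2
      exact Finset.sum_congr rfl fun w hw => by rw [hfg w (hpar v j hj w hw)])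
  have hz0 : ∀ v, 0 ≤ z v := by
    refine down T (fun v => 0 ≤ z v) fun v hv => ?_
    rw [hz v]
    refine Finset.sum_nonneg fun j hj => ?_
    have : 0 ≤ ∑ w ∈ T.blk j, q w * z w :=
      Finset.sum_nonneg fun w hw => mul_nonneg (q_pos T hx hd w).le (hv w (hpar v j hj w hw))
    have h1 := hη j
    positivity
  refine ⟨z, hz0, hz, ?_⟩
  set y : ι → ℝ := fun j => η j + κ * ∑ w ∈ T.blk j, q w * z w with hy
  have hy0 : ∀ j, 0 ≤ y j := fun j => by
    have : 0 ≤ ∑ w ∈ T.blk j, q w * z w :=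
      Finset.sum_nonneg fun w _ => mul_nonneg (q_pos T hx hd w).le (hz0 w)
    have h1 := hη j
    simp only [hy]
    positivity
  have h1 : ∑ j, y j = ∑ j, η j + κ * ∑ w, q w * z w := by
    simp only [hy]
    rw [Finset.sum_add_distrib, ← Finset.mul_sum, blk_sum T (fun w => q w * z w)]
  have h2 : ∑ w, q w * z w ≤ x / (1 + x) * ∑ w, z w := by
    rw [Finset.mul_sum]
    exact Finset.sum_le_sum fun w _ => mul_le_mul_of_nonneg_right (q_le T hx hd w) (hz0 w)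
  have h3 : ∑ w, z w ≤ ∑ j, y j := by
    calc ∑ w, z w = ∑ w, ∑ j ∈ T.ch w, y j := Finset.sum_congr rfl fun w _ => hz w
      _ ≤ ∑ j, y j := ch_sum T y hy0
  have hY0 : 0 ≤ ∑ j, y j := Finset.sum_nonneg fun j _ => hy0 j
  have hx1 : 0 ≤ x / (1 + x) := by positivity
  have h4 : κ * ∑ w, q w * z w ≤ θ * ∑ j, y j := by
    calc κ * ∑ w, q w * z w ≤ κ * (x / (1 + x) * ∑ j, y j) := by
          refine mul_le_mul_of_nonneg_left (h2.trans ?_) hκ
          exact mul_le_mul_of_nonneg_left h3 hx1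
      _ = κ * (x / (1 + x)) * ∑ j, y j := by ring
      _ ≤ θ * ∑ j, y j := mul_le_mul_of_nonneg_right hθ hY0
  show ∑ j, y j ≤ _
  rw [le_div_iff₀ (by linarith)]
  nlinarith

end Pool.Agent.AMS
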