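import Mathlib
import Pool.Agent.AMS.Defs
import Pool.Agent.AMS.Fix

/-!
# AMS: module Zprod — the partition function of a block forest (medium)

For weights `a : V → K` and `ω` with `ω v = a v * ∏_{i ∈ ch v} (1 + ∑_{blk i} ω)⁻¹` and all
`1 + ∑_{blk i} ω ≠ 0`:  `∑_{S independent} ∏_{v ∈ S} a v = ∏_i (1 + ∑_{w ∈ blk i} ω w)`.

Proof. Claim `P(A)` for a finset `A` of blocks: the formula
`∑_S ∏_{v ∈ S} a v = ∏_{i ∈ A} (1 + ∑_{blk i} ω)` holds for all `a, ω` as above with `a v = 0` whenever
`b v ∉ A` (then `ω v = 0` too). Induction on `A.card`. `A = ∅`: all weights vanish, only `S = ∅`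
contributes `1`. Step: choose `i ∈ A` with `dep i` maximal in `A`. For `w ∈ blk i` the child blocks of
`w` have larger depth, so they are not in `A`, and `ω w = a w`. Put `s = ∑_{blk i} a = ∑_{blk i} ω`,
`1 + s ≠ 0`. Define `a' v = 0` on `blk i`, `a' v = a v * (1 + s)⁻¹` if `t i = some v`, `a' v = a v`
otherwise; `ω' v = 0` on `blk i` and `ω' v = ω v` otherwise; `(a', ω')` satisfies the hypotheses for
`A.erase i` (block `i` now contributes the factor `1`). Peeling identity:
`∑_S ∏_S a = (1 + s) * ∑_S ∏_S a'`. Split the independent sets `S` by `S ∩ blk i`, which is empty or a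
single `{w}`; the sets `S` with `S ∩ blk i = {w}`, are `insert w S'` with `S' ∩ blk i = ∅`, `S'`
independent, the parent of `i` not in `S'`, and no vertex `u ∈ S'` with `t (b u) = some w` (such `u`
have `b u ∉ A`, so `a u = 0`: these sets contribute `0` on both sides). So
`∑_S ∏_S a = ∑_{S' ∩ blk i = ∅} ∏_{S'} a * (1 + [parent of i not in S'] * s)
 = (1 + s) ∑_{S' ∩ blk i = ∅} ∏_{S'} a * (if parent of i ∈ S' then (1 + s)⁻¹ else 1)`.
-/

open Finset

namespace Pool.Agent.AMS

variable {V ι : Type} [Fintype V] [DecidableEq V] [Fintype ι] [DecidableEq ι]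

theorem Zprod_peel {K : Type} [Field K] (T : Tr V ι) (A : Finset ι) (a : V → K) (i : ι)
    (hA : ∀ v, T.b v ∉ A → a v = 0) (himax : ∀ j ∈ A, T.dep j ≤ T.dep i)
    (s : K) (hs : s = ∑ w ∈ T.blk i, a w) (hne : 1 + s ≠ 0) (a' : V → K)
    (ha' : ∀ v, a' v = if T.b v = i then 0 else if T.t i = some v then a v * (1 + s)⁻¹ else a v) :
    ∑ S ∈ fam T.rel, ∏ v ∈ S, a v = (1 + s) * ∑ S ∈ fam T.rel, ∏ v ∈ S, a' v := by
  classical
  have hblk : ∀ v, v ∈ T.blk i ↔ T.b v = i := fun v => by simp [Tr.blk]
  set F0 : Finset (Finset V) := (fam T.rel).filter (fun S => ∀ v ∈ S, T.b v ≠ i) with hF0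
  -- independent sets contain at most one vertex of the block
  have hone : ∀ S ∈ fam T.rel, ∀ v ∈ S, T.b v = i → ∀ w ∈ S, T.b w = i → v = w := by
    intro S hS v hv hvi w hw hwi
    by_contra hvw
    exact mem_fam.1 hS v hv w hw hvw (Or.inl (hvi.trans hwi.symm))
  have hsplit : ∀ S ∈ fam T.rel, ∏ v ∈ S, a v =
      (if ∀ v ∈ S, T.b v ≠ i then ∏ v ∈ S, a v else 0) +
        ∑ w ∈ T.blk i, (if w ∈ S then ∏ v ∈ S, a v else 0) := by
    intro S hS
    by_cases h : ∀ v ∈ S, T.b v ≠ i
    · rw [if_pos h, Finset.sum_eq_zero, add_zero]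
      intro w hw
      rw [if_neg]
      intro hwS
      exact h w hwS ((hblk w).1 hw)
    · rw [if_neg h, zero_add]
      push Not at h
      obtain ⟨v, hv, hvi⟩ := h
      rw [Finset.sum_eq_single_of_mem v ((hblk v).2 hvi), if_pos hv]
      intro w hw hwv
      rw [if_neg]
      intro hwS
      exact hwv (hone S hS w hwS ((hblk w).1 hw) v hv hvi)
  have hbij : ∀ w ∈ T.blk i, ∑ S ∈ fam T.rel, (if w ∈ S then ∏ v ∈ S, a v else 0) =
      ∑ S ∈ F0, (if insert w S ∈ fam T.rel then a w * ∏ v ∈ S, a v else 0) := by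
    intro w hw
    have hwi := (hblk w).1 hw
    rw [← Finset.sum_filter, ← Finset.sum_filter]
    refine Finset.sum_bij' (fun S _ => S.erase w) (fun S _ => insert w S) ?_ ?_ ?_ ?_ ?_
    · intro S hS
      rw [mem_filter] at hS
      rw [mem_filter, hF0, mem_filter, insert_erase hS.2]
      refine ⟨⟨mem_fam.2 fun u hu v hv huv => mem_fam.1 hS.1 u (mem_of_mem_erase hu) v
        (mem_of_mem_erase hv) huv, fun v hv hvi => ?_⟩, hS.1⟩
      exact (mem_erase.1 hv).1 (hone S hS.1 v (mem_of_mem_erase hv) hvi w hS.2 hwi)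
    · intro S hS
      rw [mem_filter] at hS
      rw [mem_filter]
      exact ⟨hS.2, mem_insert_self _ _⟩
    · intro S hS
      rw [mem_filter] at hS
      exact insert_erase hS.2
    · intro S hS
      rw [mem_filter, hF0, mem_filter] at hS
      exact erase_insert (fun h => hS.1.2 w h hwi)
    · intro S hS
      rw [mem_filter] at hS
      exact (Finset.mul_prod_erase S a hS.2).symm
  have hL : ∑ S ∈ fam T.rel, ∏ v ∈ S, a v = ∑ S ∈ F0, (∏ v ∈ S, a v +
      ∑ w ∈ T.blk i, (if insert w S ∈ fam T.rel then a w * ∏ v ∈ S, a v else 0)) := by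
    rw [Finset.sum_congr rfl hsplit, Finset.sum_add_distrib, Finset.sum_add_distrib,
      ← Finset.sum_filter]
    congr 1
    rw [Finset.sum_comm, Finset.sum_congr rfl hbij, Finset.sum_comm]
  have hR : ∑ S ∈ fam T.rel, ∏ v ∈ S, a' v = ∑ S ∈ F0, ∏ v ∈ S, a' v := by
    rw [hF0, Finset.sum_filter]
    refine Finset.sum_congr rfl fun S _ => ?_
    by_cases h : ∀ v ∈ S, T.b v ≠ i
    · rw [if_pos h]
    · rw [if_neg h]
      push Not at h
      obtain ⟨v, hv, hvi⟩ := h
      exact Finset.prod_eq_zero hv (by rw [ha', if_pos hvi])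
  rw [hL, hR, Finset.mul_sum]
  refine Finset.sum_congr rfl fun S hS => ?_
  rw [hF0, mem_filter] at hS
  obtain ⟨hSf, hSi⟩ := hS
  by_cases h0 : ∏ v ∈ S, a v = 0
  · obtain ⟨u, hu, hu0⟩ := Finset.prod_eq_zero_iff.1 h0
    have h1 : ∏ v ∈ S, a' v = 0 := by
      refine Finset.prod_eq_zero hu ?_
      rw [ha', if_neg (hSi u hu), hu0, zero_mul, ite_self]
    rw [h0, h1]
    simp
  · have hAu : ∀ u ∈ S, T.b u ∈ A := by
      intro u hu
      by_contra h
      exact h0 (Finset.prod_eq_zero hu (hA u h))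
    have hnt : ∀ u ∈ S, ∀ w ∈ T.blk i, T.t (T.b u) ≠ some w := by
      intro u hu w hw h
      have h1 := T.lt (T.b u) w h
      have h2 := himax (T.b u) (hAu u hu)
      rw [(hblk w).1 hw] at h1
      omega
    have hins : ∀ w ∈ T.blk i, (insert w S ∈ fam T.rel ↔ ∀ u ∈ S, T.t i ≠ some u) := by
      intro w hw
      have hwi := (hblk w).1 hw
      constructor
      · intro h u hu hti
        have huw : u ≠ w := fun h => hSi u hu (by rw [h, hwi])
        refine mem_fam.1 h u (mem_insert_of_mem hu) w (mem_insert_self _ _) huw ?_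
        right; left
        rw [hwi, hti]
      · intro h
        rw [mem_fam]
        have key : ∀ v ∈ S, ¬ T.rel w v := by
          intro v hv hr
          rcases hr with hr | hr | hr
          · exact hSi v hv (hr.symm.trans hwi)
          · exact hnt v hv w hw hr
          · rw [hwi] at hr
            exact h v hv hr
        have key' : ∀ v ∈ S, ¬ T.rel v w := by
          intro v hv hr
          rcases hr with hr | hr | hr
          · exact key v hv (Or.inl hr.symm)
          · exact key v hv (Or.inr (Or.inr hr))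
          · exact key v hv (Or.inr (Or.inl hr))
        intro u hu v hv huv
        rw [mem_insert] at hu hv
        rcases hu with rfl | hu
        · rcases hv with rfl | hv
          · exact absurd rfl huv
          · exact key v hv
        · rcases hv with rfl | hv
          · exact key' u hu
          · exact mem_fam.1 hSf u hu v hv huv
    by_cases hp : ∀ u ∈ S, T.t i ≠ some u
    · have h1 : ∏ v ∈ S, a' v = ∏ v ∈ S, a v := by
        refine Finset.prod_congr rfl fun v hv => ?_
        rw [ha', if_neg (hSi v hv), if_neg (hp v hv)]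
      have h2 : ∑ w ∈ T.blk i, (if insert w S ∈ fam T.rel then a w * ∏ v ∈ S, a v else 0) =
          s * ∏ v ∈ S, a v := by
        rw [hs, Finset.sum_mul]
        refine Finset.sum_congr rfl fun w hw => ?_
        rw [if_pos ((hins w hw).2 hp)]
      rw [h1, h2]
      ring
    · have h2 : ∑ w ∈ T.blk i, (if insert w S ∈ fam T.rel then a w * ∏ v ∈ S, a v else 0) = 0 := by
        refine Finset.sum_eq_zero fun w hw => ?_
        rw [if_neg (fun h => hp ((hins w hw).1 h))]
      push Not at hp
      obtain ⟨u, hu, hti⟩ := hp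
      have h1 : ∏ v ∈ S, a' v = (1 + s)⁻¹ * ∏ v ∈ S, a v := by
        rw [← Finset.mul_prod_erase S a' hu, ← Finset.mul_prod_erase S a hu, ha' u,
          if_neg (hSi u hu), if_pos hti]
        have h3 : ∏ v ∈ S.erase u, a' v = ∏ v ∈ S.erase u, a v := by
          refine Finset.prod_congr rfl fun v hv => ?_
          rw [mem_erase] at hv
          rw [ha', if_neg (hSi v hv.2), if_neg]
          intro h
          rw [hti] at h
          exact hv.1 (Option.some.inj h).symm
        rw [h3]
        ring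
      rw [h1, h2, add_zero, ← mul_assoc, mul_inv_cancel₀ hne, one_mul]

theorem Zprod_aux {K : Type} [Field K] (T : Tr V ι) (n : ℕ) : ∀ (A : Finset ι), A.card = n →
    ∀ (a ω : V → K),
    (∀ v, ω v = a v * ∏ i ∈ T.ch v, (1 + ∑ w ∈ T.blk i, ω w)⁻¹) →
    (∀ i, 1 + ∑ w ∈ T.blk i, ω w ≠ 0) → (∀ v, T.b v ∉ A → a v = 0) →
    ∑ S ∈ fam T.rel, ∏ v ∈ S, a v = ∏ i, (1 + ∑ w ∈ T.blk i, ω w) := by
  classical
  induction n with
  | zero =>
    intro A hAc a ω hω _ hA
    have hA0 : A = ∅ := Finset.card_eq_zero.1 hAc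
    have ha : ∀ v, a v = 0 := fun v => hA v (by rw [hA0]; exact notMem_empty _)
    have hw : ∀ v, ω v = 0 := fun v => by rw [hω, ha, zero_mul]
    have h1 : ∏ i, (1 + ∑ w ∈ T.blk i, ω w) = 1 := by
      refine Finset.prod_eq_one fun i _ => ?_
      rw [Finset.sum_eq_zero (fun w _ => hw w), add_zero]
    rw [h1]
    have h2 : (∅ : Finset V) ∈ fam T.rel := mem_fam.2 (fun u hu => absurd hu (notMem_empty _))
    rw [Finset.sum_eq_single_of_mem ∅ h2, Finset.prod_empty]
    intro S _ hS
    obtain ⟨v, hv⟩ := Finset.nonempty_iff_ne_empty.2 hS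
    exact Finset.prod_eq_zero hv (ha v)
  | succ n ih =>
    intro A hAc a ω hω hne hA
    have hAne : A.Nonempty := by
      rw [← Finset.card_pos]
      omega
    obtain ⟨i, hi, himax⟩ := Finset.exists_max_image A T.dep hAne
    have hblk : ∀ j v, v ∈ T.blk j ↔ T.b v = j := fun j v => by simp [Tr.blk]
    have hzero : ∀ v, T.b v ∉ A → ω v = 0 := fun v hv => by rw [hω, hA v hv, zero_mul]
    have hωa : ∀ w ∈ T.blk i, ω w = a w := by
      intro w hw
      rw [hω w, Finset.prod_eq_one, mul_one]
      intro j hj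
      have hj' : T.t j = some w := by simpa [Tr.ch] using hj
      have hlt := T.lt j w hj'
      rw [(hblk i w).1 hw] at hlt
      have hjA : j ∉ A := fun h => by
        have := himax j h
        omega
      rw [Finset.sum_eq_zero, add_zero, inv_one]
      intro u hu
      refine hzero u ?_
      rw [(hblk j u).1 hu]
      exact hjA
    have hsw : ∑ w ∈ T.blk i, ω w = ∑ w ∈ T.blk i, a w := Finset.sum_congr rfl hωa
    set s : K := ∑ w ∈ T.blk i, a w with hs
    have hne1 : 1 + s ≠ 0 := by
      rw [← hsw]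
      exact hne i
    set a' : V → K := fun v => if T.b v = i then 0 else
      if T.t i = some v then a v * (1 + s)⁻¹ else a v with ha'
    set ω' : V → K := fun v => if T.b v = i then 0 else ω v with hω'
    have hsame : ∀ j, j ≠ i → ∑ w ∈ T.blk j, ω' w = ∑ w ∈ T.blk j, ω w := by
      intro j hj
      refine Finset.sum_congr rfl fun w hw => ?_
      rw [hω']
      show (if T.b w = i then 0 else ω w) = ω w
      rw [if_neg]
      rw [(hblk j w).1 hw]
      exact hj
    have hselfi : ∑ w ∈ T.blk i, ω' w = 0 := by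
      refine Finset.sum_eq_zero fun w hw => ?_
      show (if T.b w = i then 0 else ω w) = 0
      rw [if_pos ((hblk i w).1 hw)]
    have h1 := Zprod_peel T A a i hA himax s hs hne1 a' (fun v => rfl)
    have h2 := ih (A.erase i) (by rw [Finset.card_erase_of_mem hi, hAc]; rfl) a' ω' ?_ ?_ ?_
    · rw [h1, h2, ← Finset.mul_prod_erase univ _ (mem_univ i),
        ← Finset.mul_prod_erase univ (fun i => (1 + ∑ w ∈ T.blk i, ω w)) (mem_univ i), hselfi, hsw,
        add_zero, one_mul]
      congr 1
      refine Finset.prod_congr rfl fun j hj => ?_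
      rw [hsame j (mem_erase.1 hj).1]
    · intro v
      show (if T.b v = i then 0 else ω v) = (if T.b v = i then 0 else
        if T.t i = some v then a v * (1 + s)⁻¹ else a v) *
          ∏ j ∈ T.ch v, (1 + ∑ w ∈ T.blk j, ω' w)⁻¹
      by_cases hv : T.b v = i
      · rw [if_pos hv, if_pos hv, zero_mul]
      · rw [if_neg hv, if_neg hv]
        by_cases hv2 : T.t i = some v
        · rw [if_pos hv2, hω v]
          have hich : i ∈ T.ch v := by simp [Tr.ch, hv2]
          rw [← Finset.mul_prod_erase (T.ch v) _ hich,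
            ← Finset.mul_prod_erase (T.ch v) (fun j => (1 + ∑ w ∈ T.blk j, ω' w)⁻¹) hich, hselfi, hsw,
            add_zero, inv_one, one_mul, mul_assoc]
          congr 2
          refine Finset.prod_congr rfl fun j hj => ?_
          rw [hsame j (mem_erase.1 hj).1]
        · rw [if_neg hv2, hω v]
          congr 1
          refine Finset.prod_congr rfl fun j hj => ?_
          rw [hsame j]
          rintro rfl
          exact hv2 (by simpa [Tr.ch] using hj)
    · intro j
      by_cases hj : j = i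
      · rw [hj, hselfi, add_zero]
        exact one_ne_zero
      · rw [hsame j hj]
        exact hne j
    · intro v hv
      show (if T.b v = i then 0 else if T.t i = some v then a v * (1 + s)⁻¹ else a v) = 0
      by_cases hvi : T.b v = i
      · rw [if_pos hvi]
      · have hvA : T.b v ∉ A := fun h => hv (mem_erase.2 ⟨hvi, h⟩)
        rw [if_neg hvi, hA v hvA, zero_mul, ite_self]

theorem Zprod {K : Type} [Field K] (T : Tr V ι) (a ω : V → K)
    (hω : ∀ v, ω v = a v * ∏ i ∈ T.ch v, (1 + ∑ w ∈ T.blk i, ω w)⁻¹)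
    (hne : ∀ i, 1 + ∑ w ∈ T.blk i, ω w ≠ 0) :
    ∑ S ∈ fam T.rel, ∏ v ∈ S, a v = ∏ i, (1 + ∑ w ∈ T.blk i, ω w) :=
  Zprod_aux T _ univ rfl a ω hω hne (fun v hv => absurd (mem_univ _) hv)

/-- the hard-core partition function -/
theorem Zx_eq (T : Tr V ι) (x : ℝ) (o q : V → ℝ) (hd : T.Dat x o q) :
    Zx T.rel x = ∏ i, (1 + ∑ w ∈ T.blk i, o w) := by
  rw [← Zprod T (fun _ => x) o hd.req]
  · unfold Zx
    refine Finset.sum_congr rfl fun S _ => ?_
    rw [Finset.prod_const]
  · intro i
    have h : 0 ≤ ∑ w ∈ T.blk i, o w := Finset.sum_nonneg fun w _ => (hd.pos w).le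
    positivity

end Pool.Agent.AMS
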