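import Mathlib
import Pool.Agent.AMS.Defs
import Pool.Agent.AMS.Fix
import Pool.Agent.AMS.Bas
import Pool.Agent.AMS.Zprod
import Pool.Agent.AMS.PertL
import Pool.Agent.AMS.PertZ

/-!
# AMS: module PertA — propagation of the one-step errors (hard, but all algebra is below)

Setting: `p = X/(1+X)`, `β_i = exp(φ²/2 bv_i)`, `m_i = bm_i`, `1 + O_i = 1 + ∑_{blk i} o`,
`a v = x exp(iφ c v - φ²/2 G v) ∈ ℂ`, `ω` the solution of
`ω v = a v ∏_{i ∈ ch v} (1 + ∑_{blk i} ω)⁻¹` (`exists_fix`), and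
`g_i = β_i e^{-iφ m_i} (1 + ∑_{blk i} ω) / (1 + O_i)`.

(1) `ω w = o w e^{iφ D w} ∏_{j ∈ ch w} (g_j)⁻¹`: insert
`(1 + ∑_{blk j} ω)⁻¹ = g_j⁻¹ (1 + O_j)⁻¹ β_j e^{-iφ m_j}` and use `o w = x ∏ (1 + O_j)⁻¹`,
`G w = ∑_{ch w} bv_j`, `D w = c w - ∑_{ch w} bm_j` (no nonvanishing needed: `(abc)⁻¹ = a⁻¹b⁻¹c⁻¹`).

(2) With `δ_w = ∏_{j ∈ ch w} g_j⁻¹ - 1`: `g_i = β_i e^{-iφ m_i} (1 + ∑_{blk i} q w (e^{iφ D w}(1 + δ_w) - 1))`,
since `(1 + ∑ ω)/(1 + O) = 1 + ∑ q w (ω w / o w - 1)`. So `‖g_i - 1‖ ≤ η_i + β_i ∑_{blk i} q w ‖δ_w‖`.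

(3) Choose `δ > 0` small (depending on `X`) with: `β_i ≤ e^δ ≤ 1 + δ₁`, `κ = (1 + δ₁)²`,
`κ p ≤ (1 + p)/2`, and: if `‖g_j - 1‖ ≤ y_j`, `z = ∑ y_j ≤ 2(1+X) δ` then
`‖∏ g_j⁻¹ - 1‖ ≤ (1 + δ₁) z` (`PertL.inv_prod_close`).

(4) (`PertZ.majorant` with `θ = (1+p)/2`.) Let `z : V → ℝ` solve `z v = ∑_{j ∈ ch v} (η_j + κ ∑_{w ∈ blk j} q w z w)` (`exists_fix`) and
`y_j = η_j + κ ∑_{w ∈ blk j} q w z w`, so `z v = ∑_{ch v} y_j`. Then
`∑_j y_j = ∑ η + κ ∑_w q w z w ≤ ∑ η + κ p ∑_w z w ≤ ∑ η + κ p ∑_j y_j`, so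
`∑ y ≤ 2 (1 + X) ∑ η ≤ 2(1+X) δ` (as `1 - (1+p)/2 = 1/(2(1+X))`), all `y, z ≥ 0`.

(5) By induction from the leaves (`down` on the statement: for all `w`, for all `j ∈ ch w`,
`‖g_j - 1‖ ≤ y_j`; then all blocks, also those without parent): `‖g_i - 1‖ ≤ y_i` for all `i`. Indeed
`‖δ_w‖ ≤ (1 + δ₁) z w` for `w ∈ blk i` by (3), and (2).

(6) `Zprod` (real: `Zx_eq`, complex with weights `a`; `1 + ∑ ω ≠ 0` as `g_i ≠ 0`):
`∑_S ∏_{v∈S} a v / Zx = ∏_i g_i β_i⁻¹ e^{iφ m_i}`, hence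
`ExC (exp(iφ(∑_{v∈S} c v - μ) + φ²/2 cv S)) = ∏_i g_i` (`∑_i bm_i = μ` by `blk_sum`), and
`‖∏ g_i - 1‖ ≤ 2 ∑ y ≤ 4 (1 + X) ∑ η` (`PertL.prod_close`; `δ ≤ 1/(2(1+X))`).
-/

open Finset

namespace Pool.Agent.AMS

/-- the error factor of a block -/
private noncomputable def PertA_g {V ι : Type} [Fintype V] [DecidableEq V] [Fintype ι]
    [DecidableEq ι] (T : Tr V ι) (φ : ℝ) (o q D : V → ℝ) (ω : V → ℂ) (i : ι) : ℂ :=
  Complex.exp ((φ ^ 2 / 2 * T.bv q D i : ℝ) : ℂ) *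
    Complex.exp (-(Complex.I * φ * ((T.bm q D i : ℝ) : ℂ))) *
    (1 + ∑ w ∈ T.blk i, ω w) / (1 + ((∑ w ∈ T.blk i, o w : ℝ) : ℂ))

private lemma PertA_consts (X : ℝ) (hX : 0 < X) : ∃ δ₁ : ℝ, 0 < δ₁ ∧
    (1 + δ₁) ^ 2 * (X / (1 + X)) ≤ (1 + X / (1 + X)) / 2 := by
  set p : ℝ := X / (1 + X) with hp
  have hp0 : 0 < p := by positivity
  have hp1 : p < 1 := by
    rw [hp, div_lt_one (by linarith)]
    linarith
  refine ⟨min 1 ((1 - p) / 6), by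
    apply lt_min one_pos
    linarith, ?_⟩
  set d : ℝ := min 1 ((1 - p) / 6) with hd
  have h0 : 0 < d := by
    apply lt_min one_pos
    linarith
  have h1 : d ≤ 1 := min_le_left _ _
  have h2 : d ≤ (1 - p) / 6 := min_le_right _ _
  have h3 : (1 + d) ^ 2 ≤ 1 + 3 * d := by nlinarith
  have h4 : (1 + d) ^ 2 * p ≤ (1 + 3 * d) * p := mul_le_mul_of_nonneg_right h3 hp0.le
  nlinarith

private lemma PertA_mem_ch {V ι : Type} [Fintype V] [DecidableEq V] [Fintype ι]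
    [DecidableEq ι] (T : Tr V ι) {v : V} {i : ι} : i ∈ T.ch v ↔ T.t i = some v := by
  simp [Tr.ch]

private lemma PertA_mem_blk {V ι : Type} [Fintype V] [DecidableEq V] [Fintype ι]
    [DecidableEq ι] (T : Tr V ι) {v : V} {i : ι} : v ∈ T.blk i ↔ T.b v = i := by
  simp [Tr.blk]

private lemma PertA_O_pos {V ι : Type} [Fintype V] [DecidableEq V] [Fintype ι]
    [DecidableEq ι] (T : Tr V ι) {x : ℝ} {o q : V → ℝ} (hd : T.Dat x o q) (i : ι) :
    0 < 1 + ∑ w ∈ T.blk i, o w := by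
  have : 0 ≤ ∑ w ∈ T.blk i, o w := Finset.sum_nonneg (fun w _ => (hd.pos w).le)
  linarith

private lemma PertA_O_ne {V ι : Type} [Fintype V] [DecidableEq V] [Fintype ι]
    [DecidableEq ι] (T : Tr V ι) {x : ℝ} {o q : V → ℝ} (hd : T.Dat x o q) (i : ι) :
    (1 : ℂ) + ((∑ w ∈ T.blk i, o w : ℝ) : ℂ) ≠ 0 := by
  have h := PertA_O_pos T hd i
  have h2 : ((1 + ∑ w ∈ T.blk i, o w : ℝ) : ℂ) ≠ 0 := by
    exact_mod_cast h.ne'
  rwa [Complex.ofReal_add, Complex.ofReal_one] at h2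

/-- step (1) -/
private lemma PertA_one {V ι : Type} [Fintype V] [DecidableEq V] [Fintype ι]
    [DecidableEq ι] (T : Tr V ι) (x φ : ℝ) (o q c D : V → ℝ) (hd : T.Dat x o q)
    (hI : T.Infl q c D) (a ω : V → ℂ)
    (ha : ∀ v, a v = x * (Complex.exp (Complex.I * φ * (c v : ℂ)) *
      Complex.exp (-((φ ^ 2 / 2 * T.G q D v : ℝ) : ℂ))))
    (hω : ∀ v, ω v = a v * ∏ i ∈ T.ch v, (1 + ∑ w ∈ T.blk i, ω w)⁻¹) (w : V) :
    ω w = o w * Complex.exp (Complex.I * φ * (D w : ℂ)) *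
      ∏ j ∈ T.ch w, (PertA_g T φ o q D ω j)⁻¹ := by
  have key : ∀ j, (1 + ∑ w ∈ T.blk j, ω w)⁻¹ = (PertA_g T φ o q D ω j)⁻¹ *
      ((1 : ℂ) + ((∑ w ∈ T.blk j, o w : ℝ) : ℂ))⁻¹ *
      Complex.exp ((φ ^ 2 / 2 * T.bv q D j : ℝ) : ℂ) *
      Complex.exp (-(Complex.I * φ * ((T.bm q D j : ℝ) : ℂ))) := by
    intro j
    have hO := PertA_O_ne T hd j
    unfold PertA_g
    have h1 := Complex.exp_ne_zero ((φ ^ 2 / 2 * T.bv q D j : ℝ) : ℂ)
    have h2 := Complex.exp_ne_zero (-(Complex.I * φ * ((T.bm q D j : ℝ) : ℂ)))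
    generalize Complex.exp ((φ ^ 2 / 2 * T.bv q D j : ℝ) : ℂ) = E1 at *
    generalize Complex.exp (-(Complex.I * φ * ((T.bm q D j : ℝ) : ℂ))) = E2 at *
    generalize (1 : ℂ) + ((∑ w ∈ T.blk j, o w : ℝ) : ℂ) = O at *
    generalize (1 + ∑ w ∈ T.blk j, ω w) = W
    rw [inv_div]
    by_cases hW : W = 0
    · simp [hW]
    · field_simp
  rw [hω w, Finset.prod_congr rfl (fun j _ => key j)]
  rw [Finset.prod_mul_distrib, Finset.prod_mul_distrib, Finset.prod_mul_distrib]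
  rw [← Complex.exp_sum, ← Complex.exp_sum, ha w]
  have ho : (o w : ℂ) = x * ∏ j ∈ T.ch w, ((1 : ℂ) + ((∑ w ∈ T.blk j, o w : ℝ) : ℂ))⁻¹ := by
    rw [hd.req w]
    push_cast
    rfl
  rw [ho]
  have hE : Complex.exp (Complex.I * φ * (c w : ℂ)) *
      Complex.exp (-((φ ^ 2 / 2 * T.G q D w : ℝ) : ℂ)) *
      (Complex.exp (∑ j ∈ T.ch w, ((φ ^ 2 / 2 * T.bv q D j : ℝ) : ℂ)) *
       Complex.exp (∑ j ∈ T.ch w, -(Complex.I * φ * ((T.bm q D j : ℝ) : ℂ)))) =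
      Complex.exp (Complex.I * φ * (D w : ℂ)) := by
    rw [← Complex.exp_add, ← Complex.exp_add, ← Complex.exp_add]
    congr 1
    have hD : (D w : ℂ) = (c w : ℂ) - ∑ j ∈ T.ch w, ((T.bm q D j : ℝ) : ℂ) := by
      rw [hI w]
      push_cast [Tr.chs, Tr.bm]
      rfl
    rw [hD, Finset.sum_neg_distrib, ← Finset.mul_sum]
    have hG : ∑ j ∈ T.ch w, ((φ ^ 2 / 2 * T.bv q D j : ℝ) : ℂ) =
        ((φ ^ 2 / 2 * T.G q D w : ℝ) : ℂ) := by
      rw [Tr.G, Finset.mul_sum]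
      push_cast
      rfl
    rw [hG]
    ring
  rw [← hE]
  ring

/-- step (2) -/
private lemma PertA_two {V ι : Type} [Fintype V] [DecidableEq V] [Fintype ι]
    [DecidableEq ι] (T : Tr V ι) (x φ : ℝ) (o q D : V → ℝ) (hd : T.Dat x o q)
    (ω : V → ℂ) (dl : V → ℂ)
    (h1 : ∀ w, ω w = o w * Complex.exp (Complex.I * φ * (D w : ℂ)) * (1 + dl w)) (i : ι) :
    PertA_g T φ o q D ω i = Complex.exp ((φ ^ 2 / 2 * T.bv q D i : ℝ) : ℂ) *
        Complex.exp (-(Complex.I * φ * ((T.bm q D i : ℝ) : ℂ))) *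
        (1 + ∑ w ∈ T.blk i, (q w : ℂ) * (Complex.exp (Complex.I * φ * D w) - 1)) +
      Complex.exp ((φ ^ 2 / 2 * T.bv q D i : ℝ) : ℂ) *
        Complex.exp (-(Complex.I * φ * ((T.bm q D i : ℝ) : ℂ))) *
        ∑ w ∈ T.blk i, (q w : ℂ) * (Complex.exp (Complex.I * φ * D w) * dl w) := by
  have hO := PertA_O_ne T hd i
  unfold PertA_g
  rw [mul_div_assoc, ← mul_add]
  congr 1
  rw [div_eq_iff hO, add_assoc, ← Finset.sum_add_distrib]
  have hq : ∀ w ∈ T.blk i, (o w : ℂ) = (q w : ℂ) *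
      ((1 : ℂ) + ((∑ w ∈ T.blk i, o w : ℝ) : ℂ)) := by
    intro w hw
    have hb : T.b w = i := (PertA_mem_blk T).1 hw
    have h2 := hd.q_eq w
    rw [hb] at h2
    have h3 := PertA_O_pos T hd i
    have h4 : o w = q w * (1 + ∑ w ∈ T.blk i, o w) := by
      rw [h2]
      field_simp
    have h5 : ((q w * (1 + ∑ w ∈ T.blk i, o w) : ℝ) : ℂ) = (q w : ℂ) *
      ((1 : ℂ) + ((∑ w ∈ T.blk i, o w : ℝ) : ℂ)) := by
      push_cast
      rfl
    rw [← h5, ← h4]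
  have h6 : ∑ w ∈ T.blk i, ω w = ∑ w ∈ T.blk i, ((o w : ℂ) +
      ((q w : ℂ) * (Complex.exp (Complex.I * φ * D w) - 1) +
        (q w : ℂ) * (Complex.exp (Complex.I * φ * D w) * dl w)) *
      ((1 : ℂ) + ((∑ w ∈ T.blk i, o w : ℝ) : ℂ))) := by
    apply Finset.sum_congr rfl
    intro w hw
    rw [h1 w]
    have h7 := hq w hw
    calc (o w : ℂ) * Complex.exp (Complex.I * φ * (D w : ℂ)) * (1 + dl w)
        = (o w : ℂ) + (o w : ℂ) * (Complex.exp (Complex.I * φ * (D w : ℂ)) * (1 + dl w) - 1) := by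
          ring
      _ = (o w : ℂ) + ((q w : ℂ) * ((1 : ℂ) + ((∑ w ∈ T.blk i, o w : ℝ) : ℂ))) *
          (Complex.exp (Complex.I * φ * (D w : ℂ)) * (1 + dl w) - 1) := by
          rw [← h7]
      _ = _ := by ring
  rw [h6, Finset.sum_add_distrib, ← Finset.sum_mul]
  push_cast
  ring

theorem pertA (X : ℝ) (hX : 0 < X) : ∃ δ : ℝ, 0 < δ ∧
    ∀ (V ι : Type) [Fintype V] [DecidableEq V] [Fintype ι] [DecidableEq ι] (T : Tr V ι) (x φ : ℝ)
      (o q c D : V → ℝ) (η : ι → ℝ), 0 < x → x ≤ X → T.Dat x o q → T.Infl q c D →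
      (∀ i, φ ^ 2 / 2 * T.bv q D i ≤ δ) →
      (∀ i, ‖Complex.exp ((φ ^ 2 / 2 * T.bv q D i : ℝ) : ℂ) *
        Complex.exp (-(Complex.I * φ * ((T.bm q D i : ℝ) : ℂ))) *
        (1 + ∑ w ∈ T.blk i, (q w : ℂ) * (Complex.exp (Complex.I * φ * D w) - 1)) - 1‖ ≤ η i) →
      ∑ i, η i ≤ δ →
      ‖ExC T.rel x (fun S => Complex.exp (Complex.I * φ *
        ((∑ v ∈ S, c v - Tr.mu q D : ℝ) : ℂ) + ((φ ^ 2 / 2 * T.cv q D S : ℝ) : ℂ))) - 1‖ ≤
        4 * (1 + X) * ∑ i, η i := by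
  obtain ⟨δ₁, hδ₁, hκp⟩ := PertA_consts X hX
  obtain ⟨η₀, hη₀, hinv⟩ := inv_prod_close δ₁ hδ₁
  have hX1 : 0 < 1 + X := by linarith
  set δ : ℝ := min (Real.log (1 + δ₁)) (min (η₀ / (2 * (1 + X))) (1 / (4 * (1 + X)))) with hδ
  have hδ0 : 0 < δ := by
    apply lt_min (Real.log_pos (by linarith))
    apply lt_min <;> positivity
  have hδ1 : Real.exp δ ≤ 1 + δ₁ := by
    have : δ ≤ Real.log (1 + δ₁) := min_le_left _ _
    calc Real.exp δ ≤ Real.exp (Real.log (1 + δ₁)) := Real.exp_le_exp.2 this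
      _ = 1 + δ₁ := Real.exp_log (by linarith)
  have hδ2 : 2 * (1 + X) * δ ≤ η₀ := by
    have : δ ≤ η₀ / (2 * (1 + X)) := (min_le_right _ _).trans (min_le_left _ _)
    rw [le_div_iff₀ (by positivity)] at this
    linarith
  have hδ3 : 2 * (1 + X) * δ ≤ 1 / 2 := by
    have : δ ≤ 1 / (4 * (1 + X)) := (min_le_right _ _).trans (min_le_right _ _)
    rw [le_div_iff₀ (by positivity)] at this
    linarith
  refine ⟨δ, hδ0, ?_⟩
  intro V ι _ _ _ _ T x φ o q c D η hx hxX hd hI hbv hη hsum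
  have hη0 : ∀ i, 0 ≤ η i := fun i => (norm_nonneg _).trans (hη i)
  have hq0 : ∀ v, 0 < q v := fun v => q_pos T hx hd v
  set p : ℝ := X / (1 + X) with hp
  have hp1 : 1 - (1 + p) / 2 = 1 / (2 * (1 + X)) := by
    rw [hp]
    field_simp
    ring
  have hxp : x / (1 + x) ≤ p := by
    rw [hp, div_le_div_iff₀ (by linarith) (by linarith)]
    nlinarith
  obtain ⟨z, hz0, hz, hzs⟩ := majorant T hx hd η hη0 ((1 + δ₁) ^ 2) ((1 + p) / 2) (by positivity)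
    ((mul_le_mul_of_nonneg_left hxp (by positivity)).trans hκp) (by
      have : 0 < 1 / (2 * (1 + X)) := by positivity
      linarith)
  rw [hp1] at hzs
  set y : ι → ℝ := fun j => η j + (1 + δ₁) ^ 2 * ∑ w ∈ T.blk j, q w * z w with hy
  have hy0 : ∀ j, 0 ≤ y j := by
    intro j
    have : 0 ≤ ∑ w ∈ T.blk j, q w * z w :=
      Finset.sum_nonneg (fun w _ => mul_nonneg (hq0 w).le (hz0 w))
    have h2 := hη0 j
    simp only [hy]
    positivity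
  have hys : ∑ j, y j ≤ 2 * (1 + X) * ∑ j, η j := by
    have h1 : ∑ j, y j ≤ (∑ j, η j) / (1 / (2 * (1 + X))) := hzs
    have h2 : (∑ j, η j) / (1 / (2 * (1 + X))) = 2 * (1 + X) * ∑ j, η j := by
      field_simp
    linarith
  have hysδ : ∑ j, y j ≤ 2 * (1 + X) * δ :=
    hys.trans (mul_le_mul_of_nonneg_left hsum (by positivity))
  have hzy : ∀ v, z v = ∑ j ∈ T.ch v, y j := hz
  have hychs : ∀ s : Finset ι, ∑ j ∈ s, y j ≤ ∑ j, y j := fun s =>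
    Finset.sum_le_sum_of_subset_of_nonneg (Finset.subset_univ _) (fun j _ _ => hy0 j)
  -- the weights
  set a : V → ℂ := fun v => x * (Complex.exp (Complex.I * φ * (c v : ℂ)) *
      Complex.exp (-((φ ^ 2 / 2 * T.G q D v : ℝ) : ℂ))) with ha
  obtain ⟨ω, hω⟩ := exists_fix T
    (fun v (f : V → ℂ) => a v * ∏ i ∈ T.ch v, (1 + ∑ w ∈ T.blk i, f w)⁻¹) (by
      intro v f g hfg
      show a v * ∏ i ∈ T.ch v, (1 + ∑ w ∈ T.blk i, f w)⁻¹ =
        a v * ∏ i ∈ T.ch v, (1 + ∑ w ∈ T.blk i, g w)⁻¹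
      congr 1
      apply Finset.prod_congr rfl
      intro i hi
      congr 2
      apply Finset.sum_congr rfl
      intro w hw
      apply hfg
      rw [(PertA_mem_blk T).1 hw]
      exact (PertA_mem_ch T).1 hi)
  have h1 := PertA_one T x φ o q c D hd hI a ω (fun v => rfl) hω
  set g : ι → ℂ := PertA_g T φ o q D ω with hg
  set dl : V → ℂ := fun w => ∏ j ∈ T.ch w, (g j)⁻¹ - 1 with hdl
  have h1' : ∀ w, ω w = o w * Complex.exp (Complex.I * φ * (D w : ℂ)) * (1 + dl w) := by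
    intro w
    rw [h1 w]
    simp only [hdl]
    congr 1
    ring
  have h2 := PertA_two T x φ o q D hd ω dl h1'
  have hnI : ∀ r : ℝ, ‖Complex.exp (Complex.I * φ * (r : ℂ))‖ = 1 := by
    intro r
    have : Complex.I * φ * (r : ℂ) = ((φ * r : ℝ) : ℂ) * Complex.I := by
      push_cast
      ring
    rw [this, Complex.norm_exp_ofReal_mul_I]
  have hnI' : ∀ r : ℝ, ‖Complex.exp (-(Complex.I * φ * (r : ℂ)))‖ = 1 := by
    intro r
    have : -(Complex.I * φ * (r : ℂ)) = ((-(φ * r) : ℝ) : ℂ) * Complex.I := by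
      push_cast
      ring
    rw [this, Complex.norm_exp_ofReal_mul_I]
  have hnβ : ∀ i, ‖Complex.exp ((φ ^ 2 / 2 * T.bv q D i : ℝ) : ℂ)‖ ≤ 1 + δ₁ := by
    intro i
    rw [Complex.norm_exp, Complex.ofReal_re]
    exact (Real.exp_le_exp.2 (hbv i)).trans hδ1
  have h3 : ∀ i, ‖g i - 1‖ ≤ η i + (1 + δ₁) * ∑ w ∈ T.blk i, q w * ‖dl w‖ := by
    intro i
    have h2i : g i = _ := h2 i
    rw [h2i, add_sub_right_comm]
    refine (norm_add_le _ _).trans (add_le_add (hη i) ?_)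
    rw [norm_mul, norm_mul, hnI', mul_one]
    apply mul_le_mul (hnβ i) _ (norm_nonneg _) (by linarith)
    refine (norm_sum_le _ _).trans (Finset.sum_le_sum ?_)
    intro w _
    rw [norm_mul, norm_mul, hnI, one_mul, Complex.norm_real, Real.norm_eq_abs,
      abs_of_pos (hq0 w)]
  have hstep : ∀ i, (∀ w ∈ T.blk i, ∀ j ∈ T.ch w, ‖g j - 1‖ ≤ y j) → ‖g i - 1‖ ≤ y i := by
    intro i hi
    refine (h3 i).trans ?_
    simp only [hy]
    have h4 : ∑ w ∈ T.blk i, q w * ‖dl w‖ ≤ ∑ w ∈ T.blk i, q w * ((1 + δ₁) * z w) := by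
      apply Finset.sum_le_sum
      intro w hw
      apply mul_le_mul_of_nonneg_left _ (hq0 w).le
      rw [hzy w]
      exact hinv ι (T.ch w) g y (hi w hw) ((hychs _).trans (hysδ.trans hδ2))
    have h5 : ∑ w ∈ T.blk i, q w * ((1 + δ₁) * z w) =
        (1 + δ₁) * ∑ w ∈ T.blk i, q w * z w := by
      rw [Finset.mul_sum]
      apply Finset.sum_congr rfl
      intro w _
      ring
    rw [h5] at h4
    have h6 := mul_le_mul_of_nonneg_left h4 (by linarith : (0 : ℝ) ≤ 1 + δ₁)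
    calc η i + (1 + δ₁) * ∑ w ∈ T.blk i, q w * ‖dl w‖
        ≤ η i + (1 + δ₁) * ((1 + δ₁) * ∑ w ∈ T.blk i, q w * z w) := by linarith
      _ = _ := by ring
  have hdown : ∀ v, ∀ j ∈ T.ch v, ‖g j - 1‖ ≤ y j := by
    apply down T (fun v => ∀ j ∈ T.ch v, ‖g j - 1‖ ≤ y j)
    intro v ih j hj
    apply hstep
    intro w hw
    apply ih
    rw [(PertA_mem_blk T).1 hw]
    exact (PertA_mem_ch T).1 hj
  have hall : ∀ i, ‖g i - 1‖ ≤ y i := fun i => hstep i (fun w _ => hdown w)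
  have hg0 : ∀ i, g i ≠ 0 := by
    intro i h0
    have h4 := hall i
    rw [h0, zero_sub, norm_neg, norm_one] at h4
    have h5 : y i ≤ ∑ j, y j := Finset.single_le_sum (fun j _ => hy0 j) (Finset.mem_univ i)
    linarith
  have hne : ∀ i, 1 + ∑ w ∈ T.blk i, ω w ≠ 0 := by
    intro i h0
    apply hg0 i
    simp only [hg, PertA_g, h0, mul_zero, zero_div]
  have hZ := Zprod T a ω hω hne
  have hZx := Zx_eq T x o q hd
  have hEx : ExC T.rel x (fun S => Complex.exp (Complex.I * φ *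
        ((∑ v ∈ S, c v - Tr.mu q D : ℝ) : ℂ) + ((φ ^ 2 / 2 * T.cv q D S : ℝ) : ℂ))) =
      ∏ i, g i := by
    unfold ExC
    rw [hZx]
    set K : ℂ := Complex.exp (-(Complex.I * φ * ((Tr.mu q D : ℝ) : ℂ))) *
      Complex.exp ((φ ^ 2 / 2 * ∑ i, T.bv q D i : ℝ) : ℂ) with hK
    have hterm : ∀ S ∈ fam T.rel, ((x ^ S.card : ℝ) : ℂ) * Complex.exp (Complex.I * φ *
        ((∑ v ∈ S, c v - Tr.mu q D : ℝ) : ℂ) + ((φ ^ 2 / 2 * T.cv q D S : ℝ) : ℂ)) =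
        (∏ v ∈ S, a v) * K := by
      intro S _
      simp only [ha]
      rw [Finset.prod_mul_distrib, Finset.prod_mul_distrib, Finset.prod_const,
        ← Complex.exp_sum, ← Complex.exp_sum, hK]
      have e1 : ((x ^ S.card : ℝ) : ℂ) = (x : ℂ) ^ S.card := by push_cast; rfl
      have hexp : Complex.exp (Complex.I * φ *
          ((∑ v ∈ S, c v - Tr.mu q D : ℝ) : ℂ) + ((φ ^ 2 / 2 * T.cv q D S : ℝ) : ℂ)) =
          Complex.exp (∑ v ∈ S, Complex.I * φ * (c v : ℂ)) *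
            Complex.exp (∑ v ∈ S, -((φ ^ 2 / 2 * T.G q D v : ℝ) : ℂ)) *
            (Complex.exp (-(Complex.I * φ * ((Tr.mu q D : ℝ) : ℂ))) *
              Complex.exp ((φ ^ 2 / 2 * ∑ i, T.bv q D i : ℝ) : ℂ)) := by
        rw [← Complex.exp_add, ← Complex.exp_add, ← Complex.exp_add]
        congr 1
        rw [Finset.sum_neg_distrib, ← Finset.mul_sum]
        have e2 : ∑ v ∈ S, ((φ ^ 2 / 2 * T.G q D v : ℝ) : ℂ) =
            ((φ ^ 2 / 2 * ∑ v ∈ S, T.G q D v : ℝ) : ℂ) := by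
          rw [Finset.mul_sum]
          push_cast
          rfl
        rw [e2, Tr.cv]
        push_cast
        ring
      rw [e1, hexp]
      ring
    rw [Finset.sum_congr rfl hterm, ← Finset.sum_mul, hZ]
    have hK2 : K = ∏ i, (Complex.exp ((φ ^ 2 / 2 * T.bv q D i : ℝ) : ℂ) *
        Complex.exp (-(Complex.I * φ * ((T.bm q D i : ℝ) : ℂ)))) := by
      rw [Finset.prod_mul_distrib, ← Complex.exp_sum, ← Complex.exp_sum, hK, mul_comm]
      congr 2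
      · rw [Finset.mul_sum]
        push_cast
        rfl
      · rw [Finset.sum_neg_distrib, ← Finset.mul_sum]
        congr 2
        have e3 := blk_sum T (fun v => q v * D v)
        rw [Tr.mu, ← e3]
        push_cast [Tr.bm]
        rfl
    rw [hK2, Complex.ofReal_prod, ← Finset.prod_mul_distrib, ← Finset.prod_div_distrib]
    apply Finset.prod_congr rfl
    intro i _
    simp only [hg, PertA_g]
    push_cast
    ring
  rw [hEx]
  have h7 := prod_close ι Finset.univ g y (fun j _ => hall j) (by linarith)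
  refine h7.trans ?_
  linarith

end Pool.Agent.AMS
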