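import Mathlib
import Pool.Agent.AMS.Defs
import Pool.Agent.AMS.Fix
import Pool.Agent.AMS.Bas
import Pool.Agent.AMS.Loc1
import Pool.Agent.AMS.PertA

/-!
# AMS: module Pert — combination of Loc1 and PertA (easy)

`η_i = 60 |φ|³ ∑_{blk i} q |D|³` (`loc1` with `s = blk i`; needs `φ² b2_i ≤ 1`; `∑ q ≤ 1` by `q_blk`);
`∑_i η_i = 60 |φ|³ ∑ q|D|³` by `blk_sum`; `bv_i ≤ b2_i`.
-/

open Finset

namespace Pool.Agent.AMS

theorem pert (X : ℝ) (hX : 0 < X) : ∃ δ C : ℝ, 0 < δ ∧ 0 < C ∧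
    ∀ (V ι : Type) [Fintype V] [DecidableEq V] [Fintype ι] [DecidableEq ι] (T : Tr V ι) (x φ : ℝ)
      (o q c D : V → ℝ), 0 < x → x ≤ X → T.Dat x o q → T.Infl q c D →
      (∀ i, φ ^ 2 * T.b2 q D i ≤ δ) → |φ| ^ 3 * ∑ v, q v * |D v| ^ 3 ≤ δ →
      ‖ExC T.rel x (fun S => Complex.exp (Complex.I * φ *
        ((∑ v ∈ S, c v - Tr.mu q D : ℝ) : ℂ) + ((φ ^ 2 / 2 * T.cv q D S : ℝ) : ℂ))) - 1‖ ≤
        C * (|φ| ^ 3 * ∑ v, q v * |D v| ^ 3) := by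
  obtain ⟨δA, hδA, hA⟩ := pertA X hX
  refine ⟨min 1 (δA / 60), 4 * (1 + X) * 60, by positivity, by positivity, ?_⟩
  intro V ι _ _ _ _ T x φ o q c D hx hxX hd hI hb2 h3
  have hm1 : min 1 (δA / 60) ≤ 1 := min_le_left _ _
  have hm2 : min 1 (δA / 60) ≤ δA / 60 := min_le_right _ _
  have hsum : ∑ i, 60 * (|φ| ^ 3 * ∑ w ∈ T.blk i, q w * |D w| ^ 3) =
      60 * (|φ| ^ 3 * ∑ v, q v * |D v| ^ 3) := by
    rw [← Finset.mul_sum, ← Finset.mul_sum, blk_sum T (fun w => q w * |D w| ^ 3)]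
  have h := hA V ι T x φ o q c D (fun i => 60 * (|φ| ^ 3 * ∑ w ∈ T.blk i, q w * |D w| ^ 3))
    hx hxX hd hI
    (fun i => by
      have h1 := bv_le T q D i
      have h2 := hb2 i
      have h4 : φ ^ 2 * T.bv q D i ≤ φ ^ 2 * T.b2 q D i :=
        mul_le_mul_of_nonneg_left h1 (sq_nonneg φ)
      linarith)
    (fun i => loc1 (T.blk i) q D (fun w _ => (q_pos T hx hd w).le) (q_blk T hx hd i).le φ
      ((hb2 i).trans hm1))
    (by
      rw [hsum]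
      linarith)
  rw [hsum] at h
  refine h.trans (le_of_eq ?_)
  ring

end Pool.Agent.AMS
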