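import Mathlib
import Pool.Agent.AMS.Defs
import Pool.Agent.AMS.CntLink
import Pool.Agent.AMS.Fix
import Pool.Agent.AMS.Bas
import Pool.Agent.AMS.Pert

/-!
# AMS: module VarF — mean and variance of linear functionals (medium)

Fix `T, x, o, q, c, D`. Apply `pert` with `X = x` and `φ → 0+`: both hypotheses hold for `0 < φ ≤ φ₀`.
So `‖∑_S P(S) (exp(iφ M_S + φ²/2 V_S) - 1)‖ ≤ K φ³` for small `φ > 0`, where `M_S = ∑_{v∈S} c v - μ`,
`V_S = cv S`, `P(S) = x^|S| / Zx`. On the finite family,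
`exp(iφ M + φ² V/2) - 1 = iφ M + (φ²/2)(V - M²) + O(φ³)` uniformly in `S`. Hence
`|iφ E M + (φ²/2) (E V - E M²)| ≤ K' φ³` for small `φ > 0`; imaginary part: `E M = 0`; real part:
`E V = E M²`.

`var_le`: `cv S ≤ ∑ q D²` (`cv_le`).
-/

open Finset

namespace Pool.Agent.AMS

theorem VarF_zero (a K p0 : ℝ) (h0 : 0 < p0) (hK : 0 ≤ K)
    (h : ∀ p : ℝ, 0 < p → p ≤ p0 → |a| ≤ K * p) : a = 0 := by
  by_contra hne
  have ha : 0 < |a| := abs_pos.mpr hne
  have hK1 : 0 < 2 * (K + 1) := by linarith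
  have hp : 0 < min p0 (|a| / (2 * (K + 1))) := lt_min h0 (div_pos ha hK1)
  have h1 := h _ hp (min_le_left _ _)
  have h2 : K * min p0 (|a| / (2 * (K + 1))) ≤ K * (|a| / (2 * (K + 1))) :=
    mul_le_mul_of_nonneg_left (min_le_right _ _) hK
  have h3 : K * (|a| / (2 * (K + 1))) ≤ |a| / 2 := by
    rw [mul_div_assoc', div_le_div_iff₀ hK1 (by norm_num)]
    nlinarith
  linarith

/-- Taylor expansion with an explicit error. -/
theorem VarF_taylor (M W A p : ℝ) (hA : |M| + |W| ≤ A) (hp : 0 < p) (hp1 : p ≤ 1) :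
    ‖Complex.exp (Complex.I * p * (M : ℂ) + ((p ^ 2 / 2 * W : ℝ) : ℂ)) - 1 -
      (Complex.I * p * (M : ℂ) + ((p ^ 2 / 2 * (W - M ^ 2) : ℝ) : ℂ))‖ ≤
      (A ^ 3 * Real.exp A + A ^ 2) * p ^ 3 := by
  set z : ℂ := Complex.I * p * (M : ℂ) + ((p ^ 2 / 2 * W : ℝ) : ℂ) with hz
  have hM0 := abs_nonneg M
  have hW0 := abs_nonneg W
  have hA0 : 0 ≤ A := by linarith
  have hp2 : p ^ 2 ≤ p := by nlinarith
  have hzn : ‖z‖ ≤ p * A := by
    calc ‖z‖ ≤ ‖Complex.I * p * (M : ℂ)‖ + ‖((p ^ 2 / 2 * W : ℝ) : ℂ)‖ := norm_add_le _ _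
      _ = p * |M| + p ^ 2 / 2 * |W| := by
          rw [norm_mul, norm_mul, Complex.norm_I, Complex.norm_real, Complex.norm_real,
            Complex.norm_real, Real.norm_eq_abs, Real.norm_eq_abs, Real.norm_eq_abs, abs_mul,
            abs_of_pos hp, abs_of_nonneg (by positivity : (0 : ℝ) ≤ p ^ 2 / 2)]
          ring
      _ ≤ p * |M| + p * |W| := by nlinarith
      _ ≤ p * A := by nlinarith
  have hzA : ‖z‖ ≤ A := hzn.trans (by nlinarith)
  have h1 : ‖Complex.exp z - ∑ m ∈ range 3, z ^ m / (m.factorial : ℂ)‖ ≤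
      ‖z‖ ^ 3 * Real.exp ‖z‖ := Complex.norm_exp_sub_sum_le_norm_mul_exp z 3
  have h2 : ‖z‖ ^ 3 * Real.exp ‖z‖ ≤ A ^ 3 * Real.exp A * p ^ 3 := by
    calc ‖z‖ ^ 3 * Real.exp ‖z‖ ≤ (p * A) ^ 3 * Real.exp A := by
          apply mul_le_mul (pow_le_pow_left₀ (norm_nonneg _) hzn 3)
            (Real.exp_le_exp.mpr hzA) (Real.exp_nonneg _) (by positivity)
      _ = A ^ 3 * Real.exp A * p ^ 3 := by ring
  have h3 : ∑ m ∈ range 3, z ^ m / (m.factorial : ℂ) = 1 + z + z ^ 2 / 2 := by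
    simp [Finset.sum_range_succ, Nat.factorial]
  have h4 : Complex.exp z - 1 - (Complex.I * p * (M : ℂ) + ((p ^ 2 / 2 * (W - M ^ 2) : ℝ) : ℂ)) =
      (Complex.exp z - ∑ m ∈ range 3, z ^ m / (m.factorial : ℂ)) +
        (Complex.I * ((p ^ 3 * M * W / 2 : ℝ) : ℂ) + ((p ^ 4 * W ^ 2 / 8 : ℝ) : ℂ)) := by
    rw [h3]
    have hI : Complex.I ^ 2 = -1 := Complex.I_sq
    have hz2 : z ^ 2 / 2 = Complex.I ^ 2 * p ^ 2 * M ^ 2 / 2 +
        Complex.I * (p ^ 3 * M * W / 2) + p ^ 4 * W ^ 2 / 8 := by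
      rw [hz]; push_cast; ring
    rw [hz2, hI, hz]
    push_cast
    ring
  rw [h4]
  have h5 : ‖(Complex.I * ((p ^ 3 * M * W / 2 : ℝ) : ℂ) + ((p ^ 4 * W ^ 2 / 8 : ℝ) : ℂ))‖ ≤
      A ^ 2 * p ^ 3 := by
    calc ‖(Complex.I * ((p ^ 3 * M * W / 2 : ℝ) : ℂ) + ((p ^ 4 * W ^ 2 / 8 : ℝ) : ℂ))‖
        ≤ ‖Complex.I * ((p ^ 3 * M * W / 2 : ℝ) : ℂ)‖ + ‖((p ^ 4 * W ^ 2 / 8 : ℝ) : ℂ)‖ :=
          norm_add_le _ _
      _ = p ^ 3 * (|M| * |W|) / 2 + p ^ 4 * |W| ^ 2 / 8 := by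
          rw [norm_mul, Complex.norm_I, Complex.norm_real, Complex.norm_real,
            Real.norm_eq_abs, Real.norm_eq_abs, one_mul,
            abs_of_nonneg (by positivity : (0 : ℝ) ≤ p ^ 4 * W ^ 2 / 8), sq_abs,
            abs_div, abs_mul, abs_mul, abs_of_pos (pow_pos hp 3), abs_two]
          ring
      _ ≤ p ^ 3 * (|M| * |W|) / 2 + p ^ 3 * |W| ^ 2 / 8 := by
          have : p ^ 4 ≤ p ^ 3 := by nlinarith [pow_pos hp 3]
          nlinarith [sq_nonneg (|W|)]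
      _ ≤ A ^ 2 * p ^ 3 := by
          have hh : |M| * |W| / 2 + |W| ^ 2 / 8 ≤ A ^ 2 := by
            have : (|M| + |W|) ^ 2 ≤ A ^ 2 := by
              apply pow_le_pow_left₀ (by positivity) hA
            nlinarith [mul_nonneg hM0 hW0, sq_nonneg |M|, sq_nonneg |W|]
          have := mul_le_mul_of_nonneg_left hh (pow_pos hp 3).le
          linarith
  calc ‖(Complex.exp z - ∑ m ∈ range 3, z ^ m / (m.factorial : ℂ)) +
        (Complex.I * ((p ^ 3 * M * W / 2 : ℝ) : ℂ) + ((p ^ 4 * W ^ 2 / 8 : ℝ) : ℂ))‖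
      ≤ ‖Complex.exp z - ∑ m ∈ range 3, z ^ m / (m.factorial : ℂ)‖ +
        ‖(Complex.I * ((p ^ 3 * M * W / 2 : ℝ) : ℂ) + ((p ^ 4 * W ^ 2 / 8 : ℝ) : ℂ))‖ :=
        norm_add_le _ _
    _ ≤ A ^ 3 * Real.exp A * p ^ 3 + A ^ 2 * p ^ 3 := add_le_add (h1.trans h2) h5
    _ = _ := by ring

section
variable {V : Type} [Fintype V] [DecidableEq V]

theorem VarF_Zpos (r : V → V → Prop) {x : ℝ} (hx : 0 < x) : 0 < Zx r x := by
  unfold Zx
  apply Finset.sum_pos
  · intro S _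
    positivity
  · refine ⟨∅, ?_⟩
    rw [mem_fam]
    intro u hu
    simp at hu

theorem VarF_ExR_const (r : V → V → Prop) {x : ℝ} (hx : 0 < x) (a : ℝ) :
    ExR r x (fun _ => a) = a := by
  have hZ := VarF_Zpos r hx
  unfold ExR
  rw [← Finset.sum_mul]
  rw [div_eq_iff hZ.ne']
  unfold Zx
  ring

theorem VarF_ExR_sub (r : V → V → Prop) (x : ℝ) (F G : Finset V → ℝ) :
    ExR r x (fun S => F S - G S) = ExR r x F - ExR r x G := by
  unfold ExR
  rw [← sub_div, ← Finset.sum_sub_distrib]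
  congr 1
  apply Finset.sum_congr rfl
  intro S _
  ring

theorem VarF_ExR_mono (r : V → V → Prop) {x : ℝ} (hx : 0 < x) (F G : Finset V → ℝ)
    (h : ∀ S, F S ≤ G S) : ExR r x F ≤ ExR r x G := by
  unfold ExR
  apply div_le_div_of_nonneg_right _ (VarF_Zpos r hx).le
  apply Finset.sum_le_sum
  intro S _
  exact mul_le_mul_of_nonneg_left (h S) (by positivity)

theorem VarF_ExC_split (r : V → V → Prop) (x p : ℝ) (F G : Finset V → ℝ) :
    ExC r x (fun S => Complex.I * p * (F S : ℂ) + ((p ^ 2 / 2 * G S : ℝ) : ℂ)) =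
      Complex.I * ((p * ExR r x F : ℝ) : ℂ) + ((p ^ 2 / 2 * ExR r x G : ℝ) : ℂ) := by
  unfold ExC ExR
  push_cast
  rw [mul_div_assoc', mul_div_assoc', mul_div_assoc', ← add_div]
  congr 1
  rw [Finset.mul_sum, Finset.mul_sum, Finset.mul_sum, ← Finset.sum_add_distrib]
  apply Finset.sum_congr rfl
  intro S _
  push_cast
  ring

/-- the norm of an expectation -/
theorem VarF_ExC_norm (r : V → V → Prop) {x : ℝ} (hx : 0 < x) (F : Finset V → ℂ) (B : ℝ)
    (h : ∀ S ∈ fam r, ‖F S‖ ≤ B) : ‖ExC r x F‖ ≤ B := by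
  have hZ := VarF_Zpos r hx
  unfold ExC
  rw [norm_div, Complex.norm_real, Real.norm_eq_abs, abs_of_pos hZ, div_le_iff₀ hZ]
  calc ‖∑ S ∈ fam r, ((x ^ S.card : ℝ) : ℂ) * F S‖
      ≤ ∑ S ∈ fam r, ‖((x ^ S.card : ℝ) : ℂ) * F S‖ := norm_sum_le _ _
    _ ≤ ∑ S ∈ fam r, x ^ S.card * B := by
        apply Finset.sum_le_sum
        intro S hS
        rw [norm_mul, Complex.norm_real, Real.norm_eq_abs, abs_of_pos (pow_pos hx _)]
        exact mul_le_mul_of_nonneg_left (h S hS) (pow_pos hx _).le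
    _ = B * Zx r x := by
        unfold Zx
        rw [← Finset.sum_mul]; ring

theorem VarF_ExC_sub (r : V → V → Prop) (x : ℝ) (F G : Finset V → ℂ) :
    ExC r x (fun S => F S - G S) = ExC r x F - ExC r x G := by
  unfold ExC
  rw [← sub_div, ← Finset.sum_sub_distrib]
  congr 1
  apply Finset.sum_congr rfl
  intro S _
  ring

theorem VarF_ExC_one (r : V → V → Prop) {x : ℝ} (hx : 0 < x) :
    ExC r x (fun _ => 1) = 1 := by
  have hZ := VarF_Zpos r hx
  unfold ExC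
  have hne : ((Zx r x : ℝ) : ℂ) ≠ 0 := by exact_mod_cast hZ.ne'
  rw [div_eq_iff hne]
  unfold Zx
  push_cast
  simp

end

variable {V ι : Type} [Fintype V] [DecidableEq V] [Fintype ι] [DecidableEq ι]

theorem VarF_key (T : Tr V ι) {x : ℝ} {o q : V → ℝ} (hx : 0 < x) (hd : T.Dat x o q)
    (c D : V → ℝ) (hD : T.Infl q c D) :
    ExR T.rel x (fun S => ∑ v ∈ S, c v - Tr.mu q D) = 0 ∧
    ExR T.rel x (fun S => T.cv q D S - (∑ v ∈ S, c v - Tr.mu q D) ^ 2) = 0 := by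
  obtain ⟨δ, C, hδ, hC, hpert⟩ := pert x hx
  have hB3 : 0 ≤ ∑ v, q v * |D v| ^ 3 := by
    apply Finset.sum_nonneg
    intro v _
    exact mul_nonneg (q_pos T hx hd v).le (by positivity)
  set B3 := ∑ v, q v * |D v| ^ 3 with hB3d
  set M : Finset V → ℝ := fun S => ∑ v ∈ S, c v - Tr.mu q D with hM
  set W : Finset V → ℝ := fun S => T.cv q D S with hW
  set A : ℝ := ∑ S ∈ fam T.rel, (|M S| + |W S|) with hAd
  have hAS : ∀ S ∈ fam T.rel, |M S| + |W S| ≤ A := by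
    intro S hS
    exact Finset.single_le_sum (f := fun S => |M S| + |W S|)
      (fun S _ => add_nonneg (abs_nonneg _) (abs_nonneg _)) hS
  have hA0 : 0 ≤ A := Finset.sum_nonneg (fun S _ => add_nonneg (abs_nonneg _) (abs_nonneg _))
  -- the bound of the second moments
  set b : ℝ := ∑ i, |T.b2 q D i| with hbd
  have hb0 : 0 ≤ b := Finset.sum_nonneg (fun i _ => abs_nonneg _)
  have hbi : ∀ i, T.b2 q D i ≤ b := fun i =>
    (le_abs_self _).trans (Finset.single_le_sum (f := fun i => |T.b2 q D i|)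
      (fun i _ => abs_nonneg _) (Finset.mem_univ i))
  set p0 : ℝ := min 1 (min (δ / (b + 1)) (δ / (B3 + 1))) with hp0d
  have hp0 : 0 < p0 := lt_min one_pos (lt_min (by positivity) (by positivity))
  set K : ℝ := C * B3 + (A ^ 3 * Real.exp A + A ^ 2) with hKd
  have hK : 0 ≤ K := by positivity
  have main : ∀ p : ℝ, 0 < p → p ≤ p0 →
      ‖Complex.I * ((p * ExR T.rel x M : ℝ) : ℂ) +
        ((p ^ 2 / 2 * ExR T.rel x (fun S => W S - M S ^ 2) : ℝ) : ℂ)‖ ≤ K * p ^ 3 := by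
    intro p hp hpp
    have hp1 : p ≤ 1 := hpp.trans (min_le_left _ _)
    have hpb : p * (b + 1) ≤ δ := by
      have : p ≤ δ / (b + 1) := hpp.trans ((min_le_right _ _).trans (min_le_left _ _))
      rwa [le_div_iff₀ (by positivity)] at this
    have hpB : p * (B3 + 1) ≤ δ := by
      have : p ≤ δ / (B3 + 1) := hpp.trans ((min_le_right _ _).trans (min_le_right _ _))
      rwa [le_div_iff₀ (by positivity)] at this
    have hp2 : p ^ 2 ≤ p := by nlinarith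
    have hp3 : p ^ 3 ≤ p := by nlinarith [sq_nonneg p]
    have h1 := hpert V ι T x p o q c D hx le_rfl hd hD
      (by
        intro i
        have : p ^ 2 * T.b2 q D i ≤ p ^ 2 * b := mul_le_mul_of_nonneg_left (hbi i) (sq_nonneg p)
        nlinarith)
      (by
        rw [abs_of_pos hp]
        nlinarith)
    rw [abs_of_pos hp] at h1
    have h2 : ‖ExC T.rel x (fun S => Complex.exp (Complex.I * p * (M S : ℂ) +
        ((p ^ 2 / 2 * W S : ℝ) : ℂ)) - 1 -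
        (Complex.I * p * (M S : ℂ) + ((p ^ 2 / 2 * (W S - M S ^ 2) : ℝ) : ℂ)))‖ ≤
        (A ^ 3 * Real.exp A + A ^ 2) * p ^ 3 := by
      apply VarF_ExC_norm _ hx
      intro S hS
      exact VarF_taylor (M S) (W S) A p (hAS S hS) hp hp1
    rw [VarF_ExC_sub, VarF_ExC_sub, VarF_ExC_one _ hx, VarF_ExC_split] at h2
    set E1 := ExC T.rel x (fun S => Complex.exp (Complex.I * p * (M S : ℂ) +
        ((p ^ 2 / 2 * W S : ℝ) : ℂ))) with hE1
    have h3 : ‖E1 - 1‖ ≤ C * (p ^ 3 * B3) := h1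
    set R := Complex.I * ((p * ExR T.rel x M : ℝ) : ℂ) +
        ((p ^ 2 / 2 * ExR T.rel x (fun S => W S - M S ^ 2) : ℝ) : ℂ) with hR
    have h4 : R = (E1 - 1) - (E1 - 1 - R) := by ring
    calc ‖R‖ = ‖(E1 - 1) - (E1 - 1 - R)‖ := by rw [← h4]
      _ ≤ ‖E1 - 1‖ + ‖E1 - 1 - R‖ := norm_sub_le _ _
      _ ≤ C * (p ^ 3 * B3) + (A ^ 3 * Real.exp A + A ^ 2) * p ^ 3 := add_le_add h3 h2
      _ = K * p ^ 3 := by rw [hKd]; ring
  constructor
  · apply VarF_zero _ K p0 hp0 hK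
    intro p hp hpp
    have hm := main p hp hpp
    have him := (Complex.abs_im_le_norm _).trans hm
    have hp1 : p ≤ 1 := hpp.trans (min_le_left _ _)
    have e : (Complex.I * ((p * ExR T.rel x M : ℝ) : ℂ) +
        ((p ^ 2 / 2 * ExR T.rel x (fun S => W S - M S ^ 2) : ℝ) : ℂ)).im =
        p * ExR T.rel x M := by
      simp only [Complex.add_im, Complex.mul_im, Complex.I_re, Complex.I_im, Complex.ofReal_re,
        Complex.ofReal_im, zero_mul, one_mul, zero_add, add_zero]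
    rw [e, abs_mul, abs_of_pos hp] at him
    have h5 : |ExR T.rel x M| ≤ K * p ^ 2 := by
      have : p * |ExR T.rel x M| ≤ p * (K * p ^ 2) := by
        calc _ ≤ K * p ^ 3 := him
          _ = _ := by ring
      exact le_of_mul_le_mul_left this hp
    calc |ExR T.rel x M| ≤ K * p ^ 2 := h5
      _ ≤ K * p := mul_le_mul_of_nonneg_left (by nlinarith) hK
  · apply VarF_zero _ (2 * K) p0 hp0 (by positivity)
    intro p hp hpp
    have hm := main p hp hpp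
    have hre := (Complex.abs_re_le_norm _).trans hm
    have e : (Complex.I * ((p * ExR T.rel x M : ℝ) : ℂ) +
        ((p ^ 2 / 2 * ExR T.rel x (fun S => W S - M S ^ 2) : ℝ) : ℂ)).re =
        p ^ 2 / 2 * ExR T.rel x (fun S => W S - M S ^ 2) := by
      simp only [Complex.add_re, Complex.mul_re, Complex.I_re, Complex.I_im, Complex.ofReal_re,
        Complex.ofReal_im, zero_mul, mul_zero, sub_zero, zero_add]
    rw [e, abs_mul, abs_of_pos (by positivity : (0 : ℝ) < p ^ 2 / 2)] at hre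
    have hpp2 : (0 : ℝ) < p ^ 2 / 2 := by positivity
    have : p ^ 2 / 2 * |ExR T.rel x (fun S => W S - M S ^ 2)| ≤ p ^ 2 / 2 * (2 * K * p) := by
      calc _ ≤ K * p ^ 3 := hre
        _ = _ := by ring
    exact le_of_mul_le_mul_left this hpp2

theorem mean_eq (T : Tr V ι) {x : ℝ} {o q : V → ℝ} (hx : 0 < x) (hd : T.Dat x o q)
    (c D : V → ℝ) (hD : T.Infl q c D) :
    ExR T.rel x (fun S => ∑ v ∈ S, c v) = Tr.mu q D := by
  have h := (VarF_key T hx hd c D hD).1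
  rw [VarF_ExR_sub, VarF_ExR_const _ hx] at h
  linarith

theorem var_eq (T : Tr V ι) {x : ℝ} {o q : V → ℝ} (hx : 0 < x) (hd : T.Dat x o q)
    (c D : V → ℝ) (hD : T.Infl q c D) :
    ExR T.rel x (fun S => (∑ v ∈ S, c v - Tr.mu q D) ^ 2) = ExR T.rel x (T.cv q D) := by
  have h := (VarF_key T hx hd c D hD).2
  rw [VarF_ExR_sub] at h
  have h2 : ExR T.rel x (fun S => T.cv q D S) = ExR T.rel x (T.cv q D) := rfl
  linarith

theorem var_le (T : Tr V ι) {x : ℝ} {o q : V → ℝ} (hx : 0 < x) (hd : T.Dat x o q)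
    (c D : V → ℝ) (hD : T.Infl q c D) :
    ExR T.rel x (fun S => (∑ v ∈ S, c v - Tr.mu q D) ^ 2) ≤ ∑ v, q v * D v ^ 2 := by
  rw [var_eq T hx hd c D hD]
  calc ExR T.rel x (T.cv q D) ≤ ExR T.rel x (fun _ => ∑ v, q v * D v ^ 2) :=
        VarF_ExR_mono _ hx _ _ (fun S => cv_le T hx hd D S)
    _ = _ := VarF_ExR_const _ hx _

end Pool.Agent.AMS
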