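import Mathlib
import Pool.Agent.AMS.Defs
import Pool.Agent.AMS.CntLink
import Pool.Agent.AMS.Fix
import Pool.Agent.AMS.Bas
import Pool.Agent.AMS.Contr
import Pool.Agent.AMS.VarF

/-!
# AMS: module CvVar — the conditional variance is concentrated (medium)

`D` = influence vector of `c = 1`, `x ≤ 3/2`, `W3 = ∑ q|D|³ ≤ 3600 ∑ q ≤ 3600 n` (`con3`),
`∑ q D² ≤ 12 n` (`con2`). For `K > 0`: `D² ≤ K² + |D|³/K`. So `b2_i ≤ K² ∑_{blk i} q + W3/K ≤ K² + W3/K`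
(`b2_small`), and `G v ≤ chs (q D²) v ≤ K² chs q v + W3/K`. With `q v chs q v ≤ x ≤ 3/2`, `q ≤ 1`:
`q v G v ≤ 3/2 K² + 3600 n/K`, hence (`G ≥ 0`)
`∑ q G² ≤ (3/2 K² + 3600 n/K) ∑ G v ≤ (3/2 K² + 3600 n/K) ∑ q D² ≤ (3/2 K² + 3600 n/K) 12 n`.
`cv S - E cv = -(∑_{v∈S} G v - μ_G)` where `μ_G = mu q H`, `H` the influence vector of `G`
(`exists_infl`, `mean_eq`), so by `var_le` and `con2`: `E (cv - E cv)² ≤ ∑ q H² ≤ 12 ∑ q G²`.
-/

open Finset

namespace Pool.Agent.AMS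

variable {V ι : Type} [Fintype V] [DecidableEq V] [Fintype ι] [DecidableEq ι]

theorem CvVar_q_le_one (T : Tr V ι) {x : ℝ} {o q : V → ℝ} (hx : 0 < x)
    (hd : T.Dat x o q) (v : V) : q v ≤ 1 := by
  refine (q_le T hx hd v).trans ?_
  rw [div_le_one (by linarith)]
  linarith

theorem CvVar_sum_q (T : Tr V ι) {x : ℝ} {o q : V → ℝ} (hx : 0 < x)
    (hd : T.Dat x o q) : ∑ v, q v ≤ Fintype.card V := by
  calc ∑ v, q v ≤ ∑ _v : V, (1 : ℝ) := Finset.sum_le_sum (fun v _ => CvVar_q_le_one T hx hd v)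
    _ = Fintype.card V := by simp

theorem m2_le (T : Tr V ι) {x : ℝ} {o q : V → ℝ} (hx : 0 < x) (hx2 : x ≤ 3 / 2)
    (hd : T.Dat x o q) (D : V → ℝ) (hD : T.Infl q (fun _ => 1) D) :
    ∑ v, q v * D v ^ 2 ≤ 12 * Fintype.card V := by
  have h := con2 T hx hx2 hd (fun _ => 1) D (fun v => infl_abs T hx hd (fun _ => 1) D hD v)
  have h2 := CvVar_sum_q T hx hd
  have h3 : ∑ v, q v * (1 : ℝ) ^ 2 = ∑ v, q v := by simp
  rw [h3] at h
  linarith

theorem m3_le (T : Tr V ι) {x : ℝ} {o q : V → ℝ} (hx : 0 < x) (hx2 : x ≤ 3 / 2)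
    (hd : T.Dat x o q) (D : V → ℝ) (hD : T.Infl q (fun _ => 1) D) :
    ∑ v, q v * |D v| ^ 3 ≤ 3600 * Fintype.card V := by
  have h := con3 T hx hx2 hd (fun _ => 1) D (fun v => infl_abs T hx hd (fun _ => 1) D hD v)
  have h2 := CvVar_sum_q T hx hd
  have h3 : ∑ v, q v * |(1 : ℝ)| ^ 3 = ∑ v, q v := by simp
  rw [h3] at h
  linarith

theorem CvVar_sq_le (d K : ℝ) (hK : 0 < K) : d ^ 2 ≤ K ^ 2 + |d| ^ 3 / K := by
  have hd : d ^ 2 = |d| ^ 2 := (sq_abs d).symm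
  rw [hd]
  have h0 := abs_nonneg d
  rcases le_total |d| K with h | h
  · have : |d| ^ 2 ≤ K ^ 2 := pow_le_pow_left₀ h0 h 2
    have : 0 ≤ |d| ^ 3 / K := by positivity
    linarith
  · have h1 : |d| ^ 2 ≤ |d| ^ 3 / K := by
      rw [le_div_iff₀ hK]
      calc |d| ^ 2 * K ≤ |d| ^ 2 * |d| := mul_le_mul_of_nonneg_left h (by positivity)
        _ = |d| ^ 3 := by ring
    have : 0 ≤ K ^ 2 := by positivity
    linarith

theorem CvVar_b2 (T : Tr V ι) {x : ℝ} {o q : V → ℝ} (hx : 0 < x) (hx2 : x ≤ 3 / 2)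
    (hd : T.Dat x o q) (D : V → ℝ) (hD : T.Infl q (fun _ => 1) D) (K : ℝ) (hK : 0 < K)
    (U : Finset V) :
    ∑ w ∈ U, q w * D w ^ 2 ≤ K ^ 2 * ∑ w ∈ U, q w + (∑ w ∈ U, q w * |D w| ^ 3) / K := by
  rw [Finset.mul_sum, Finset.sum_div, ← Finset.sum_add_distrib]
  refine Finset.sum_le_sum (fun w _ => ?_)
  have h := CvVar_sq_le (D w) K hK
  have hq := (q_pos T hx hd w).le
  calc q w * D w ^ 2 ≤ q w * (K ^ 2 + |D w| ^ 3 / K) := mul_le_mul_of_nonneg_left h hq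
    _ = K ^ 2 * q w + q w * |D w| ^ 3 / K := by ring

theorem b2_small (T : Tr V ι) {x : ℝ} {o q : V → ℝ} (hx : 0 < x) (hx2 : x ≤ 3 / 2)
    (hd : T.Dat x o q) (D : V → ℝ) (hD : T.Infl q (fun _ => 1) D) (K : ℝ) (hK : 0 < K) (i : ι) :
    T.b2 q D i ≤ K ^ 2 + 3600 * Fintype.card V / K := by
  have h1 := CvVar_b2 T hx hx2 hd D hD K hK (T.blk i)
  have h2 : ∑ w ∈ T.blk i, q w ≤ 1 := (q_blk T hx hd i).le
  have h3 : ∑ w ∈ T.blk i, q w * |D w| ^ 3 ≤ 3600 * Fintype.card V := by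
    refine le_trans ?_ (m3_le T hx hx2 hd D hD)
    exact Finset.sum_le_sum_of_subset_of_nonneg (Finset.subset_univ _)
      (fun w _ _ => mul_nonneg (q_pos T hx hd w).le (by positivity))
  have h4 : (∑ w ∈ T.blk i, q w * |D w| ^ 3) / K ≤ 3600 * Fintype.card V / K :=
    div_le_div_of_nonneg_right h3 hK.le
  have h5 : K ^ 2 * ∑ w ∈ T.blk i, q w ≤ K ^ 2 * 1 :=
    mul_le_mul_of_nonneg_left h2 (by positivity)
  have h6 : T.b2 q D i = ∑ w ∈ T.blk i, q w * D w ^ 2 := rfl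
  rw [h6]
  linarith

theorem CvVar_qG (T : Tr V ι) {x : ℝ} {o q : V → ℝ} (hx : 0 < x) (hx2 : x ≤ 3 / 2)
    (hd : T.Dat x o q) (D : V → ℝ) (hD : T.Infl q (fun _ => 1) D) (K : ℝ) (hK : 0 < K) (v : V) :
    q v * T.G q D v ≤ 3 / 2 * K ^ 2 + 3600 * Fintype.card V / K := by
  have hq := q_pos T hx hd v
  have hq1 := CvVar_q_le_one T hx hd v
  have h1 : T.G q D v ≤ T.chs (fun w => q w * D w ^ 2) v :=
    Finset.sum_le_sum (fun i _ => bv_le T q D i)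
  have h2 : T.chs (fun w => q w * D w ^ 2) v ≤
      K ^ 2 * T.chs q v + T.chs (fun w => q w * |D w| ^ 3) v / K := by
    have := chs_mono T (fun w => q w * D w ^ 2) (fun w => K ^ 2 * q w + K⁻¹ * (q w * |D w| ^ 3))
      (fun w => by
        have h := CvVar_sq_le (D w) K hK
        have hqw := (q_pos T hx hd w).le
        calc q w * D w ^ 2 ≤ q w * (K ^ 2 + |D w| ^ 3 / K) := mul_le_mul_of_nonneg_left h hqw
          _ = K ^ 2 * q w + K⁻¹ * (q w * |D w| ^ 3) := by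
            rw [div_eq_mul_inv]; ring) v
    rw [chs_add T (fun w => K ^ 2 * q w) (fun w => K⁻¹ * (q w * |D w| ^ 3)) v,
      chs_smul T (K ^ 2) q v, chs_smul T K⁻¹ (fun w => q w * |D w| ^ 3) v] at this
    rw [div_eq_inv_mul]
    exact this
  have h3 : T.chs (fun w => q w * |D w| ^ 3) v ≤ 3600 * Fintype.card V := by
    have hnn : ∀ w, 0 ≤ q w * |D w| ^ 3 :=
      fun w => mul_nonneg (q_pos T hx hd w).le (by positivity)
    calc T.chs (fun w => q w * |D w| ^ 3) v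
        ≤ ∑ v, T.chs (fun w => q w * |D w| ^ 3) v :=
          Finset.single_le_sum (f := fun v => T.chs (fun w => q w * |D w| ^ 3) v)
            (fun u _ => chs_nonneg T _ hnn u) (Finset.mem_univ v)
      _ ≤ ∑ w, q w * |D w| ^ 3 := chs_sum T _ hnn
      _ ≤ _ := m3_le T hx hx2 hd D hD
  have h4 : q v * T.chs q v ≤ 3 / 2 := (q_mul_s T hx hd v).trans hx2
  have h5 : T.chs (fun w => q w * |D w| ^ 3) v / K ≤ 3600 * Fintype.card V / K :=
    div_le_div_of_nonneg_right h3 hK.le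
  have h6 : 0 ≤ 3600 * (Fintype.card V : ℝ) / K := by positivity
  calc q v * T.G q D v ≤ q v * (K ^ 2 * T.chs q v + 3600 * Fintype.card V / K) :=
        mul_le_mul_of_nonneg_left (by linarith) hq.le
    _ = K ^ 2 * (q v * T.chs q v) + q v * (3600 * Fintype.card V / K) := by ring
    _ ≤ K ^ 2 * (3 / 2) + 1 * (3600 * Fintype.card V / K) :=
        add_le_add (mul_le_mul_of_nonneg_left h4 (by positivity))
          (mul_le_mul_of_nonneg_right hq1 h6)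
    _ = _ := by ring

theorem CvVar_G_nonneg (T : Tr V ι) {x : ℝ} {o q : V → ℝ} (hx : 0 < x)
    (hd : T.Dat x o q) (D : V → ℝ) (v : V) : 0 ≤ T.G q D v :=
  Finset.sum_nonneg (fun i _ => bv_nonneg T hx hd D i)

theorem CvVar_qG2 (T : Tr V ι) {x : ℝ} {o q : V → ℝ} (hx : 0 < x) (hx2 : x ≤ 3 / 2)
    (hd : T.Dat x o q) (D : V → ℝ) (hD : T.Infl q (fun _ => 1) D) (K : ℝ) (hK : 0 < K) :
    ∑ v, q v * T.G q D v ^ 2 ≤
      (3 / 2 * K ^ 2 + 3600 * Fintype.card V / K) * (12 * Fintype.card V) := by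
  set B : ℝ := 3 / 2 * K ^ 2 + 3600 * Fintype.card V / K with hB
  have hB0 : 0 ≤ B := by positivity
  have h1 : ∑ v, q v * T.G q D v ^ 2 ≤ B * ∑ v, T.G q D v := by
    rw [Finset.mul_sum]
    refine Finset.sum_le_sum (fun v _ => ?_)
    calc q v * T.G q D v ^ 2 = (q v * T.G q D v) * T.G q D v := by ring
      _ ≤ B * T.G q D v :=
        mul_le_mul_of_nonneg_right (CvVar_qG T hx hx2 hd D hD K hK v)
          (CvVar_G_nonneg T hx hd D v)
  have h2 : ∑ v, T.G q D v ≤ ∑ i, T.bv q D i :=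
    ch_sum T (fun i => T.bv q D i) (fun i => bv_nonneg T hx hd D i)
  have h3 : ∑ i, T.bv q D i ≤ ∑ v, q v * D v ^ 2 := by
    rw [← blk_sum T (fun v => q v * D v ^ 2)]
    exact Finset.sum_le_sum (fun i _ => bv_le T q D i)
  have h4 := m2_le T hx hx2 hd D hD
  exact h1.trans (mul_le_mul_of_nonneg_left (by linarith) hB0)

theorem cv_var (T : Tr V ι) {x : ℝ} {o q : V → ℝ} (hx : 0 < x) (hx2 : x ≤ 3 / 2)
    (hd : T.Dat x o q) (D : V → ℝ) (hD : T.Infl q (fun _ => 1) D) (K : ℝ) (hK : 0 < K) :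
    ExR T.rel x (fun S => (T.cv q D S - ExR T.rel x (T.cv q D)) ^ 2) ≤
      216 * K ^ 2 * Fintype.card V + 518400 * (Fintype.card V : ℝ) ^ 2 / K := by
  obtain ⟨H, hH⟩ := exists_infl T q (T.G q D)
  have hmean := mean_eq T hx hd (T.G q D) H hH
  have hcv : ExR T.rel x (T.cv q D) = ∑ i, T.bv q D i - Tr.mu q H := by
    have e1 : T.cv q D = fun S => (∑ i, T.bv q D i) + (-1) * ∑ v ∈ S, T.G q D v := by
      funext S
      unfold Tr.cv
      ring
    rw [e1, ExR_add T.rel x (fun _ => ∑ i, T.bv q D i) (fun S => (-1) * ∑ v ∈ S, T.G q D v),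
      ExR_const T.rel hx, ExR_smul T.rel x (-1) (fun S => ∑ v ∈ S, T.G q D v), hmean]
    ring
  have hfun : (fun S => (T.cv q D S - ExR T.rel x (T.cv q D)) ^ 2) =
      fun S => (∑ v ∈ S, T.G q D v - Tr.mu q H) ^ 2 := by
    funext S
    rw [hcv]
    unfold Tr.cv
    ring
  rw [hfun]
  have h1 := var_le T hx hd (T.G q D) H hH
  have h2 := con2 T hx hx2 hd (T.G q D) H (fun v => infl_abs T hx hd (T.G q D) H hH v)
  have h3 := CvVar_qG2 T hx hx2 hd D hD K hK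
  calc _ ≤ ∑ v, q v * H v ^ 2 := h1
    _ ≤ 12 * ∑ v, q v * T.G q D v ^ 2 := h2
    _ ≤ 12 * ((3 / 2 * K ^ 2 + 3600 * Fintype.card V / K) * (12 * Fintype.card V)) :=
        mul_le_mul_of_nonneg_left h3 (by norm_num)
    _ = 216 * K ^ 2 * Fintype.card V + 518400 * (Fintype.card V : ℝ) ^ 2 / K := by
        field_simp
        ring

end Pool.Agent.AMS
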