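import Mathlib
import Pool.Agent.AMS.Defs
import Pool.Agent.AMS.CntLink
import Pool.Agent.AMS.Fix
import Pool.Agent.AMS.Bas
import Pool.Agent.AMS.Contr
import Pool.Agent.AMS.VarF
import Pool.Agent.AMS.CvVar

/-!
# AMS: module Clt — central limit theorem, uniform over all block forests (medium+)

`D` = influence vector of `c = 1`, `M S = |S| - μ`, `μ = mu q D`, `V S = cv S ∈ [0, 12 n]`
(`cv_nonneg`, `cv_le`, `m2_le`), `s2 = E V`. Let `φ² n ≤ A²`, so `φ² ≤ A²/n`.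
(i) `φ² b2_i ≤ A² K²/n + 3600 A²/K ≤ δ` (δ from `pert (3/2)`) if `K` is large and then `n` is large;
`|φ|³ W3 ≤ 3600 A² |φ| ≤ 3600 A³/√n` is small. So `‖Ψ - 1‖ ≤ C |φ|³ W3 ≤ ε/2` for large `n`, where
`Ψ = E exp(iφM + φ²V/2)`.
(ii) `E e^{iφM} - e^{-φ² s2/2} Ψ = E [e^{iφM} (1 - e^{φ²(V - s2)/2})]`, of absolute value
`≤ E |1 - e^{φ²(V-s2)/2}| ≤ (φ²/2) e^{6A²} E|V - s2| ≤ (A²/(2n)) e^{6A²} sqrt(E(V-s2)²)`
(`|V - s2| ≤ 12 n`, `|1 - e^u| ≤ |u| e^{|u|}`), and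
`sqrt(216 K² n + 518400 n²/K)/n = sqrt(216 K²/n + 518400/K)` is small for `K` large, then `n` large.
So `‖E e^{iφM} - e^{-φ² s2/2}‖ ≤ ‖Ψ - 1‖ + ε/2 ≤ ε`.
-/

open Finset

namespace Pool.Agent.AMS

theorem Clt_lin {V : Type} [Fintype V] [DecidableEq V] (r : V → V → Prop) (x : ℝ) (e : ℂ)
    (F G : Finset V → ℂ) : ExC r x F - e * ExC r x G = ExC r x (fun S => F S - e * G S) := by
  unfold ExC
  rw [← mul_div_assoc, ← sub_div, Finset.mul_sum, ← Finset.sum_sub_distrib]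
  congr 1
  apply Finset.sum_congr rfl
  intro S _
  ring

theorem Clt_exp (u a : ℝ) (h : |u| ≤ a) : |1 - Real.exp u| ≤ |u| * Real.exp a := by
  have h0 : Real.exp u ≤ Real.exp a := Real.exp_le_exp.2 ((le_abs_self u).trans h)
  have ha : 0 ≤ a := (abs_nonneg u).trans h
  have h1 : 1 ≤ Real.exp a := Real.one_le_exp ha
  rcases le_total 0 u with hu | hu
  · have h2 : 1 ≤ Real.exp u := Real.one_le_exp hu
    rw [abs_of_nonpos (by linarith), abs_of_nonneg hu]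
    have h3 := Real.add_one_le_exp (-u)
    have h4 : Real.exp (-u) * Real.exp u = 1 := by rw [← Real.exp_add]; simp
    have h5 := Real.exp_pos u
    nlinarith
  · have h2 : Real.exp u ≤ 1 := Real.exp_le_one_iff.2 hu
    rw [abs_of_nonneg (by linarith), abs_of_nonpos hu]
    have h3 := Real.add_one_le_exp u
    nlinarith

theorem clt (A ε : ℝ) (hA : 0 < A) (hε : 0 < ε) : ∃ N : ℕ,
    ∀ (V ι : Type) [Fintype V] [DecidableEq V] [Fintype ι] [DecidableEq ι] (T : Tr V ι) (x : ℝ)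
      (o q D : V → ℝ), 0 < x → x ≤ 3 / 2 → T.Dat x o q → T.Infl q (fun _ => 1) D →
      N ≤ Fintype.card V → ∃ s2 : ℝ, 0 ≤ s2 ∧ s2 ≤ 12 * Fintype.card V ∧
        ∀ φ : ℝ, φ ^ 2 * Fintype.card V ≤ A ^ 2 →
          ‖ExC T.rel x (fun S => Complex.exp (Complex.I * φ * (((S.card : ℝ) - Tr.mu q D : ℝ) : ℂ)))
            - ((Real.exp (-(φ ^ 2 * s2 / 2)) : ℝ) : ℂ)‖ ≤ ε := by
  obtain ⟨δ, C, hδ, hC, hpert⟩ := pert (3 / 2) (by norm_num)
  set E : ℝ := Real.exp (6 * A ^ 2) with hE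
  have hEpos : 0 < E := Real.exp_pos _
  -- the constant K
  obtain ⟨K, hK, hK1, hK2⟩ : ∃ K : ℝ, 0 < K ∧ 3600 * A ^ 2 / K ≤ δ / 2 ∧
      A ^ 4 / 4 * E ^ 2 * (518400 / K) ≤ ε ^ 2 / 8 := by
    refine ⟨3600 * A ^ 2 / (δ / 2) + A ^ 4 / 4 * E ^ 2 * 518400 / (ε ^ 2 / 8) , by positivity, ?_, ?_⟩
    · rw [div_le_iff₀ (by positivity)]
      have h1 : δ / 2 * (3600 * A ^ 2 / (δ / 2)) = 3600 * A ^ 2 := by field_simp
      have h2 : 0 ≤ δ / 2 * (A ^ 4 / 4 * E ^ 2 * 518400 / (ε ^ 2 / 8)) := by positivity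
      nlinarith
    · rw [← mul_div_assoc, div_le_iff₀ (by positivity)]
      have h1 : ε ^ 2 / 8 * (A ^ 4 / 4 * E ^ 2 * 518400 / (ε ^ 2 / 8)) = A ^ 4 / 4 * E ^ 2 * 518400 := by
        field_simp
      have h2 : 0 ≤ ε ^ 2 / 8 * (3600 * A ^ 2 / (δ / 2)) := by positivity
      nlinarith
  set η : ℝ := min δ (ε / (2 * C)) / (3600 * A ^ 2) with hη
  have hηpos : 0 < η := by positivity
  obtain ⟨N, hN⟩ := exists_nat_ge (1 + A ^ 2 * K ^ 2 / (δ / 2) +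
    A ^ 4 / 4 * E ^ 2 * (216 * K ^ 2) / (ε ^ 2 / 8) + A ^ 2 / η ^ 2)
  refine ⟨N, ?_⟩
  intro V ι _ _ _ _ T x o q D hx hx2 hd hD hcard
  have hn : (N : ℝ) ≤ (Fintype.card V : ℝ) := by exact_mod_cast hcard
  set n : ℝ := (Fintype.card V : ℝ) with hndef
  have hp1 : 0 ≤ A ^ 2 * K ^ 2 / (δ / 2) := by positivity
  have hp2 : 0 ≤ A ^ 4 / 4 * E ^ 2 * (216 * K ^ 2) / (ε ^ 2 / 8) := by positivity
  have hp3 : 0 ≤ A ^ 2 / η ^ 2 := by positivity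
  have hn1 : 1 ≤ n := by linarith
  have hn0 : 0 < n := by linarith
  have hnA : A ^ 2 * K ^ 2 / n ≤ δ / 2 := by
    rw [div_le_iff₀ hn0]
    have h1 : A ^ 2 * K ^ 2 / (δ / 2) ≤ n := by linarith
    rw [div_le_iff₀ (by positivity)] at h1
    linarith
  have hnB : A ^ 4 / 4 * E ^ 2 * (216 * K ^ 2 / n) ≤ ε ^ 2 / 8 := by
    rw [← mul_div_assoc, div_le_iff₀ hn0]
    have h1 : A ^ 4 / 4 * E ^ 2 * (216 * K ^ 2) / (ε ^ 2 / 8) ≤ n := by linarith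
    rw [div_le_iff₀ (by positivity)] at h1
    linarith
  have hnC : A ^ 2 / n ≤ η ^ 2 := by
    rw [div_le_iff₀ hn0]
    have h1 : A ^ 2 / η ^ 2 ≤ n := by linarith
    rw [div_le_iff₀ (by positivity)] at h1
    linarith
  have hm2 := m2_le T hx hx2 hd D hD
  have hm3 := m3_le T hx hx2 hd D hD
  have hW0 : 0 ≤ ∑ v, q v * |D v| ^ 3 :=
    Finset.sum_nonneg (fun v _ => mul_nonneg (q_pos T hx hd v).le (by positivity))
  set W : ℝ := ∑ v, q v * |D v| ^ 3 with hW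
  set s2 : ℝ := ExR T.rel x (T.cv q D) with hs2
  have hs0 : 0 ≤ s2 := by
    have h1 := ExR_mono T.rel hx (fun _ => 0) (T.cv q D) (fun S _ => cv_nonneg T hx hd D S)
    rw [ExR_const T.rel hx] at h1
    exact h1
  have hs12 : s2 ≤ 12 * n := by
    have h1 := ExR_mono T.rel hx (T.cv q D) (fun _ => 12 * n)
      (fun S _ => (cv_le T hx hd D S).trans hm2)
    rw [ExR_const T.rel hx] at h1
    exact h1
  refine ⟨s2, hs0, hs12, ?_⟩
  intro φ hφ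
  have hφ2 : φ ^ 2 ≤ A ^ 2 / n := by
    rw [le_div_iff₀ hn0]
    exact hφ
  have hφη : |φ| ≤ η := by
    apply abs_le_of_sq_le_sq _ hηpos.le
    linarith
  have hw : |φ| ^ 3 * W ≤ min δ (ε / (2 * C)) := by
    have h1 : |φ| ^ 3 * W ≤ |φ| ^ 3 * (3600 * n) := mul_le_mul_of_nonneg_left hm3 (by positivity)
    have h2 : |φ| ^ 3 * (3600 * n) = 3600 * |φ| * (φ ^ 2 * n) := by
      rw [← sq_abs φ]; ring
    have h3 : 3600 * |φ| * (φ ^ 2 * n) ≤ 3600 * |φ| * A ^ 2 :=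
      mul_le_mul_of_nonneg_left hφ (by positivity)
    have h4 : 3600 * |φ| * A ^ 2 ≤ 3600 * η * A ^ 2 := by
      have : 0 ≤ 3600 * A ^ 2 := by positivity
      nlinarith
    have h5 : 3600 * η * A ^ 2 = min δ (ε / (2 * C)) := by
      rw [hη]; field_simp
    linarith
  have hΨ := hpert V ι T x φ o q (fun _ => 1) D hx hx2 hd hD
    (by
      intro i
      have h1 := b2_small T hx hx2 hd D hD K hK i
      have h2 : φ ^ 2 * T.b2 q D i ≤ φ ^ 2 * (K ^ 2 + 3600 * n / K) :=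
        mul_le_mul_of_nonneg_left h1 (by positivity)
      have h3 : φ ^ 2 * (K ^ 2 + 3600 * n / K) = φ ^ 2 * K ^ 2 + 3600 / K * (φ ^ 2 * n) := by ring
      have h4 : φ ^ 2 * K ^ 2 ≤ A ^ 2 / n * K ^ 2 := mul_le_mul_of_nonneg_right hφ2 (by positivity)
      have h5 : A ^ 2 / n * K ^ 2 = A ^ 2 * K ^ 2 / n := by ring
      have h6 : 3600 / K * (φ ^ 2 * n) ≤ 3600 / K * A ^ 2 :=
        mul_le_mul_of_nonneg_left hφ (by positivity)
      have h7 : 3600 / K * A ^ 2 = 3600 * A ^ 2 / K := by ring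
      linarith)
    (hw.trans (min_le_left _ _))
  have hΨ2 : C * (|φ| ^ 3 * W) ≤ ε / 2 := by
    have h1 := hw.trans (min_le_right _ _)
    have h2 : C * (|φ| ^ 3 * W) ≤ C * (ε / (2 * C)) := mul_le_mul_of_nonneg_left h1 hC.le
    have h3 : C * (ε / (2 * C)) = ε / 2 := by field_simp
    linarith
  set e : ℝ := Real.exp (-(φ ^ 2 * s2 / 2)) with he
  have he1 : e ≤ 1 := by
    rw [he]
    apply Real.exp_le_one_iff.2
    have : 0 ≤ φ ^ 2 * s2 := by positivity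
    linarith
  have he0 : 0 < e := Real.exp_pos _
  simp only [Finset.sum_const, nsmul_eq_mul, mul_one] at hΨ
  set Ψ : ℂ := ExC T.rel x (fun S => Complex.exp (Complex.I * φ *
        (((S.card : ℝ) - Tr.mu q D : ℝ) : ℂ) + ((φ ^ 2 / 2 * T.cv q D S : ℝ) : ℂ))) with hΨd
  set f : ℂ := ExC T.rel x (fun S => Complex.exp (Complex.I * φ *
        (((S.card : ℝ) - Tr.mu q D : ℝ) : ℂ))) with hfd
  have hsplit : f - (e : ℂ) = (f - (e : ℂ) * Ψ) + (e : ℂ) * (Ψ - 1) := by ring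
  have h2nd : ‖(e : ℂ) * (Ψ - 1)‖ ≤ ε / 2 := by
    rw [norm_mul, Complex.norm_real, Real.norm_of_nonneg he0.le]
    calc e * ‖Ψ - 1‖ ≤ 1 * ‖Ψ - 1‖ := mul_le_mul_of_nonneg_right he1 (norm_nonneg _)
      _ ≤ ε / 2 := by rw [one_mul]; exact hΨ.trans hΨ2
  -- first part
  have hcvv := cv_var T hx hx2 hd D hD K hK
  have habs := ExR_abs_sq T.rel hx (fun S => T.cv q D S - s2)
  set y : ℝ := ExR T.rel x (fun S => |T.cv q D S - s2|) with hy
  have hy0 : 0 ≤ y := by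
    have h1 := ExR_mono T.rel hx (fun _ => 0) (fun S => |T.cv q D S - s2|)
      (fun S _ => abs_nonneg _)
    rw [ExR_const T.rel hx] at h1
    exact h1
  have h1st : ‖f - (e : ℂ) * Ψ‖ ≤ φ ^ 2 / 2 * E * y := by
    rw [hfd, hΨd, Clt_lin]
    refine (ExC_norm_le T.rel hx _).trans ?_
    rw [hy, ← ExR_smul]
    apply ExR_mono T.rel hx
    intro S _
    have hfac : Complex.exp (Complex.I * φ * (((S.card : ℝ) - Tr.mu q D : ℝ) : ℂ)) -
        (e : ℂ) * Complex.exp (Complex.I * φ *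
        (((S.card : ℝ) - Tr.mu q D : ℝ) : ℂ) + ((φ ^ 2 / 2 * T.cv q D S : ℝ) : ℂ)) =
        Complex.exp (Complex.I * φ * (((S.card : ℝ) - Tr.mu q D : ℝ) : ℂ)) *
          ((1 - Real.exp (φ ^ 2 / 2 * (T.cv q D S - s2)) : ℝ) : ℂ) := by
      rw [Complex.exp_add, he]
      push_cast
      have : Complex.exp ((φ : ℂ) ^ 2 / 2 * ((T.cv q D S : ℂ) - (s2 : ℂ))) =
          Complex.exp (-((φ : ℂ) ^ 2 * (s2 : ℂ) / 2)) * Complex.exp ((φ : ℂ) ^ 2 / 2 * (T.cv q D S : ℂ)) := by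
        rw [← Complex.exp_add]
        congr 1
        ring
      rw [this]
      ring
    rw [hfac, norm_mul]
    have hn1' : ‖Complex.exp (Complex.I * φ * (((S.card : ℝ) - Tr.mu q D : ℝ) : ℂ))‖ = 1 := by
      have : Complex.I * φ * (((S.card : ℝ) - Tr.mu q D : ℝ) : ℂ) =
          ((φ * ((S.card : ℝ) - Tr.mu q D) : ℝ) : ℂ) * Complex.I := by push_cast; ring
      rw [this, Complex.norm_exp_ofReal_mul_I]
    rw [hn1', one_mul, Complex.norm_real, Real.norm_eq_abs]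
    have hcv0 := cv_nonneg T hx hd D S
    have hcv1 := (cv_le T hx hd D S).trans hm2
    have hdiff : |T.cv q D S - s2| ≤ 12 * n := by
      rw [abs_le]; constructor <;> linarith
    have hu : |φ ^ 2 / 2 * (T.cv q D S - s2)| ≤ 6 * A ^ 2 := by
      rw [abs_mul, abs_of_nonneg (by positivity : (0 : ℝ) ≤ φ ^ 2 / 2)]
      calc φ ^ 2 / 2 * |T.cv q D S - s2| ≤ φ ^ 2 / 2 * (12 * n) :=
            mul_le_mul_of_nonneg_left hdiff (by positivity)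
        _ = 6 * (φ ^ 2 * n) := by ring
        _ ≤ 6 * A ^ 2 := by linarith
    have h1 := Clt_exp _ _ hu
    rw [abs_mul, abs_of_nonneg (by positivity : (0 : ℝ) ≤ φ ^ 2 / 2)] at h1
    calc |1 - Real.exp (φ ^ 2 / 2 * (T.cv q D S - s2))|
        ≤ φ ^ 2 / 2 * |T.cv q D S - s2| * Real.exp (6 * A ^ 2) := h1
      _ = φ ^ 2 / 2 * E * |T.cv q D S - s2| := by rw [hE]; ring
  have hy2 : φ ^ 2 / 2 * E * y ≤ ε / 2 := by
    have hsq : (φ ^ 2 / 2 * E * y) ^ 2 ≤ (ε / 2) ^ 2 := by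
      have h1 : y ^ 2 ≤ 216 * K ^ 2 * n + 518400 * n ^ 2 / K := habs.trans hcvv
      have h2 : (φ ^ 2) ^ 2 ≤ (A ^ 2 / n) ^ 2 := pow_le_pow_left₀ (by positivity) hφ2 2
      have h3 : (φ ^ 2 / 2 * E * y) ^ 2 = (φ ^ 2) ^ 2 * (E ^ 2 / 4 * y ^ 2) := by ring
      have h4 : (φ ^ 2) ^ 2 * (E ^ 2 / 4 * y ^ 2) ≤ (A ^ 2 / n) ^ 2 *
          (E ^ 2 / 4 * (216 * K ^ 2 * n + 518400 * n ^ 2 / K)) := by
        apply mul_le_mul h2 _ (by positivity) (by positivity)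
        exact mul_le_mul_of_nonneg_left h1 (by positivity)
      have h5 : (A ^ 2 / n) ^ 2 * (E ^ 2 / 4 * (216 * K ^ 2 * n + 518400 * n ^ 2 / K)) =
          A ^ 4 / 4 * E ^ 2 * (216 * K ^ 2 / n) + A ^ 4 / 4 * E ^ 2 * (518400 / K) := by
        field_simp
      nlinarith
    exact (sq_le_sq₀ (by positivity) (by positivity)).1 hsq
  calc ‖f - (e : ℂ)‖ = ‖(f - (e : ℂ) * Ψ) + (e : ℂ) * (Ψ - 1)‖ := by rw [← hsplit]
    _ ≤ ‖f - (e : ℂ) * Ψ‖ + ‖(e : ℂ) * (Ψ - 1)‖ := norm_add_le _ _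
    _ ≤ ε / 2 + ε / 2 := add_le_add (h1st.trans hy2) h2nd
    _ = ε := by ring

end Pool.Agent.AMS
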