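import Mathlib
import Pool.Agent.AMS.Defs
import Pool.Agent.AMS.CntLink

/-!
# AMS: module Lip — the ratio `i_{q+1}/i_q` cannot drop quickly (medium, double counting)

For an independent `S` let `av S` be the number of `x ∉ S` with `insert x S` independent.
Counting pairs: `∑_{|S|=q} av S = (q+1) i_{q+1}` (`pairs`).
`∑_{|S|=q} (av S)² = ∑_{|S'|=q+1} ∑_{x∈S'} av (S' \ {x})` and
`av (S' \ {x}) ≤ av S' + 1 + #{v ∉ S' : x is the only element of S' in conflict with v}`, so
`∑_{x∈S'} av (S' \ {x}) ≤ (q+1)(av S' + 1) + n`. Hence by Cauchy-Schwarz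
`(q+1)² i_{q+1}²/i_q ≤ ∑_{|S|=q} (av S)² ≤ (q+1)(q+2) i_{q+2} + (q+1) i_{q+1} + n i_{q+1}`.
Divide by `(q+1)(q+2) i_{q+1}`; with `R = i_{q+1}/i_q ≤ n/(q+1)` one gets
`i_{q+2}/i_{q+1} ≥ R - R/(q+2) - 1/(q+2) - n/((q+1)(q+2)) ≥ R - (2n + q + 1)/((q+1)(q+2))
 ≥ R - 3n/(q+1)²` (`q + 1 ≤ n` as `i_{q+1} > 0`).
-/

open Finset

namespace Pool.Agent.AMS

variable {V : Type} [Fintype V] [DecidableEq V]

/-- vertices which can be added -/
noncomputable def av (r : V → V → Prop) (S : Finset V) : Finset V := by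
  classical exact univ.filter (fun x => x ∉ S ∧ Ind r (insert x S))

private theorem Lip_mem_av {r : V → V → Prop} {S : Finset V} {x : V} :
    x ∈ av r S ↔ x ∉ S ∧ Ind r (insert x S) := by
  classical
  unfold av
  simp

private theorem Lip_Ind_mono {r : V → V → Prop} {S T : Finset V} (h : S ⊆ T) (hT : Ind r T) :
    Ind r S := fun u hu v hv huv => hT u (h hu) v (h hv) huv

private theorem Lip_dc (r : V → V → Prop) (q : ℕ) (g : Finset V → V → ℕ) :
    ∑ S ∈ (fam r).filter (fun S => S.card = q), ∑ x ∈ av r S, g S x =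
      ∑ S ∈ (fam r).filter (fun S => S.card = q + 1), ∑ x ∈ S, g (S.erase x) x := by
  rw [Finset.sum_sigma', Finset.sum_sigma']
  refine Finset.sum_nbij' (fun p => ⟨insert p.2 p.1, p.2⟩) (fun p => ⟨p.1.erase p.2, p.2⟩)
    ?_ ?_ ?_ ?_ ?_
  · rintro ⟨S, x⟩ hp
    rw [Finset.mem_sigma, Finset.mem_filter, mem_fam, Lip_mem_av] at hp
    obtain ⟨⟨h1, h2⟩, h3, h4⟩ := hp
    rw [Finset.mem_sigma, Finset.mem_filter, mem_fam]
    refine ⟨⟨h4, ?_⟩, Finset.mem_insert_self _ _⟩
    rw [Finset.card_insert_of_notMem h3]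
    exact congrArg (· + 1) h2
  · rintro ⟨S, x⟩ hp
    rw [Finset.mem_sigma, Finset.mem_filter, mem_fam] at hp
    obtain ⟨⟨h1, h2⟩, h3⟩ := hp
    rw [Finset.mem_sigma, Finset.mem_filter, mem_fam, Lip_mem_av]
    refine ⟨⟨Lip_Ind_mono (Finset.erase_subset _ _) h1, ?_⟩, Finset.notMem_erase _ _, ?_⟩
    · have h4 := Finset.card_erase_of_mem h3
      simp only at h2 h4 ⊢
      omega
    · rw [Finset.insert_erase h3]
      exact h1
  · rintro ⟨S, x⟩ hp
    rw [Finset.mem_sigma, Lip_mem_av] at hp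
    simp only [Sigma.mk.injEq, heq_eq_eq, and_true]
    exact Finset.erase_insert hp.2.1
  · rintro ⟨S, x⟩ hp
    rw [Finset.mem_sigma] at hp
    simp only [Sigma.mk.injEq, heq_eq_eq, and_true]
    exact Finset.insert_erase hp.2
  · rintro ⟨S, x⟩ hp
    rw [Finset.mem_sigma, Lip_mem_av] at hp
    simp only
    rw [Finset.erase_insert hp.2.1]

private theorem Lip_key (r : V → V → Prop) (hs : ∀ u v, r u v → r v u) (S : Finset V)
    (hS : Ind r S) : ∑ x ∈ S, (av r (S.erase x)).card ≤
      S.card * ((av r S).card + 1) + Fintype.card V := by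
  classical
  set C : V → Finset V := fun x => univ.filter (fun v => v ∉ S ∧ r x v ∧
    ∀ u ∈ S, u ≠ x → ¬ r u v) with hC
  have h1 : ∀ x ∈ S, (av r (S.erase x)).card ≤ (av r S).card + 1 + (C x).card := by
    intro x hx
    have hsub : av r (S.erase x) ⊆ (av r S ∪ {x}) ∪ C x := by
      intro v hv
      rw [Lip_mem_av] at hv
      obtain ⟨hv1, hv2⟩ := hv
      rw [Finset.mem_union, Finset.mem_union, Finset.mem_singleton]
      by_cases hvx : v = x
      · exact Or.inl (Or.inr hvx)
      · have hvS : v ∉ S := fun h => hv1 (Finset.mem_erase.mpr ⟨hvx, h⟩)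
        have hno : ∀ u ∈ S, u ≠ x → ¬ r u v := by
          intro u hu hux
          exact hv2 u (Finset.mem_insert_of_mem (Finset.mem_erase.mpr ⟨hux, hu⟩)) v
            (Finset.mem_insert_self _ _) (fun h => hvS (h ▸ hu))
        by_cases hxv : r x v
        · exact Or.inr (Finset.mem_filter.mpr ⟨Finset.mem_univ _, hvS, hxv, hno⟩)
        · refine Or.inl (Or.inl (Lip_mem_av.mpr ⟨hvS, ?_⟩))
          have hno2 : ∀ u ∈ S, ¬ r u v := by
            intro u hu
            by_cases hux : u = x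
            · rw [hux]
              exact hxv
            · exact hno u hu hux
          intro a ha b hb hab
          rcases Finset.mem_insert.mp ha with ha1 | ha1
          · rcases Finset.mem_insert.mp hb with hb1 | hb1
            · exact absurd (ha1.trans hb1.symm) hab
            · intro h
              rw [ha1] at h
              exact hno2 b hb1 (hs _ _ h)
          · rcases Finset.mem_insert.mp hb with hb1 | hb1
            · rw [hb1]
              exact hno2 a ha1
            · exact hS a ha1 b hb1 hab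
    calc (av r (S.erase x)).card ≤ ((av r S ∪ {x}) ∪ C x).card := Finset.card_le_card hsub
      _ ≤ (av r S ∪ {x}).card + (C x).card := Finset.card_union_le _ _
      _ ≤ (av r S).card + 1 + (C x).card := by
          have := Finset.card_union_le (av r S) {x}
          rw [Finset.card_singleton] at this
          omega
  have h2 : ∑ x ∈ S, (C x).card ≤ Fintype.card V := by
    rw [← Finset.card_biUnion]
    · exact Finset.card_le_univ _
    · intro x hx y hy hxy
      rw [Function.onFun, Finset.disjoint_left]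
      intro v hv1 hv2
      obtain ⟨_, hv3, hv4, hv5⟩ := Finset.mem_filter.mp hv1
      obtain ⟨_, hv6, hv7, hv8⟩ := Finset.mem_filter.mp hv2
      exact hv5 y hy (Ne.symm hxy) hv7
  calc ∑ x ∈ S, (av r (S.erase x)).card ≤ ∑ x ∈ S, ((av r S).card + 1 + (C x).card) :=
        Finset.sum_le_sum h1
    _ = S.card * ((av r S).card + 1) + ∑ x ∈ S, (C x).card := by
        rw [Finset.sum_add_distrib, Finset.sum_const, smul_eq_mul]
    _ ≤ _ := by omega

theorem pairs (r : V → V → Prop) (q : ℕ) :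
    ∑ S ∈ (fam r).filter (fun S => S.card = q), (av r S).card = (q + 1) * cnt r (q + 1) := by
  have h := Lip_dc r q (fun _ _ => 1)
  simp only [Finset.sum_const, smul_eq_mul, mul_one] at h
  rw [h]
  have h2 : ∑ S ∈ (fam r).filter (fun S => S.card = q + 1), S.card =
      ∑ S ∈ (fam r).filter (fun S => S.card = q + 1), (q + 1) :=
    Finset.sum_congr rfl fun S hS => (Finset.mem_filter.mp hS).2
  rw [h2, Finset.sum_const, smul_eq_mul, cnt, mul_comm]

theorem cnt_down (r : V → V → Prop) (k : ℕ) :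
    (k + 1) * cnt r (k + 1) ≤ Fintype.card V * cnt r k := by
  rw [← pairs, cnt, mul_comm, ← smul_eq_mul, ← Finset.sum_const]
  exact Finset.sum_le_sum fun S _ => Finset.card_le_univ _

theorem lip (r : V → V → Prop) (hs : ∀ u v, r u v → r v u) (q : ℕ) (h0 : 0 < cnt r q)
    (h1 : 0 < cnt r (q + 1)) :
    (cnt r (q + 1) : ℝ) / cnt r q - 3 * Fintype.card V / ((q : ℝ) + 1) ^ 2 ≤
      (cnt r (q + 2) : ℝ) / cnt r (q + 1) := by
  classical
  have hP1 := pairs r q
  have hP2 := pairs r (q + 1)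
  have hsq : ∑ S ∈ (fam r).filter (fun S => S.card = q), (av r S).card ^ 2 =
      ∑ S ∈ (fam r).filter (fun S => S.card = q + 1), ∑ x ∈ S, (av r (S.erase x)).card := by
    rw [← Lip_dc r q (fun S _ => (av r S).card)]
    refine Finset.sum_congr rfl fun S _ => ?_
    rw [Finset.sum_const, smul_eq_mul, sq]
  have hle : ∑ S ∈ (fam r).filter (fun S => S.card = q), (av r S).card ^ 2 ≤
      (q + 1) * ((q + 2) * cnt r (q + 2)) + (q + 1 + Fintype.card V) * cnt r (q + 1) := by
    rw [hsq]
    calc ∑ S ∈ (fam r).filter (fun S => S.card = q + 1), ∑ x ∈ S, (av r (S.erase x)).card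
        ≤ ∑ S ∈ (fam r).filter (fun S => S.card = q + 1),
          ((q + 1) * (av r S).card + (q + 1 + Fintype.card V)) := by
          refine Finset.sum_le_sum fun S hS => ?_
          obtain ⟨h3, h4⟩ := Finset.mem_filter.mp hS
          have h5 := Lip_key r hs S (mem_fam.mp h3)
          rw [h4] at h5
          refine h5.trans (le_of_eq ?_)
          ring
      _ = _ := by
          rw [Finset.sum_add_distrib, ← Finset.mul_sum, hP2, Finset.sum_const, smul_eq_mul]
          have e : ((fam r).filter (fun S => S.card = q + 1)).card = cnt r (q + 1) := rfl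
          rw [e]
          ring
  have hcs : (∑ S ∈ (fam r).filter (fun S => S.card = q), (av r S).card) ^ 2 ≤
      cnt r q * ∑ S ∈ (fam r).filter (fun S => S.card = q), (av r S).card ^ 2 :=
    sq_sum_le_card_mul_sum_sq
  rw [hP1] at hcs
  have hmain : ((q + 1) * cnt r (q + 1)) ^ 2 ≤ cnt r q *
      ((q + 1) * ((q + 2) * cnt r (q + 2)) + (q + 1 + Fintype.card V) * cnt r (q + 1)) :=
    hcs.trans (Nat.mul_le_mul_left _ hle)
  have hdown := cnt_down r q
  have hqn : q + 1 ≤ Fintype.card V := by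
    by_contra hcon
    have := cnt_zero_of_lt r (q + 1) (by omega)
    omega
  have hm1 : (((q : ℝ) + 1) * cnt r (q + 1)) ^ 2 ≤ cnt r q *
      (((q : ℝ) + 1) * (((q : ℝ) + 2) * cnt r (q + 2)) +
        ((q : ℝ) + 1 + Fintype.card V) * cnt r (q + 1)) := by exact_mod_cast hmain
  have hm2 : ((q : ℝ) + 1) * cnt r (q + 1) ≤ (Fintype.card V : ℝ) * cnt r q := by
    exact_mod_cast hdown
  have hm3 : (q : ℝ) + 1 ≤ Fintype.card V := by exact_mod_cast hqn
  have ha : (0 : ℝ) < cnt r q := by exact_mod_cast h0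
  have hb : (0 : ℝ) < cnt r (q + 1) := by exact_mod_cast h1
  have hc : (0 : ℝ) ≤ cnt r (q + 2) := Nat.cast_nonneg _
  set a : ℝ := ((cnt r q : ℕ) : ℝ)
  set b : ℝ := ((cnt r (q + 1) : ℕ) : ℝ)
  set c : ℝ := ((cnt r (q + 2) : ℕ) : ℝ)
  set n : ℝ := ((Fintype.card V : ℕ) : ℝ)
  have hm0 : (1 : ℝ) ≤ (q : ℝ) + 1 := by
    have : (0 : ℝ) ≤ q := Nat.cast_nonneg q
    linarith
  have hq2 : (q : ℝ) + 2 = (q : ℝ) + 1 + 1 := by ring
  rw [hq2] at hm1
  set m : ℝ := (q : ℝ) + 1
  have hmpos : 0 < m := by linarith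
  -- divide
  have h5 : m * (b / a) / (m + 1) ≤ c / b + (m + n) / (m * (m + 1)) := by
    have e1 : m * (b / a) / (m + 1) = ((m * b) ^ 2) / (a * b * (m * (m + 1))) := by
      field_simp
    have e2 : c / b + (m + n) / (m * (m + 1)) =
        (a * (m * ((m + 1) * c) + (m + n) * b)) / (a * b * (m * (m + 1))) := by
      field_simp
    rw [e1, e2]
    exact div_le_div_of_nonneg_right hm1 (by positivity)
  have h6 : b / a ≤ n / m := by
    rw [div_le_div_iff₀ ha hmpos]
    linarith
  have h7 : m * (b / a) / (m + 1) = b / a - (b / a) / (m + 1) := by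
    field_simp
    ring
  have h8 : (b / a) / (m + 1) ≤ (n / m) / (m + 1) :=
    div_le_div_of_nonneg_right h6 (by linarith)
  have h9 : (n / m) / (m + 1) + (m + n) / (m * (m + 1)) ≤ 3 * n / m ^ 2 := by
    have e3 : (n / m) / (m + 1) + (m + n) / (m * (m + 1)) = (m + 2 * n) / (m * (m + 1)) := by
      field_simp
      ring
    rw [e3, div_le_div_iff₀ (by positivity) (by positivity)]
    have hn0 : 0 < n := by linarith
    nlinarith [mul_pos hmpos hmpos, mul_pos hn0 hmpos, mul_nonneg (mul_pos hmpos hmpos).le (sub_nonneg.2 hm3)]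
  linarith

end Pool.Agent.AMS
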