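import Mathlib

/-!
# AMS: module Fourier — from the characteristic function to local concavity (medium+, analysis)

`f φ = ∑_{k < M} P k cos(φ (k - q))`, real. `∫_0^π f(φ) (1 - cos φ) dφ = (π/2)(2 P q - P (q-1) - P (q+1))`
(`1 ≤ q`, `q + 1 < M`; for integers `j`: `∫_0^π cos(jφ)(1 - cos φ) dφ` is `π` for `j = 0`, `-π/2` for
`j = ±1`, `0` otherwise). So it suffices that the integral is `≥ 0`. Let `a = n^{-1/2}`.
* `[0, a]`: `f ≥ e^{-6} - ε` (as `φ² s2/2 ≤ 6`), `1 - cos φ ≥ 2φ²/π²`, `≤ φ²/2`.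
* `[a, A a]`: `f ≥ -ε`, `0 ≤ 1 - cos φ ≤ φ²/2`.
* `[A a, π]`: `|f| ≤ exp(-c n φ²) ≤ 1/(c n φ²)²` (`y² ≤ e^y`), so the integrand is
  `≥ -1/(2 c² n² φ²)`, with integral `≥ -1/(2 c² n² A a) = -a³/(2 c² A)`.
Total `≥ a³ [e^{-6} 2/(3π²) - ε A³/6 - 1/(2 c² A)]`. Choose `A` large (also `A ≥ 1`), then `ε` small.
Take `N` such that `A a ≤ π` for `n ≥ N` (or treat `A a > π` trivially).
-/

open Finset

namespace Pool.Agent.AMS

private theorem Fourier_intcos (m : ℤ) :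
    ∫ φ in (0 : ℝ)..Real.pi, Real.cos (m * φ) = if m = 0 then Real.pi else 0 := by
  by_cases hm : m = 0
  · simp [hm]
  · rw [if_neg hm]
    have hm' : (m : ℝ) ≠ 0 := by exact_mod_cast hm
    rw [intervalIntegral.integral_comp_mul_left (fun x => Real.cos x) hm', integral_cos]
    simp [Real.sin_int_mul_pi]

private theorem Fourier_coef (j : ℤ) :
    ∫ φ in (0 : ℝ)..Real.pi, Real.cos (j * φ) * (1 - Real.cos φ)
      = (if j = 0 then Real.pi else 0)
        - ((if j + 1 = 0 then Real.pi else 0) + (if j - 1 = 0 then Real.pi else 0)) / 2 := by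
  have h1 : ∀ φ : ℝ, Real.cos (j * φ) * (1 - Real.cos φ)
      = Real.cos (j * φ) - (Real.cos (((j + 1 : ℤ) : ℝ) * φ) + Real.cos (((j - 1 : ℤ) : ℝ) * φ)) / 2 := by
    intro φ
    push_cast
    rw [add_mul, sub_mul, one_mul, Real.cos_add, Real.cos_sub]
    ring
  simp_rw [h1]
  have hc : ∀ m : ℤ, IntervalIntegrable (fun φ : ℝ => Real.cos ((m : ℝ) * φ)) MeasureTheory.volume 0 Real.pi := by
    intro m
    apply Continuous.intervalIntegrable
    fun_prop
  rw [intervalIntegral.integral_sub (hc j) (((hc (j+1)).add (hc (j-1))).div_const 2),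
    intervalIntegral.integral_div, intervalIntegral.integral_add (hc (j+1)) (hc (j-1)),
    Fourier_intcos, Fourier_intcos, Fourier_intcos]

private theorem Fourier_total (M q : ℕ) (P : ℕ → ℝ) (hq : 1 ≤ q) (hM : q + 1 < M) :
    ∫ φ in (0 : ℝ)..Real.pi, (∑ k ∈ range M, P k * Real.cos (φ * ((k : ℝ) - q))) * (1 - Real.cos φ)
      = Real.pi / 2 * (2 * P q - (P (q - 1) + P (q + 1))) := by
  have h1 : ∀ φ : ℝ, (∑ k ∈ range M, P k * Real.cos (φ * ((k : ℝ) - q))) * (1 - Real.cos φ)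
      = ∑ k ∈ range M, P k * (Real.cos ((((k : ℤ) - (q : ℤ) : ℤ) : ℝ) * φ) * (1 - Real.cos φ)) := by
    intro φ
    rw [Finset.sum_mul]
    apply Finset.sum_congr rfl
    intro k _
    push_cast
    rw [mul_comm φ]
    ring
  simp_rw [h1]
  rw [intervalIntegral.integral_finsetSum]
  · simp_rw [intervalIntegral.integral_const_mul, Fourier_coef]
    have h2 : ∀ k ∈ range M, P k * ((if (k : ℤ) - (q : ℤ) = 0 then Real.pi else 0)
        - ((if (k : ℤ) - (q : ℤ) + 1 = 0 then Real.pi else 0)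
          + (if (k : ℤ) - (q : ℤ) - 1 = 0 then Real.pi else 0)) / 2)
        = (if k = q then P k * Real.pi else 0) - (if k = q - 1 then P k * Real.pi / 2 else 0)
          - (if k = q + 1 then P k * Real.pi / 2 else 0) := by
      intro k _
      have e1 : (k : ℤ) - (q : ℤ) = 0 ↔ k = q := by omega
      have e2 : (k : ℤ) - (q : ℤ) + 1 = 0 ↔ k = q - 1 := by omega
      have e3 : (k : ℤ) - (q : ℤ) - 1 = 0 ↔ k = q + 1 := by omega
      simp only [e1, e2, e3]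
      split_ifs <;> ring
    rw [Finset.sum_congr rfl h2, Finset.sum_sub_distrib, Finset.sum_sub_distrib,
      Finset.sum_ite_eq', Finset.sum_ite_eq', Finset.sum_ite_eq']
    rw [if_pos (Finset.mem_range.2 (by omega)), if_pos (Finset.mem_range.2 (by omega)),
      if_pos (Finset.mem_range.2 (by omega))]
    ring
  · intro k _
    apply Continuous.intervalIntegrable
    fun_prop

theorem fourier (c : ℝ) (hc : 0 < c) : ∃ A ε : ℝ, 0 < A ∧ 0 < ε ∧ ∃ N : ℕ,
    ∀ (n M q : ℕ) (P : ℕ → ℝ) (s2 : ℝ), N ≤ n → 1 ≤ q → q + 1 < M → 0 ≤ s2 → s2 ≤ 12 * n →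
      (∀ φ : ℝ, φ ^ 2 * n ≤ A ^ 2 →
        |∑ k ∈ range M, P k * Real.cos (φ * ((k : ℝ) - q)) - Real.exp (-(φ ^ 2 * s2 / 2))| ≤ ε) →
      (∀ φ : ℝ, |φ| ≤ Real.pi →
        |∑ k ∈ range M, P k * Real.cos (φ * ((k : ℝ) - q))| ≤ Real.exp (-(c * n * φ ^ 2))) →
      P (q - 1) + P (q + 1) ≤ 2 * P q := by
  set κ : ℝ := 2 * Real.exp (-6) / (3 * Real.pi ^ 2) with hκ
  have hπ := Real.pi_pos
  have hκ0 : 0 < κ := by positivity
  set A : ℝ := max 1 (2 / (c ^ 2 * κ)) with hA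
  have hA1 : 1 ≤ A := le_max_left _ _
  have hA0 : 0 < A := by linarith
  have hAc : 1 / (c ^ 2 * A) ≤ κ / 2 := by
    have h1 : 2 / (c ^ 2 * κ) ≤ A := le_max_right _ _
    rw [div_le_iff₀ (by positivity)] at h1
    rw [div_le_iff₀ (by positivity)]
    nlinarith
  refine ⟨A, 3 * κ / A ^ 3, hA0, by positivity, ⌈A ^ 2⌉₊, ?_⟩
  intro n M q P s2 hn hq hM hs0 hs2 h1 h2
  set ε : ℝ := 3 * κ / A ^ 3 with hε
  have hε0 : 0 < ε := by positivity
  have hnA : A ^ 2 ≤ (n : ℝ) := (Nat.le_ceil _).trans (by exact_mod_cast hn)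
  have hn0 : (0 : ℝ) < n := lt_of_lt_of_le (by positivity) hnA
  set f : ℝ → ℝ := fun φ => ∑ k ∈ range M, P k * Real.cos (φ * ((k : ℝ) - q)) with hf
  have hfc : Continuous f := by
    rw [hf]
    fun_prop
  set g : ℝ → ℝ := fun φ => f φ * (1 - Real.cos φ) with hg
  have hgc : Continuous g := by
    rw [hg]
    fun_prop
  set a : ℝ := 1 / Real.sqrt n with ha
  have hsq : 0 < Real.sqrt n := Real.sqrt_pos.2 hn0
  have ha0 : 0 < a := by positivity
  have ha2 : a ^ 2 * n = 1 := by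
    rw [ha, div_pow, one_pow, Real.sq_sqrt hn0.le]
    field_simp
  have hAa : A * a ≤ Real.pi := by
    have h3 : (A * a) ^ 2 ≤ 1 := by
      have : (A * a) ^ 2 * n = A ^ 2 := by rw [mul_pow, mul_assoc, ha2, mul_one]
      by_contra hcon
      push Not at hcon
      nlinarith
    have h4 : A * a ≤ 1 := by
      by_contra hcon
      push Not at hcon
      nlinarith
    linarith [Real.pi_gt_three]
  have haA : a ≤ A * a := by nlinarith
  have hcos1 : ∀ φ : ℝ, 1 - Real.cos φ ≤ φ ^ 2 / 2 := by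
    intro φ
    linarith [Real.one_sub_sq_div_two_le_cos (x := φ)]
  have hcos0 : ∀ φ : ℝ, 0 ≤ 1 - Real.cos φ := by
    intro φ
    linarith [Real.cos_le_one φ]
  have hcos2 : ∀ φ : ℝ, |φ| ≤ Real.pi → 2 / Real.pi ^ 2 * φ ^ 2 ≤ 1 - Real.cos φ := by
    intro φ hφ
    linarith [Real.cos_le_one_sub_mul_cos_sq hφ]
  -- lower bounds
  have hI1 : ∀ φ ∈ Set.Icc (0 : ℝ) a, (2 * Real.exp (-6) / Real.pi ^ 2 - ε / 2) * φ ^ 2 ≤ g φ := by
    intro φ hφ
    have h3 : φ ^ 2 * n ≤ 1 := by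
      have : φ ^ 2 ≤ a ^ 2 := pow_le_pow_left₀ hφ.1 hφ.2 2
      nlinarith
    have h4 := h1 φ (h3.trans (by nlinarith))
    have h5 : Real.exp (-6) ≤ Real.exp (-(φ ^ 2 * s2 / 2)) := by
      apply Real.exp_le_exp.2
      have : φ ^ 2 * s2 ≤ φ ^ 2 * (12 * n) := mul_le_mul_of_nonneg_left hs2 (sq_nonneg _)
      nlinarith
    have h6 : Real.exp (-6) - ε ≤ f φ := by
      have := (abs_le.1 h4).1
      show _ ≤ ∑ k ∈ range M, P k * Real.cos (φ * ((k : ℝ) - q))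
      linarith
    have h7 := hcos2 φ (by rw [abs_of_nonneg hφ.1]; linarith [hφ.2])
    have h8 := hcos1 φ
    have h9 := hcos0 φ
    show _ ≤ f φ * (1 - Real.cos φ)
    have h10 : (Real.exp (-6) - ε) * (1 - Real.cos φ) ≤ f φ * (1 - Real.cos φ) :=
      mul_le_mul_of_nonneg_right h6 h9
    have h11 : Real.exp (-6) * (2 / Real.pi ^ 2 * φ ^ 2) ≤ Real.exp (-6) * (1 - Real.cos φ) :=
      mul_le_mul_of_nonneg_left h7 (Real.exp_pos _).le
    have h12 : ε * (1 - Real.cos φ) ≤ ε * (φ ^ 2 / 2) := mul_le_mul_of_nonneg_left h8 hε0.le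
    have h13 : (2 * Real.exp (-6) / Real.pi ^ 2 - ε / 2) * φ ^ 2
        = Real.exp (-6) * (2 / Real.pi ^ 2 * φ ^ 2) - ε * (φ ^ 2 / 2) := by ring
    rw [h13]
    linarith
  have hI2 : ∀ φ ∈ Set.Icc a (A * a), (- ε / 2) * φ ^ 2 ≤ g φ := by
    intro φ hφ
    have hφ0 : 0 ≤ φ := ha0.le.trans hφ.1
    have h3 : φ ^ 2 * n ≤ A ^ 2 := by
      have : φ ^ 2 ≤ (A * a) ^ 2 := pow_le_pow_left₀ hφ0 hφ.2 2
      have h4 : (A * a) ^ 2 * n = A ^ 2 := by rw [mul_pow, mul_assoc, ha2, mul_one]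
      nlinarith
    have h4 := h1 φ h3
    have h5 := Real.exp_pos (-(φ ^ 2 * s2 / 2))
    have h6 : - ε ≤ f φ := by
      have := (abs_le.1 h4).1
      show _ ≤ ∑ k ∈ range M, P k * Real.cos (φ * ((k : ℝ) - q))
      linarith
    have h8 := hcos1 φ
    have h9 := hcos0 φ
    show _ ≤ f φ * (1 - Real.cos φ)
    have h10 : (- ε) * (1 - Real.cos φ) ≤ f φ * (1 - Real.cos φ) :=
      mul_le_mul_of_nonneg_right h6 h9
    have h12 : ε * (1 - Real.cos φ) ≤ ε * (φ ^ 2 / 2) := mul_le_mul_of_nonneg_left h8 hε0.le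
    linarith
  have hI3 : ∀ φ ∈ Set.Icc (A * a) Real.pi, - (1 / (c ^ 2 * n ^ 2)) / φ ^ 2 ≤ g φ := by
    intro φ hφ
    have hφ0 : 0 < φ := lt_of_lt_of_le (by positivity) hφ.1
    have h3 := h2 φ (by rw [abs_of_pos hφ0]; exact hφ.2)
    have h8 := hcos1 φ
    have h9 := hcos0 φ
    set y : ℝ := c * n * φ ^ 2 with hy
    have hy0 : 0 < y := by positivity
    have h4 : Real.exp (-y) ≤ 2 / y ^ 2 := by
      rw [Real.exp_neg, ← one_div, div_le_div_iff₀ (Real.exp_pos _) (by positivity)]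
      have := Real.quadratic_le_exp_of_nonneg hy0.le
      nlinarith
    have h5 : - (2 / y ^ 2) ≤ f φ := by
      have := (abs_le.1 h3).1
      show _ ≤ ∑ k ∈ range M, P k * Real.cos (φ * ((k : ℝ) - q))
      linarith
    show _ ≤ f φ * (1 - Real.cos φ)
    have h10 : (- (2 / y ^ 2)) * (1 - Real.cos φ) ≤ f φ * (1 - Real.cos φ) :=
      mul_le_mul_of_nonneg_right h5 h9
    have h12 : (2 / y ^ 2) * (1 - Real.cos φ) ≤ (2 / y ^ 2) * (φ ^ 2 / 2) :=
      mul_le_mul_of_nonneg_left h8 (by positivity)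
    have h13 : - (1 / (c ^ 2 * n ^ 2)) / φ ^ 2 = - ((2 / y ^ 2) * (φ ^ 2 / 2)) := by
      rw [hy]
      field_simp
    rw [h13]
    linarith
  have hii : ∀ x y : ℝ, IntervalIntegrable g MeasureTheory.volume x y := fun x y =>
    hgc.intervalIntegrable x y
  have hpc : ∀ (C x y : ℝ), IntervalIntegrable (fun φ : ℝ => C * φ ^ 2) MeasureTheory.volume x y := by
    intro C x y
    apply Continuous.intervalIntegrable
    fun_prop
  have J1 : (2 * Real.exp (-6) / Real.pi ^ 2 - ε / 2) * (a ^ 3 / 3) ≤ ∫ φ in (0 : ℝ)..a, g φ := by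
    have := intervalIntegral.integral_mono_on ha0.le (hpc _ _ _) (hii 0 a) hI1
    rw [intervalIntegral.integral_const_mul, integral_pow] at this
    norm_num at this
    linarith
  have J2 : (- ε / 2) * (((A * a) ^ 3 - a ^ 3) / 3) ≤ ∫ φ in a..(A * a), g φ := by
    have := intervalIntegral.integral_mono_on haA (hpc _ _ _) (hii a (A * a)) hI2
    rw [intervalIntegral.integral_const_mul, integral_pow] at this
    norm_num at this
    linarith
  have J3 : - (1 / (c ^ 2 * n ^ 2)) * (1 / (A * a)) ≤ ∫ φ in (A * a)..Real.pi, g φ := by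
    have hAa0 : 0 < A * a := by positivity
    have hcont : ContinuousOn (fun φ : ℝ => - (1 / (c ^ 2 * n ^ 2)) / φ ^ 2) (Set.uIcc (A * a) Real.pi) := by
      rw [Set.uIcc_of_le hAa]
      apply ContinuousOn.div continuousOn_const (by fun_prop)
      intro φ hφ
      have : 0 < φ := lt_of_lt_of_le hAa0 hφ.1
      positivity
    have h3 := intervalIntegral.integral_mono_on hAa hcont.intervalIntegrable (hii (A * a) Real.pi) hI3
    have h4 : ∫ φ in (A * a)..Real.pi, - (1 / (c ^ 2 * n ^ 2)) / φ ^ 2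
        = (1 / (c ^ 2 * n ^ 2)) / Real.pi - (1 / (c ^ 2 * n ^ 2)) / (A * a) := by
      apply intervalIntegral.integral_eq_sub_of_hasDerivAt (f := fun φ : ℝ => (1 / (c ^ 2 * n ^ 2)) / φ)
      · intro φ hφ
        rw [Set.uIcc_of_le hAa] at hφ
        have hφ0 : φ ≠ 0 := (lt_of_lt_of_le hAa0 hφ.1).ne'
        have := (hasDerivAt_inv hφ0).const_mul (1 / (c ^ 2 * (n : ℝ) ^ 2))
        have e1 : (fun φ : ℝ => (1 / (c ^ 2 * (n : ℝ) ^ 2)) / φ)
            = fun φ : ℝ => (1 / (c ^ 2 * (n : ℝ) ^ 2)) * φ⁻¹ := by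
          funext x; rw [div_eq_mul_inv]
        have e2 : - (1 / (c ^ 2 * (n : ℝ) ^ 2)) / φ ^ 2
            = (1 / (c ^ 2 * (n : ℝ) ^ 2)) * -(φ ^ 2)⁻¹ := by
          rw [div_eq_mul_inv]; ring
        rw [e1, e2]
        exact this
      · exact hcont.intervalIntegrable
    rw [h4] at h3
    have h5 : 0 ≤ (1 / (c ^ 2 * (n : ℝ) ^ 2)) / Real.pi := by positivity
    have h6 : - (1 / (c ^ 2 * (n : ℝ) ^ 2)) * (1 / (A * a)) = - ((1 / (c ^ 2 * (n : ℝ) ^ 2)) / (A * a)) := by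
      ring
    rw [h6]
    linarith
  have hsum : ∫ φ in (0 : ℝ)..Real.pi, g φ
      = (∫ φ in (0 : ℝ)..a, g φ) + (∫ φ in a..(A * a), g φ) + ∫ φ in (A * a)..Real.pi, g φ := by
    rw [intervalIntegral.integral_add_adjacent_intervals (hii _ _) (hii _ _),
      intervalIntegral.integral_add_adjacent_intervals (hii _ _) (hii _ _)]
  have htot := Fourier_total M q P hq hM
  have htot' : ∫ φ in (0 : ℝ)..Real.pi, g φ = Real.pi / 2 * (2 * P q - (P (q - 1) + P (q + 1))) := htot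
  have hn3 : (1 / (c ^ 2 * (n : ℝ) ^ 2)) * (1 / (A * a)) = a ^ 3 * (1 / (c ^ 2 * A)) := by
    have h3 : (n : ℝ) = 1 / a ^ 2 := by
      rw [eq_div_iff (by positivity)]; linarith
    rw [h3]
    field_simp
  have hfin : 0 ≤ ∫ φ in (0 : ℝ)..Real.pi, g φ := by
    rw [hsum]
    have h3 : (2 * Real.exp (-6) / Real.pi ^ 2 - ε / 2) * (a ^ 3 / 3)
        + (- ε / 2) * (((A * a) ^ 3 - a ^ 3) / 3) + - (1 / (c ^ 2 * n ^ 2)) * (1 / (A * a))
        = a ^ 3 * (κ - ε * A ^ 3 / 6 - 1 / (c ^ 2 * A)) := by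
      rw [neg_mul, hn3, hκ]
      ring
    have h4 : ε * A ^ 3 / 6 = κ / 2 := by
      rw [hε]
      field_simp
      norm_num
    have h5 : 0 ≤ a ^ 3 * (κ - ε * A ^ 3 / 6 - 1 / (c ^ 2 * A)) := by
      apply mul_nonneg (by positivity)
      rw [h4]
      linarith
    linarith
  rw [htot'] at hfin
  have h3 : 0 ≤ 2 * P q - (P (q - 1) + P (q + 1)) := by
    by_contra hcon
    push Not at hcon
    nlinarith
  linarith

end Pool.Agent.AMS
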