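import Mathlib
import Pool.Agent.AMS.Defs

/-!
# AMS: module SmA — lowering the activity on a set of low-degree vertices (medium)

Nonnegative weights `a : V → ℝ`, `Z(a) = ∑_{S independent} ∏_{v ∈ S} a v`.
(1) For a vertex `b` let `Z_out = ∑_{S ∌ b}`, `Z_in = ∑_{S ∋ b} ∏_{v ∈ S, v ≠ b} a v
 = ∑_{S : S ∩ ({b} ∪ nbrs b) = ∅} ∏_S a`. If all `a w ≤ x` and `dg b ≤ Δ` then
`Z_out ≤ (1 + x)^Δ Z_in`: for any set `U` and `w ∉ U`,
`∑_{S ∩ U = ∅} ≤ (1 + x) ∑_{S ∩ (U ∪ {w}) = ∅}` (map `S ∋ w` to `S \ {w}`); remove the `≤ Δ`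
neighbours of `b` one by one starting from `U = {b}`.
(2) Changing the weight of `b` from `x` to `x' ≤ x`: `Z(a') = Z(a) - (x - x') Z_in` and
`Z(a) = Z_out + x Z_in ≤ ((1+x)^Δ + x) Z_in ≤ (1 + x)(1+x)^Δ Z_in`, so
`Z(a') ≤ Z(a) (1 - (x-x')/((1+x)(1+x)^Δ)) ≤ Z(a) exp(-(x-x')/((1+x)(1+x)^Δ))`.
(3) Do this for the vertices of `B` one after the other (`Finset.induction_on`).
-/

open Finset

namespace Pool.Agent.AMS

variable {V : Type} [Fintype V] [DecidableEq V]

/-- Weight of the independent sets disjoint from `U`. -/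
noncomputable def smW (r : V → V → Prop) (w : V → ℝ) (U : Finset V) : ℝ :=
  ∑ S ∈ (fam r).filter (fun S => Disjoint S U), ∏ v ∈ S, w v

theorem smW_empty (r : V → V → Prop) (w : V → ℝ) : smW r w ∅ = ∑ S ∈ fam r, ∏ v ∈ S, w v := by
  unfold smW
  rw [Finset.filter_true_of_mem]
  intro S _
  exact Finset.disjoint_empty_right S

theorem smW_nonneg (r : V → V → Prop) (w : V → ℝ) (hw : ∀ v, 0 ≤ w v) (U : Finset V) :
    0 ≤ smW r w U := Finset.sum_nonneg fun S _ => Finset.prod_nonneg fun v _ => hw v

theorem ind_erase {r : V → V → Prop} {S : Finset V} (h : Ind r S) (v : V) : Ind r (S.erase v) :=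
  fun u hu u' hu' => h u (Finset.mem_of_mem_erase hu) u' (Finset.mem_of_mem_erase hu')

theorem smW_step (r : V → V → Prop) (w : V → ℝ) (hw : ∀ v, 0 ≤ w v) (U : Finset V) (v : V) :
    smW r w U ≤ (1 + w v) * smW r w (insert v U) := by
  classical
  unfold smW
  rw [← Finset.sum_filter_add_sum_filter_not ((fam r).filter (fun S => Disjoint S U)) (fun S => v ∈ S)]
  have h1 : ∑ S ∈ ((fam r).filter (fun S => Disjoint S U)).filter (fun S => v ∉ S), ∏ u ∈ S, w u ≤
      ∑ S ∈ (fam r).filter (fun S => Disjoint S (insert v U)), ∏ u ∈ S, w u := by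
    apply Finset.sum_le_sum_of_subset_of_nonneg
    · intro S hS
      simp only [Finset.mem_filter] at hS ⊢
      refine ⟨hS.1.1, ?_⟩
      rw [Finset.disjoint_insert_right]
      exact ⟨hS.2, hS.1.2⟩
    · intro S _ _
      exact Finset.prod_nonneg fun u _ => hw u
  have h2 : ∑ S ∈ ((fam r).filter (fun S => Disjoint S U)).filter (fun S => v ∈ S), ∏ u ∈ S, w u ≤
      w v * ∑ S ∈ (fam r).filter (fun S => Disjoint S (insert v U)), ∏ u ∈ S, w u := by
    rw [Finset.mul_sum]
    have h3 : ∀ S ∈ ((fam r).filter (fun S => Disjoint S U)).filter (fun S => v ∈ S),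
        ∏ u ∈ S, w u = w v * ∏ u ∈ S.erase v, w u := by
      intro S hS
      exact (Finset.mul_prod_erase S w (Finset.mem_filter.mp hS).2).symm
    rw [Finset.sum_congr rfl h3]
    have h4 : ∑ S ∈ ((fam r).filter (fun S => Disjoint S U)).filter (fun S => v ∈ S),
        w v * ∏ u ∈ S.erase v, w u =
        ∑ T ∈ (((fam r).filter (fun S => Disjoint S U)).filter (fun S => v ∈ S)).image
          (fun S => S.erase v), w v * ∏ u ∈ T, w u := by
      rw [Finset.sum_image]
      intro S hS S' hS' he
      simp only [Finset.coe_filter, Set.mem_setOf_eq] at hS hS'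
      have he' : S.erase v = S'.erase v := he
      rw [← Finset.insert_erase hS.2, ← Finset.insert_erase hS'.2, he']
    rw [h4]
    apply Finset.sum_le_sum_of_subset_of_nonneg
    · intro T hT
      simp only [Finset.mem_image, Finset.mem_filter] at hT ⊢
      obtain ⟨S, ⟨⟨hS, hSU⟩, _⟩, rfl⟩ := hT
      refine ⟨mem_fam.mpr (ind_erase (mem_fam.mp hS) v), ?_⟩
      rw [Finset.disjoint_insert_right]
      exact ⟨Finset.notMem_erase v S, Finset.disjoint_of_subset_left (Finset.erase_subset v S) hSU⟩
    · intro S _ _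
      exact mul_nonneg (hw v) (Finset.prod_nonneg fun u _ => hw u)
  linarith

theorem smW_many (r : V → V → Prop) (w : V → ℝ) (hw : ∀ v, 0 ≤ w v) (x : ℝ) (hwx : ∀ v, w v ≤ x)
    (U N : Finset V) : smW r w U ≤ (1 + x) ^ N.card * smW r w (N ∪ U) := by
  classical
  induction N using Finset.induction_on with
  | empty => simp
  | insert v N hv ih =>
    rw [Finset.card_insert_of_notMem hv, Finset.insert_union]
    have hx : 0 ≤ x := le_trans (hw v) (hwx v)
    have h1 := smW_step r w hw (N ∪ U) v
    have h2 : (1 + w v) * smW r w (insert v (N ∪ U)) ≤ (1 + x) * smW r w (insert v (N ∪ U)) :=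
      mul_le_mul_of_nonneg_right (by linarith [hwx v]) (smW_nonneg r w hw _)
    calc smW r w U ≤ (1 + x) ^ N.card * smW r w (N ∪ U) := ih
      _ ≤ (1 + x) ^ N.card * ((1 + x) * smW r w (insert v (N ∪ U))) :=
          mul_le_mul_of_nonneg_left (h1.trans h2) (by positivity)
      _ = _ := by ring

open Classical in
/-- neighbours -/
noncomputable def smN (r : V → V → Prop) (v : V) : Finset V :=
  univ.filter (fun u => u ≠ v ∧ r v u)

theorem smW_split (r : V → V → Prop) (hs : ∀ u v, r u v → r v u) (w : V → ℝ) (b : V) :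
    smW r w ∅ = smW r w {b} + w b * smW r w (smN r b ∪ {b}) := by
  classical
  rw [smW_empty]
  unfold smW
  rw [← Finset.sum_filter_add_sum_filter_not (fam r) (fun S => b ∈ S), add_comm]
  congr 1
  · apply Finset.sum_congr _ fun _ _ => rfl
    ext S
    simp only [Finset.mem_filter, Finset.disjoint_singleton_right]
  · rw [Finset.mul_sum]
    refine Finset.sum_bij' (fun S _ => S.erase b) (fun T _ => insert b T) ?_ ?_ ?_ ?_ ?_
    · intro S hS
      simp only [Finset.mem_filter] at hS ⊢
      have hI := mem_fam.mp hS.1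
      refine ⟨mem_fam.mpr (ind_erase hI b), ?_⟩
      rw [Finset.disjoint_left]
      intro u hu hu'
      have hub : u ≠ b := Finset.ne_of_mem_erase hu
      rw [Finset.mem_union, Finset.mem_singleton] at hu'
      rcases hu' with h | h
      · have h2 : u ≠ b ∧ r b u := by simpa [smN] using h
        exact hI b hS.2 u (Finset.mem_of_mem_erase hu) (Ne.symm hub) h2.2
      · exact hub h
    · intro T hT
      simp only [Finset.mem_filter] at hT ⊢
      have hI := mem_fam.mp hT.1
      refine ⟨mem_fam.mpr ?_, Finset.mem_insert_self b T⟩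
      have hd := Finset.disjoint_left.mp hT.2
      have hnb : ∀ u ∈ T, u ≠ b → ¬ r b u := by
        intro u hu hub hr
        apply hd hu
        rw [Finset.mem_union]
        left
        simp [smN, hub, hr]
      intro u hu v hv huv
      rw [Finset.mem_insert] at hu hv
      rcases hu with rfl | hu
      · rcases hv with rfl | hv
        · exact absurd rfl huv
        · exact hnb v hv (Ne.symm huv)
      · rcases hv with rfl | hv
        · intro hr
          exact hnb u hu huv (hs _ _ hr)
        · exact hI u hu v hv huv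
    · intro S hS
      simp only [Finset.mem_filter] at hS
      exact Finset.insert_erase hS.2
    · intro T hT
      simp only [Finset.mem_filter] at hT
      have hd := Finset.disjoint_left.mp hT.2
      apply Finset.erase_insert
      intro hb
      exact hd hb (by simp)
    · intro S hS
      simp only [Finset.mem_filter] at hS
      exact (Finset.mul_prod_erase S w hS.2).symm

theorem smW_congr (r : V → V → Prop) (w w' : V → ℝ) (U : Finset V) (h : ∀ v, v ∉ U → w v = w' v) :
    smW r w U = smW r w' U := by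
  unfold smW
  apply Finset.sum_congr rfl
  intro S hS
  apply Finset.prod_congr rfl
  intro v hv
  exact h v (Finset.disjoint_left.mp (Finset.mem_filter.mp hS).2 hv)

theorem smA (r : V → V → Prop) (hs : ∀ u v, r u v → r v u) (B : Finset V) (Δ : ℕ)
    (hdeg : ∀ b ∈ B, dg r b ≤ Δ) (x x' : ℝ) (hx : 0 < x) (hx0 : 0 ≤ x') (hxx : x' ≤ x) :
    ∑ S ∈ fam r, ∏ v ∈ S, (if v ∈ B then x' else x) ≤
      Real.exp (-((B.card : ℝ) * ((x - x') / ((1 + x) * (1 + x) ^ Δ)))) * Zx r x := by
  classical
  induction B using Finset.induction_on with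
  | empty =>
    simp [Zx]
  | insert b B hb ih =>
    have ih' := ih (fun u hu => hdeg u (Finset.mem_insert_of_mem hu))
    set c : ℝ := (x - x') / ((1 + x) * (1 + x) ^ Δ) with hc
    set w : V → ℝ := fun v => if v ∈ B then x' else x with hw
    set w' : V → ℝ := fun v => if v ∈ insert b B then x' else x with hw'
    have hwb : w b = x := by simp [hw, hb]
    have hwb' : w' b = x' := by simp [hw']
    have hw0 : ∀ v, 0 ≤ w v := by
      intro v; simp only [hw]; split_ifs <;> linarith
    have hwx : ∀ v, w v ≤ x := by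
      intro v; simp only [hw]; split_ifs <;> linarith
    have hww : ∀ v, v ≠ b → w v = w' v := by
      intro v hv
      simp only [hw, hw', Finset.mem_insert, hv, false_or]
    have e1 := smW_split r hs w b
    have e2 := smW_split r hs w' b
    have e3 : smW r w {b} = smW r w' {b} :=
      smW_congr r w w' {b} (fun v hv => hww v (by simpa using hv))
    have e4 : smW r w (smN r b ∪ {b}) = smW r w' (smN r b ∪ {b}) :=
      smW_congr r w w' _ (fun v hv => hww v (by
        intro h; apply hv; simp [h]))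
    rw [hwb] at e1
    rw [hwb', ← e3, ← e4] at e2
    set I := smW r w (smN r b ∪ {b}) with hI
    have hI0 : 0 ≤ I := smW_nonneg r w hw0 _
    have e5 : smW r w {b} ≤ (1 + x) ^ Δ * I := by
      refine (smW_many r w hw0 x hwx {b} (smN r b)).trans ?_
      apply mul_le_mul_of_nonneg_right _ hI0
      apply pow_le_pow_right₀ (by linarith)
      have : (smN r b).card = dg r b := by
        unfold smN dg
        rfl
      rw [this]
      exact hdeg b (Finset.mem_insert_self b B)
    have hp1 : 1 ≤ (1 + x) ^ Δ := one_le_pow₀ (by linarith)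
    have hP : 0 < (1 + x) * (1 + x) ^ Δ := by positivity
    have e6 : smW r w ∅ ≤ ((1 + x) * (1 + x) ^ Δ) * I := by
      rw [e1]
      have : x * I ≤ x * (1 + x) ^ Δ * I := by
        apply mul_le_mul_of_nonneg_right _ hI0
        nlinarith
      nlinarith
    have e7 : smW r w' ∅ ≤ (1 - c) * smW r w ∅ := by
      have h1 : smW r w' ∅ = smW r w ∅ - (x - x') * I := by rw [e1, e2]; ring
      have h2 : c * smW r w ∅ ≤ (x - x') * I := by
        rw [hc, div_mul_eq_mul_div, div_le_iff₀ hP]
        have := mul_le_mul_of_nonneg_left e6 (sub_nonneg.mpr hxx)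
        nlinarith
      rw [h1]; linarith
    have e8 : 1 - c ≤ Real.exp (-c) := by
      have := Real.add_one_le_exp (-c)
      linarith
    have hZ0 : 0 ≤ smW r w ∅ := smW_nonneg r w hw0 _
    rw [smW_empty] at e7 hZ0
    rw [smW_empty] at e7
    have e9 : ∑ S ∈ fam r, ∏ v ∈ S, w' v ≤ Real.exp (-c) * ∑ S ∈ fam r, ∏ v ∈ S, w v :=
      e7.trans (mul_le_mul_of_nonneg_right e8 hZ0)
    calc ∑ S ∈ fam r, ∏ v ∈ S, w' v ≤ Real.exp (-c) * ∑ S ∈ fam r, ∏ v ∈ S, w v := e9
      _ ≤ Real.exp (-c) * (Real.exp (-((B.card : ℝ) * c)) * Zx r x) :=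
          mul_le_mul_of_nonneg_left ih' (Real.exp_pos _).le
      _ = _ := by
          rw [← mul_assoc, ← Real.exp_add, Finset.card_insert_of_notMem hb]
          congr 2
          push_cast
          ring

end Pool.Agent.AMS
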