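import Mathlib
import Pool.Agent.AMS.Defs
import Pool.Agent.AMS.CntLink
import Pool.Agent.AMS.SmA

/-!
# AMS: module Smooth — decay of the characteristic function (medium)

(1) `smB`: for `z : ℂ`, `x = ‖z‖`, `x' ≥ 0` with `‖1 + z‖ ≤ 1 + x'` and `B` independent:
`‖∑_S z^|S|‖ ≤ ∑_S ∏_{v∈S} (if v ∈ B then x' else x)`. Group the independent sets by `S₀ = S \ B`: those
with a given independent `S₀` (disjoint from `B`) are `S₀ ∪ W`, `W` any subset of
`F(S₀) = {b ∈ B : b has no conflict with S₀}`; the inner sum is `z^|S₀| (1+z)^|F|` resp.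
`x^|S₀| (1+x')^|F|`.
(2) With `z = x e^{iφ}`, `θ = x/(1+x)`, `|1+z|² = (1+x)² (1 - 2θ(1-θ)(1 - cos φ))`. Put
`ρ = max(|1+z|/(1+x), 1/(1+x))`, `1 + x' = (1+x) ρ`. Then `1 - ρ ≥ θ(1-θ) φ²/π²` for `|φ| ≤ π`
(`1 - cos φ ≥ 2φ²/π²`, `1 - ρ ≥ (1-ρ²)/2`; and `θ ≥ θ(1-θ) φ²/π²`). `(x - x')/(1+x) = 1 - ρ`. Apply
`smA`. The factor `e^{-iφm}` has modulus 1.
-/

open Finset

namespace Pool.Agent.AMS

variable {V : Type} [Fintype V] [DecidableEq V]

/-- vertices of `B` without conflict with `S` -/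
noncomputable def Smooth_F (r : V → V → Prop) (B S : Finset V) : Finset V := by
  classical exact B.filter (fun b => ∀ v ∈ S, ¬ r v b)

lemma Smooth_group (r : V → V → Prop) (hs : ∀ u v, r u v → r v u) (B : Finset V) (hB : Ind r B)
    {M : Type} [AddCommMonoid M] (g : Finset V → M) :
    ∑ S ∈ fam r, g S = ∑ S₀ ∈ (fam r).filter (fun S => Disjoint S B),
      ∑ W ∈ (Smooth_F r B S₀).powerset, g (S₀ ∪ W) := by
  classical
  have hmaps : ∀ S ∈ fam r, S \ B ∈ (fam r).filter (fun S => Disjoint S B) := by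
    intro S hS
    rw [mem_filter]
    refine ⟨mem_fam.2 ?_, sdiff_disjoint⟩
    intro a ha b hb hne
    exact mem_fam.1 hS a (mem_sdiff.1 ha).1 b (mem_sdiff.1 hb).1 hne
  rw [← sum_fiberwise_of_maps_to hmaps]
  refine sum_congr rfl fun S₀ hS₀ => ?_
  rw [mem_filter] at hS₀
  obtain ⟨h1, h2⟩ := hS₀
  refine sum_nbij' (fun S => S ∩ B) (fun W => S₀ ∪ W) ?_ ?_ ?_ ?_ ?_
  · intro S hS
    rw [mem_filter] at hS
    obtain ⟨h3, h4⟩ := hS
    rw [mem_powerset]
    intro b hb
    rw [mem_inter] at hb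
    unfold Smooth_F
    rw [mem_filter]
    refine ⟨hb.2, fun v hv => ?_⟩
    rw [← h4, mem_sdiff] at hv
    refine mem_fam.1 h3 v hv.1 b hb.1 ?_
    rintro rfl
    exact hv.2 hb.2
  · intro W hW
    rw [mem_powerset] at hW
    have hWB : W ⊆ B := hW.trans (by unfold Smooth_F; exact filter_subset _ _)
    rw [mem_filter]
    refine ⟨mem_fam.2 ?_, ?_⟩
    · intro a ha b hb hne hr
      rw [mem_union] at ha hb
      rcases ha with ha | ha <;> rcases hb with hb | hb
      · exact mem_fam.1 h1 a ha b hb hne hr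
      · have := hW hb
        unfold Smooth_F at this
        exact (mem_filter.1 this).2 a ha hr
      · have := hW ha
        unfold Smooth_F at this
        exact (mem_filter.1 this).2 b hb (hs _ _ hr)
      · exact hB a (hWB ha) b (hWB hb) hne hr
    · rw [union_sdiff_distrib, sdiff_eq_empty_iff_subset.2 hWB, union_empty,
        sdiff_eq_self_of_disjoint h2]
  · intro S hS
    rw [mem_filter] at hS
    rw [← hS.2, sdiff_union_inter]
  · intro W hW
    rw [mem_powerset] at hW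
    have hWB : W ⊆ B := hW.trans (by unfold Smooth_F; exact filter_subset _ _)
    rw [union_inter_distrib_right, disjoint_iff_inter_eq_empty.1 h2, empty_union,
      inter_eq_left.2 hWB]
  · intro S hS
    rw [mem_filter] at hS
    rw [← hS.2, sdiff_union_inter]

theorem smB (r : V → V → Prop) (hs : ∀ u v, r u v → r v u) (B : Finset V) (hB : Ind r B)
    (z : ℂ) (x' : ℝ) (hx' : 0 ≤ x') (hz : ‖1 + z‖ ≤ 1 + x') :
    ‖∑ S ∈ fam r, z ^ S.card‖ ≤ ∑ S ∈ fam r, ∏ v ∈ S, (if v ∈ B then x' else ‖z‖) := by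
  classical
  rw [Smooth_group r hs B hB, Smooth_group r hs B hB]
  refine (norm_sum_le _ _).trans (sum_le_sum fun S₀ hS₀ => ?_)
  rw [mem_filter] at hS₀
  obtain ⟨h1, h2⟩ := hS₀
  have hWB : ∀ W ∈ (Smooth_F r B S₀).powerset, W ⊆ B := by
    intro W hW
    exact (mem_powerset.1 hW).trans (by unfold Smooth_F; exact filter_subset _ _)
  have hdis : ∀ W ∈ (Smooth_F r B S₀).powerset, Disjoint S₀ W := fun W hW =>
    h2.mono_right (hWB W hW)
  have e1 : ∑ W ∈ (Smooth_F r B S₀).powerset, z ^ (S₀ ∪ W).card =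
      z ^ S₀.card * (1 + z) ^ (Smooth_F r B S₀).card := by
    have : (1 + z) ^ (Smooth_F r B S₀).card = ∑ W ∈ (Smooth_F r B S₀).powerset, z ^ W.card := by
      rw [← prod_const, prod_one_add]
      exact sum_congr rfl fun W _ => by rw [prod_const]
    rw [this, mul_sum]
    refine sum_congr rfl fun W hW => ?_
    rw [card_union_of_disjoint (hdis W hW), pow_add]
  have e2 : ∑ W ∈ (Smooth_F r B S₀).powerset, ∏ v ∈ S₀ ∪ W, (if v ∈ B then x' else ‖z‖) =
      ‖z‖ ^ S₀.card * (1 + x') ^ (Smooth_F r B S₀).card := by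
    have : (1 + x') ^ (Smooth_F r B S₀).card = ∑ W ∈ (Smooth_F r B S₀).powerset, x' ^ W.card := by
      rw [← prod_const, prod_one_add]
      exact sum_congr rfl fun W _ => by rw [prod_const]
    rw [this, mul_sum]
    refine sum_congr rfl fun W hW => ?_
    rw [prod_union (hdis W hW)]
    congr 1
    · rw [← prod_const]
      refine prod_congr rfl fun v hv => ?_
      rw [if_neg]
      intro hvB
      exact (disjoint_left.1 h2) hv hvB
    · rw [← prod_const]
      refine prod_congr rfl fun v hv => ?_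
      rw [if_pos (hWB W hW hv)]
  rw [e1, e2, norm_mul, norm_pow, norm_pow]
  gcongr

theorem smooth (r : V → V → Prop) (hs : ∀ u v, r u v → r v u) (B : Finset V) (hB : Ind r B)
    (Δ : ℕ) (hdeg : ∀ b ∈ B, dg r b ≤ Δ) (x : ℝ) (hx : 0 < x) (φ m : ℝ) (hφ : |φ| ≤ Real.pi) :
    ‖ExC r x (fun S => Complex.exp (Complex.I * φ * (((S.card : ℝ) - m : ℝ) : ℂ)))‖ ≤
      Real.exp (-((B.card : ℝ) * (x / (1 + x) ^ 2 * (φ ^ 2 / Real.pi ^ 2) / (1 + x) ^ Δ))) := by
  classical
  set z : ℂ := (x : ℂ) * Complex.exp (Complex.I * φ) with hz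
  have hnz : ‖z‖ = x := by
    rw [hz, norm_mul, mul_comm Complex.I, Complex.norm_exp_ofReal_mul_I, mul_one]
    simp [abs_of_pos hx]
  set x' : ℝ := max ‖1 + z‖ 1 - 1 with hx'
  have hx'0 : 0 ≤ x' := by rw [hx']; linarith [le_max_right ‖1 + z‖ 1]
  have hz1 : ‖1 + z‖ ≤ 1 + x' := by rw [hx']; linarith [le_max_left ‖1 + z‖ 1]
  have hz2 : ‖1 + z‖ ≤ 1 + x := by
    calc ‖1 + z‖ ≤ ‖(1 : ℂ)‖ + ‖z‖ := norm_add_le _ _
      _ = 1 + x := by rw [norm_one, hnz]
  have hx'x : x' ≤ x := by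
    rw [hx']
    have : max ‖1 + z‖ 1 ≤ 1 + x := max_le hz2 (by linarith)
    linarith
  have hZ := Zx_pos r hx
  have e1 : ExC r x (fun S => Complex.exp (Complex.I * φ * (((S.card : ℝ) - m : ℝ) : ℂ))) =
      Complex.exp ((-(φ * m) : ℝ) * Complex.I) * (∑ S ∈ fam r, z ^ S.card) / ((Zx r x : ℝ) : ℂ) := by
    unfold ExC
    congr 1
    rw [mul_sum]
    refine sum_congr rfl fun S _ => ?_
    have : Complex.exp (Complex.I * φ * (((S.card : ℝ) - m : ℝ) : ℂ)) =
        Complex.exp ((-(φ * m) : ℝ) * Complex.I) * Complex.exp (Complex.I * φ) ^ S.card := by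
      rw [← Complex.exp_nat_mul, ← Complex.exp_add]
      congr 1
      push_cast
      ring
    change ((x ^ S.card : ℝ) : ℂ) * Complex.exp (Complex.I * φ * (((S.card : ℝ) - m : ℝ) : ℂ)) = _
    rw [this, hz, mul_pow]
    push_cast
    ring
  rw [e1, norm_div, norm_mul, Complex.norm_exp_ofReal_mul_I, one_mul]
  have hZn : ‖((Zx r x : ℝ) : ℂ)‖ = Zx r x := by simp [abs_of_pos hZ]
  rw [hZn, div_le_iff₀ hZ]
  have h1 := smB r hs B hB z x' hx'0 hz1
  rw [hnz] at h1
  refine h1.trans ((smA r hs B Δ hdeg x x' hx hx'0 hx'x).trans ?_)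
  refine mul_le_mul_of_nonneg_right ?_ hZ.le
  apply Real.exp_le_exp.2
  apply neg_le_neg
  apply mul_le_mul_of_nonneg_left _ (Nat.cast_nonneg _)
  have hpi := Real.pi_pos
  have hφ2 : φ ^ 2 ≤ Real.pi ^ 2 := by
    rw [← sq_abs φ]
    exact pow_le_pow_left₀ (abs_nonneg _) hφ 2
  set t : ℝ := φ ^ 2 / Real.pi ^ 2 with ht
  have ht0 : 0 ≤ t := by positivity
  have ht1 : t ≤ 1 := by rw [ht, div_le_one (by positivity)]; exact hφ2
  have hkey : x / (1 + x) * t ≤ x - x' := by
    rcases le_total ‖1 + z‖ 1 with h | h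
    · have : x' = 0 := by rw [hx', max_eq_right h]; ring
      rw [this, sub_zero]
      have h3 : x / (1 + x) ≤ x := by
        rw [div_le_iff₀ (by positivity)]; nlinarith
      have h4 : 0 ≤ x / (1 + x) := by positivity
      nlinarith
    · have h3 : x' = ‖1 + z‖ - 1 := by rw [hx', max_eq_left h]
      have hre : z.re = x * Real.cos φ := by
        rw [hz, mul_comm Complex.I, Complex.re_ofReal_mul, Complex.exp_ofReal_mul_I_re]
      have him : z.im = x * Real.sin φ := by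
        rw [hz, mul_comm Complex.I, Complex.im_ofReal_mul, Complex.exp_ofReal_mul_I_im]
      have h4 : ‖1 + z‖ ^ 2 = (1 + x) ^ 2 - 2 * x * (1 - Real.cos φ) := by
        rw [← Complex.normSq_eq_norm_sq, Complex.normSq_apply, Complex.add_re, Complex.add_im,
          Complex.one_re, Complex.one_im, hre, him]
        have := Real.sin_sq_add_cos_sq φ
        nlinarith
      have h5 := Real.cos_le_one_sub_mul_cos_sq hφ
      have h6 : 2 * t ≤ 1 - Real.cos φ := by
        have : 2 / Real.pi ^ 2 * φ ^ 2 = 2 * t := by rw [ht]; ring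
        linarith
      have h7 : 4 * x * t ≤ (1 + x - ‖1 + z‖) * (1 + x + ‖1 + z‖) := by
        have : (1 + x - ‖1 + z‖) * (1 + x + ‖1 + z‖) = (1 + x) ^ 2 - ‖1 + z‖ ^ 2 := by ring
        rw [this, h4]
        nlinarith
      have h8 : (1 + x - ‖1 + z‖) * (1 + x + ‖1 + z‖) ≤ (1 + x - ‖1 + z‖) * (2 * (1 + x)) := by
        apply mul_le_mul_of_nonneg_left _ (by linarith)
        linarith
      have h9 : x / (1 + x) * t = x * t / (1 + x) := by ring
      rw [h3, h9, div_le_iff₀ (by positivity)]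
      nlinarith
  have hpos : 0 < (1 + x) ^ Δ := by positivity
  have e2 : x / (1 + x) ^ 2 * t / (1 + x) ^ Δ = (x / (1 + x) * t) / ((1 + x) * (1 + x) ^ Δ) := by
    field_simp
  rw [e2]
  exact div_le_div_of_nonneg_right hkey (by positivity)

end Pool.Agent.AMS
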