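import Mathlib
import Pool.Agent.AMS.Defs
import Pool.Agent.AMS.CntLink
import Pool.Agent.AMS.Fix
import Pool.Agent.AMS.VarF
import Pool.Agent.AMS.Clt
import Pool.Agent.AMS.Smooth
import Pool.Agent.AMS.Fourier

/-!
# AMS: module LocConc — local concavity at the mean for activities in [1/2, 3/2] (medium)

(1) `lowdeg`: if `Good r L D`, `1 ≤ L`: there is an independent `B` with all degrees `≤ 4 D` and
`3 n ≤ 4 L |B|`: the set `U = {dg ≤ 4 D}` has at least `3n/4` elements
(`4 D #{dg > 4D} ≤ ∑ dg ≤ D n`; for `D = 0` all degrees are 0), apply `sub` to `U`.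
(2) `smooth` with this `B`, `Δ = 4D`: for `x ∈ [1/2, 3/2]`, `x/(1+x)² ≥ 2/9`, `(1+x)^Δ ≤ (5/2)^(4D)`: so
`|E e^{iφ(|S|-q)}| ≤ exp(-c n φ²)` with `c = (3/(4L)) (2/9) / (π² (5/2)^(4D))`.
(3) `exists_dat`, `exists_infl`, `mean_eq` (`c = 1`: `mean = mu`), `clt` with `A, ε` from `fourier c`,
`ExC_re`, `|re| ≤ norm`. Apply `fourier` with `P k = cnt k x^k / Zx`, `M = n + 2`, `q ≤ n` (the mean is
at most `n`). Multiply by `Zx > 0`.
-/

open Finset

namespace Pool.Agent.AMS

theorem lowdeg {V : Type} [Fintype V] [DecidableEq V] (r : V → V → Prop) (L D : ℕ) (hL : 1 ≤ L)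
    (hg : Good r L D) : ∃ B : Finset V, Ind r B ∧ (∀ b ∈ B, dg r b ≤ 4 * D) ∧
      3 * Fintype.card V ≤ 4 * L * B.card := by
  classical
  obtain ⟨W, hWU, hWI, hWc⟩ := hg.sub (univ.filter fun v => dg r v ≤ 4 * D)
  refine ⟨W, hWI, fun b hb => (Finset.mem_filter.mp (hWU hb)).2, ?_⟩
  have h1 : (univ.filter fun v => dg r v ≤ 4 * D).card +
      (univ.filter fun v => ¬ dg r v ≤ 4 * D).card = Fintype.card V := by
    rw [Finset.card_filter_add_card_filter_not]
    rfl
  have h2 : (univ.filter fun v => ¬ dg r v ≤ 4 * D).card * (4 * D + 1) ≤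
      D * Fintype.card V := by
    refine le_trans ?_ hg.deg
    calc (univ.filter fun v => ¬ dg r v ≤ 4 * D).card * (4 * D + 1)
        = ∑ v ∈ univ.filter (fun v => ¬ dg r v ≤ 4 * D), (4 * D + 1) := by
          rw [Finset.sum_const, smul_eq_mul]
      _ ≤ ∑ v ∈ univ.filter (fun v => ¬ dg r v ≤ 4 * D), dg r v := by
          refine Finset.sum_le_sum fun v hv => ?_
          have := (Finset.mem_filter.mp hv).2
          omega
      _ ≤ ∑ v, dg r v :=
          Finset.sum_le_sum_of_subset_of_nonneg (Finset.filter_subset _ _)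
            fun _ _ _ => Nat.zero_le _
  set c := (univ.filter fun v => ¬ dg r v ≤ 4 * D).card with hc
  set u := (univ.filter fun v => dg r v ≤ 4 * D).card with hu
  have h3 : 4 * c ≤ Fintype.card V := by
    rcases Nat.eq_zero_or_pos D with h0 | h0
    · subst h0
      simp only [mul_zero, zero_add, mul_one, zero_mul] at h2
      omega
    · by_contra hcon
      push Not at hcon
      have : D * Fintype.card V < D * (4 * c) := Nat.mul_lt_mul_of_pos_left hcon h0
      nlinarith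
  have h4 : 4 * u ≤ 4 * (L * W.card) := Nat.mul_le_mul_left 4 hWc
  have h5 : 4 * L * W.card = 4 * (L * W.card) := by ring
  omega

theorem locconc (L D : ℕ) (hL : 1 ≤ L) : ∃ N : ℕ,
    ∀ (V ι : Type) [Fintype V] [DecidableEq V] [Fintype ι] [DecidableEq ι] (T : Tr V ι),
      Good T.rel L D → N ≤ Fintype.card V → ∀ (x : ℝ) (q : ℕ), 1 / 2 ≤ x → x ≤ 3 / 2 → 1 ≤ q →
        mean T.rel x = q →
        (cnt T.rel (q - 1) : ℝ) * x ^ (q - 1) + cnt T.rel (q + 1) * x ^ (q + 1) ≤
          2 * (cnt T.rel q * x ^ q) := by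
  have hL0 : (0 : ℝ) < L := by exact_mod_cast hL
  have hpi := Real.pi_pos
  set c : ℝ := 3 / (4 * L) * (2 / 9) / (Real.pi ^ 2 * (5 / 2) ^ (4 * D)) with hc
  have hc0 : 0 < c := by positivity
  obtain ⟨A, ε, hA, hε, N1, hF⟩ := fourier c hc0
  obtain ⟨N2, hC⟩ := clt A ε hA hε
  refine ⟨max N1 N2, ?_⟩
  intro V ι _ _ _ _ T hg hN x q hx1 hx2 hq hmean
  have hx : 0 < x := by linarith
  obtain ⟨o, qq, hdat⟩ := exists_dat T x hx
  obtain ⟨DD, hinfl⟩ := exists_infl T qq (fun _ => 1)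
  have hmu : Tr.mu qq DD = (q : ℝ) := by
    rw [← mean_eq T hx hdat (fun _ => 1) DD hinfl, ← hmean]
    unfold mean
    congr 1
    funext S
    simp
  obtain ⟨s2, hs0, hs12, hs⟩ := hC V ι T x o qq DD hx hx2 hdat hinfl ((le_max_right _ _).trans hN)
  have hZ : 0 < Zx T.rel x := Zx_pos T.rel hx
  have hqn : (q : ℝ) ≤ Fintype.card V := by
    rw [← hmean]
    unfold mean
    calc ExR T.rel x (fun S => (S.card : ℝ)) ≤ ExR T.rel x (fun _ => (Fintype.card V : ℝ)) := by
          refine ExR_mono T.rel hx _ _ fun S _ => ?_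
          exact_mod_cast Finset.card_le_univ S
      _ = Fintype.card V := ExR_const T.rel hx _
  have hqn' : q ≤ Fintype.card V := by exact_mod_cast hqn
  obtain ⟨B, hBI, hBd, hBc⟩ := lowdeg T.rel L D hL hg
  have hre : ∀ φ : ℝ, (ExC T.rel x (fun S => Complex.exp (Complex.I * φ *
      (((S.card : ℝ) - (q : ℝ) : ℝ) : ℂ)))).re =
      ∑ k ∈ range (Fintype.card V + 2), (cnt T.rel k * x ^ k / Zx T.rel x) *
        Real.cos (φ * ((k : ℝ) - q)) := fun φ => ExC_re T.rel hx φ q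
  have hmain := hF (Fintype.card V) (Fintype.card V + 2) q
    (fun k => cnt T.rel k * x ^ k / Zx T.rel x) s2 ((le_max_left _ _).trans hN) hq (by omega)
    hs0 hs12 ?_ ?_
  · rw [← add_div, ← mul_div_assoc, div_le_div_iff_of_pos_right hZ] at hmain
    exact hmain
  · intro φ hφ
    have h1 := hs φ hφ
    rw [hmu] at h1
    rw [← hre φ]
    refine le_trans ?_ h1
    have h2 := Complex.abs_re_le_norm (ExC T.rel x (fun S => Complex.exp (Complex.I * φ *
      (((S.card : ℝ) - (q : ℝ) : ℝ) : ℂ))) - ((Real.exp (-(φ ^ 2 * s2 / 2)) : ℝ) : ℂ))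
    rw [Complex.sub_re, Complex.ofReal_re] at h2
    exact h2
  · intro φ hφ
    rw [← hre φ]
    refine (Complex.abs_re_le_norm _).trans
      ((smooth T.rel hg.symm B hBI (4 * D) hBd x hx φ q hφ).trans ?_)
    rw [Real.exp_le_exp, neg_le_neg_iff]
    have hBc' : (3 : ℝ) * Fintype.card V ≤ 4 * L * B.card := by exact_mod_cast hBc
    have hB1 : 3 / (4 * L) * (Fintype.card V : ℝ) ≤ B.card := by
      rw [div_mul_eq_mul_div, div_le_iff₀ (by positivity)]
      linarith
    have hx3 : 2 / 9 ≤ x / (1 + x) ^ 2 := by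
      rw [div_le_div_iff₀ (by norm_num) (by positivity)]
      nlinarith [mul_nonneg (show 0 ≤ 2 * x - 1 by linarith) (show 0 ≤ 2 - x by linarith)]
    have hx4 : (1 + x) ^ (4 * D) ≤ (5 / 2) ^ (4 * D) :=
      pow_le_pow_left₀ (by linarith) (by linarith) _
    have e1 : c * (Fintype.card V : ℝ) * φ ^ 2 =
        (3 / (4 * L) * (Fintype.card V : ℝ)) *
          ((2 / 9) * (φ ^ 2 / Real.pi ^ 2) / (5 / 2) ^ (4 * D)) := by
      rw [hc]
      field_simp
    rw [e1]
    have hp : 0 ≤ φ ^ 2 / Real.pi ^ 2 := by positivity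
    refine mul_le_mul hB1 ?_ (by positivity) (Nat.cast_nonneg _)
    exact div_le_div₀ (by positivity) (mul_le_mul_of_nonneg_right hx3 hp) (by positivity) hx4

end Pool.Agent.AMS
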