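import Mathlib
import Pool.Agent.AMS.SeqDefs
import Pool.Agent.AMS.SeqMean
import Pool.Agent.AMS.CaseUp
import Pool.Agent.AMS.CaseDown

/-!
# AMS: module SeqUni — assembly at the level of sequences (easy-medium)

If `a` is not unimodal there are `q₀ < q` with `a (q₀+1) < a q₀` and `a q < a (q+1)`; take `q₀` minimal
with `a (q₀+1) < a q₀` (if there is none, `a` is nondecreasing; but `a k = 0` for `k > α` and
`a α > 0`, so there is one) and then `q` minimal among `q > q₀` with `a q < a (q+1)` (if there is none,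
`a` is unimodal with mode `q₀`). Then `a q ≤ a (q-1)`. By `start`, `n < 4(D+1)(q₀+1)` (otherwise
`a q₀ ≤ a (q₀+1)`), so the same for `q`.
* `q < sM (1/2)`: then `q₀ < sM (1/2)`: `case_down`.
* `q > sM (3/2)`: `case_up`.
* otherwise `sM_ivt` gives `x ∈ [1/2, 3/2]` with `sM x = q`; `loc` and AM-GM:
  `a (q-1) a (q+1) ≤ (a q)²`, but `a (q-1) ≥ a q > 0` and `a (q+1) > a q`: contradiction
  (`a q > 0`: `a (q+1) > a q ≥ 0` gives `q + 1 ≤ α`).
-/

open Finset

namespace Pool.Agent.AMS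

theorem seq_uni (L D : ℕ) (hL : 1 ≤ L) : ∃ ε : ℝ, 0 < ε ∧ ∃ N : ℕ,
    ∀ (n α : ℕ) (a : ℕ → ℕ), N ≤ n → SeqHyp L D n α a ε → Uni a := by
  classical
  obtain ⟨ε1, h1, N1, hup⟩ := case_up L D hL
  obtain ⟨ε2, h2, N2, hdown⟩ := case_down L D hL
  refine ⟨min ε1 ε2, lt_min h1 h2, max N1 N2, ?_⟩
  intro n α a hN hs
  have hP : ∃ q, a (q + 1) < a q := by
    refine ⟨α, ?_⟩
    rw [hs.zero (α + 1) (by omega)]
    exact hs.pos α le_rfl
  have hq0 : a (Nat.find hP + 1) < a (Nat.find hP) := Nat.find_spec hP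
  have hmin : ∀ k, k < Nat.find hP → a k ≤ a (k + 1) := fun k hk =>
    not_lt.1 (Nat.find_min hP hk)
  generalize Nat.find hP = q0 at hq0 hmin
  refine ⟨q0, hmin, ?_⟩
  by_contra hcon
  push Not at hcon
  have hQ : ∃ q, q0 ≤ q ∧ a q < a (q + 1) := hcon
  have hq1 : q0 ≤ Nat.find hQ ∧ a (Nat.find hQ) < a (Nat.find hQ + 1) := Nat.find_spec hQ
  have hmin2 : ∀ k, k < Nat.find hQ → ¬ (q0 ≤ k ∧ a k < a (k + 1)) := fun k hk =>
    Nat.find_min hQ hk
  generalize Nat.find hQ = q at hq1 hmin2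
  obtain ⟨hqq, hinc⟩ := hq1
  have hne : q ≠ q0 := by
    rintro rfl
    omega
  have hlt : q0 < q := by omega
  have hprev : a q ≤ a (q - 1) := by
    have h3 := hmin2 (q - 1) (by omega)
    have h4 : q - 1 + 1 = q := by omega
    rw [h4] at h3
    by_contra h5
    exact h3 ⟨by omega, by omega⟩
  have hn0 : n < 4 * (D + 1) * (q0 + 1) := by
    by_contra h3
    push Not at h3
    have h4 := hs.start q0 h3
    nlinarith
  have hnq : n < 4 * (D + 1) * (q + 1) := by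
    refine lt_of_lt_of_le hn0 ?_
    exact Nat.mul_le_mul_left _ (by omega)
  have ha0 : 0 < a 0 := hs.pos 0 (Nat.zero_le _)
  by_cases hA : (q : ℝ) < sM a n (1 / 2)
  · refine hdown n α a (min ε1 ε2) (min_le_right _ _) ((le_max_right _ _).trans hN) hs q0 hq0 hn0 ?_
    have : (q0 : ℝ) < q := by exact_mod_cast hlt
    linarith
  by_cases hB : sM a n (3 / 2) < q
  · exact hup n α a (min ε1 ε2) (min_le_left _ _) ((le_max_left _ _).trans hN) hs q hinc hnq hB
  push Not at hA hB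
  obtain ⟨x, hx1, hx2, hxm⟩ := sM_ivt a n ha0 (y := 1 / 2) (z := 3 / 2) (t := q) (by norm_num)
    (by norm_num) hA hB
  have hl := hs.loc x q hx1 hx2 (by omega) hxm
  have hx0 : 0 < x := by linarith
  obtain ⟨k, rfl⟩ : ∃ k, q = k + 1 := ⟨q - 1, by omega⟩
  have h5 : k + 1 - 1 = k := by omega
  rw [h5] at hl hprev
  have h6 : (a (k + 1) : ℝ) ≤ a k := by exact_mod_cast hprev
  have h7 : (a (k + 1) : ℝ) + 1 ≤ a (k + 1 + 1) := by exact_mod_cast hinc
  have h8 : 0 < x ^ k := by positivity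
  have h9 : (0 : ℝ) ≤ a (k + 1) := Nat.cast_nonneg _
  have e1 : x ^ (k + 1) = x ^ k * x := pow_succ _ _
  have e2 : x ^ (k + 1 + 1) = x ^ k * x ^ 2 := by rw [pow_succ, pow_succ]; ring
  rw [e1, e2] at hl
  have h10 : x ^ k * ((a k : ℝ) + a (k + 1 + 1) * x ^ 2 - 2 * (a (k + 1) * x)) ≤ 0 := by nlinarith
  have h11 : 0 < (a k : ℝ) + a (k + 1 + 1) * x ^ 2 - 2 * (a (k + 1) * x) := by
    have h12 : ((a (k + 1) : ℝ) + 1) * x ^ 2 ≤ a (k + 1 + 1) * x ^ 2 :=
      mul_le_mul_of_nonneg_right h7 (by positivity)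
    have h13 : 0 ≤ (a (k + 1) : ℝ) * (1 - x) ^ 2 := by positivity
    have h14 : 0 < x ^ 2 := by positivity
    nlinarith
  exact absurd h10 (not_le.2 (mul_pos h8 h11))

end Pool.Agent.AMS
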