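import Mathlib
import Pool.Agent.AMS.Defs
import Pool.Agent.AMS.CntLink
import Pool.Agent.AMS.Lip

/-!
# AMS: module Start — the sequence increases at the beginning (medium, counting)

Claim: `2(D+1) i_q ≤ i_{q+1}` if `4(D+1)(q+1) ≤ n`. Induction on `q`. `q = 0`: `i_0 = 1`, `i_1 = n`.
Step `q ≥ 1`: `(q+1) i_{q+1} = ∑_{|S|=q} av S` (`pairs`), `av S ≥ n - ∑_{v∈S} (1 + dg v)`, and
`∑_{|S|=q} ∑_{v∈S} (1 + dg v) = ∑_v (1 + dg v) #{S ∋ v, |S| = q} ≤ (n + D n) i_{q-1}
 ≤ (D+1) n i_q/(2(D+1)) = n i_q/2` (remove `v` from `S`: injective). So `(q+1) i_{q+1} ≥ n i_q/2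
 ≥ 2(D+1)(q+1) i_q`.
-/

open Finset

namespace Pool.Agent.AMS

variable {V : Type} [Fintype V] [DecidableEq V]

lemma Start_av (r : V → V → Prop) (hs : ∀ u v, r u v → r v u) (S : Finset V) (hS : S ∈ fam r) :
    Fintype.card V ≤ (av r S).card + ∑ v ∈ S, (1 + dg r v) := by
  classical
  have hI := mem_fam.1 hS
  have hsub : (univ : Finset V) ⊆ av r S ∪ S.biUnion (fun v => insert v (univ.filter (fun u => u ≠ v ∧ r v u))) := by
    intro x _
    rw [mem_union]
    by_cases hx : x ∈ av r S
    · exact Or.inl hx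
    · right
      rw [mem_biUnion]
      by_cases hxS : x ∈ S
      · exact ⟨x, hxS, mem_insert_self _ _⟩
      · have h1 : ¬ Ind r (insert x S) := by
          intro h
          apply hx
          unfold av
          simp only [mem_filter, mem_univ, true_and]
          exact ⟨hxS, h⟩
        unfold Ind at h1
        push Not at h1
        obtain ⟨u, hu, w, hw, hne, hr⟩ := h1
        rw [mem_insert] at hu hw
        rcases hu with rfl | hu
        · rcases hw with rfl | hw
          · exact absurd rfl hne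
          · refine ⟨w, hw, ?_⟩
            rw [mem_insert, mem_filter]
            exact Or.inr ⟨mem_univ _, hne, hs _ _ hr⟩
        · rcases hw with rfl | hw
          · refine ⟨u, hu, ?_⟩
            rw [mem_insert, mem_filter]
            exact Or.inr ⟨mem_univ _, hne.symm, hr⟩
          · exact absurd hr (hI u hu w hw hne)
  calc Fintype.card V = (univ : Finset V).card := rfl
    _ ≤ _ := card_le_card hsub
    _ ≤ (av r S).card + (S.biUnion (fun v => insert v (univ.filter (fun u => u ≠ v ∧ r v u)))).card :=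
        card_union_le _ _
    _ ≤ _ := by
        gcongr
        refine card_biUnion_le.trans ?_
        refine sum_le_sum fun v _ => ?_
        refine (card_insert_le _ _).trans ?_
        unfold dg
        rw [add_comm]

lemma Start_erase (r : V → V → Prop) (q : ℕ) (v : V) :
    (((fam r).filter (fun S => S.card = q + 1)).filter (fun S => v ∈ S)).card ≤ cnt r q := by
  classical
  unfold cnt
  apply card_le_card_of_injOn (fun S => S.erase v)
  · intro S hS
    simp only [coe_filter, Set.mem_ofPred_eq, mem_filter] at hS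
    obtain ⟨⟨h1, h2⟩, h3⟩ := hS
    simp only [coe_filter, Set.mem_ofPred_eq]
    refine ⟨mem_fam.2 ?_, ?_⟩
    · intro a ha b hb hne
      exact mem_fam.1 h1 a (mem_of_mem_erase ha) b (mem_of_mem_erase hb) hne
    · rw [card_erase_of_mem h3, h2]; rfl
  · intro S hS T hT h
    simp only [coe_filter, Set.mem_ofPred_eq, mem_filter] at hS hT
    simp only at h
    rw [← insert_erase hS.2, ← insert_erase hT.2, h]

lemma Start_dbl (r : V → V → Prop) (q : ℕ) (g : V → ℕ) :
    ∑ S ∈ (fam r).filter (fun S => S.card = q + 1), ∑ v ∈ S, g v ≤ (∑ v, g v) * cnt r q := by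
  classical
  calc ∑ S ∈ (fam r).filter (fun S => S.card = q + 1), ∑ v ∈ S, g v
      = ∑ S ∈ (fam r).filter (fun S => S.card = q + 1), ∑ v, if v ∈ S then g v else 0 := by
        refine sum_congr rfl fun S _ => ?_
        rw [← sum_filter]
        congr 1
        ext v; simp
    _ = ∑ v, ∑ S ∈ (fam r).filter (fun S => S.card = q + 1), if v ∈ S then g v else 0 := sum_comm
    _ ≤ ∑ v, g v * cnt r q := by
        refine sum_le_sum fun v _ => ?_
        rw [← sum_filter, sum_const, smul_eq_mul, mul_comm]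
        exact Nat.mul_le_mul_left _ (Start_erase r q v)
    _ = _ := by rw [sum_mul]

theorem start (r : V → V → Prop) (hs : ∀ u v, r u v → r v u) (D : ℕ)
    (hdeg : ∑ v, dg r v ≤ D * Fintype.card V) (q : ℕ)
    (hq : 4 * (D + 1) * (q + 1) ≤ Fintype.card V) :
    2 * (D + 1) * cnt r q ≤ cnt r (q + 1) := by
  classical
  set n := Fintype.card V with hn
  have hmain : ∀ q, n * cnt r q ≤ (q + 1) * cnt r (q + 1) +
      ∑ S ∈ (fam r).filter (fun S => S.card = q), ∑ v ∈ S, (1 + dg r v) := by
    intro q
    rw [← pairs r q, ← sum_add_distrib]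
    calc n * cnt r q = ∑ S ∈ (fam r).filter (fun S => S.card = q), n := by
          rw [sum_const, smul_eq_mul, mul_comm]; rfl
      _ ≤ _ := sum_le_sum fun S hS => Start_av r hs S (mem_filter.1 hS).1
  induction q with
  | zero =>
    have h1 := hmain 0
    have h2 : ∑ S ∈ (fam r).filter (fun S => S.card = 0), ∑ v ∈ S, (1 + dg r v) = 0 := by
      apply sum_eq_zero
      intro S hS
      rw [card_eq_zero.1 (mem_filter.1 hS).2, sum_empty]
    rw [h2] at h1
    have h3 : 2 * (D + 1) * cnt r 0 ≤ n * cnt r 0 := Nat.mul_le_mul_right _ (by nlinarith)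
    simp only [zero_add, one_mul, add_zero] at h1 ⊢
    exact h3.trans h1
  | succ q ih =>
    have ih' := ih (by nlinarith)
    have h1 := hmain (q + 1)
    have h2 := Start_dbl r q (fun v => 1 + dg r v)
    have h3 : ∑ v, (1 + dg r v) ≤ (D + 1) * n := by
      rw [sum_add_distrib, sum_const, smul_eq_mul, mul_one]
      have : (univ : Finset V).card = n := rfl
      rw [this]
      nlinarith
    have h4 : (∑ v, (1 + dg r v)) * cnt r q ≤ (D + 1) * n * cnt r q := Nat.mul_le_mul_right _ h3
    have h5 : n * (2 * (D + 1) * cnt r q) ≤ n * cnt r (q + 1) := Nat.mul_le_mul_left _ ih'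
    have h6 : 4 * (D + 1) * (q + 1 + 1) * cnt r (q + 1) ≤ n * cnt r (q + 1) :=
      Nat.mul_le_mul_right _ hq
    have h7 : (2 * (q + 2)) * (2 * (D + 1) * cnt r (q + 1)) ≤ (2 * (q + 2)) * cnt r (q + 1 + 1) := by
      have h8 : n * cnt r (q + 1) ≤ (q + 1 + 1) * cnt r (q + 1 + 1) + (D + 1) * n * cnt r q := by
        linarith
      nlinarith
    exact Nat.le_of_mul_le_mul_left h7 (by positivity)

end Pool.Agent.AMS
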