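import Mathlib
import Pool.Agent.AMS.Defs
import Pool.Agent.AMS.CntLink
import Pool.Agent.AMS.Lip

/-!
# AMS: module Tail — the independence number and the end of the sequence (easy-medium)

* subsets of independent sets are independent: `cnt_pos`, `cnt_zero`; `sub` for `U = univ`:
  `card_le`.
* `tail`: for `|S| = q` independent take `W ⊆ av S` independent with `|av S| ≤ L |W|`; `S ∪ W` is
  independent, so `q + |W| ≤ alph`. Sum over `S` with `pairs`.
* `tot`: `∑_k cnt k = |fam r| ≤ 2^n`.
-/

open Finset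

namespace Pool.Agent.AMS

variable {V : Type} [Fintype V] [DecidableEq V]

theorem cnt_pos (r : V → V → Prop) (k : ℕ) (hk : k ≤ alph r) : 0 < cnt r k := by
  have hne : (fam r).Nonempty := ⟨∅, mem_fam.mpr fun u hu => absurd hu (Finset.notMem_empty u)⟩
  obtain ⟨S, hS, hSc⟩ := Finset.exists_mem_eq_sup (fam r) hne Finset.card
  have hk' : k ≤ S.card := by
    rw [← hSc]
    exact hk
  obtain ⟨T, hTS, hTc⟩ := Finset.exists_subset_card_eq hk'
  refine Finset.card_pos.mpr ⟨T, Finset.mem_filter.mpr ⟨mem_fam.mpr ?_, hTc⟩⟩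
  exact fun u hu v hv huv => mem_fam.mp hS u (hTS hu) v (hTS hv) huv

theorem cnt_zero (r : V → V → Prop) (k : ℕ) (hk : alph r < k) : cnt r k = 0 := by
  unfold cnt
  rw [Finset.card_eq_zero, Finset.filter_eq_empty_iff]
  intro S hS hSk
  have h : S.card ≤ alph r := Finset.le_sup (f := Finset.card) hS
  omega

theorem alph_le (r : V → V → Prop) : alph r ≤ Fintype.card V := by
  exact Finset.sup_le fun S _ => Finset.card_le_univ S

theorem card_le_alph (r : V → V → Prop) (L D : ℕ) (hg : Good r L D) :
    Fintype.card V ≤ L * alph r := by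
  obtain ⟨W, _, hW, hc⟩ := hg.sub univ
  rw [Finset.card_univ] at hc
  refine hc.trans (Nat.mul_le_mul_left _ ?_)
  exact Finset.le_sup (f := Finset.card) (mem_fam.mpr hW)

theorem cnt_tot (r : V → V → Prop) :
    ∑ k ∈ range (Fintype.card V + 1), cnt r k ≤ 2 ^ Fintype.card V := by
  have h := sum_fam r (fun _ => (1 : ℕ))
  simp only [smul_eq_mul, mul_one, Finset.sum_const] at h
  rw [← h]
  calc (fam r).card ≤ (univ : Finset (Finset V)).card := Finset.card_le_card (Finset.subset_univ _)
    _ = 2 ^ Fintype.card V := by rw [Finset.card_univ, Fintype.card_finset]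

theorem tail (r : V → V → Prop) (L D : ℕ) (hg : Good r L D) (q : ℕ) :
    (q + 1) * cnt r (q + 1) ≤ L * (alph r - q) * cnt r q := by
  classical
  have hav : ∀ (S : Finset V) (x : V), x ∈ av r S ↔ x ∉ S ∧ Ind r (insert x S) := by
    intro S x
    unfold av
    simp
  rw [← pairs, cnt, mul_comm, ← smul_eq_mul, ← Finset.sum_const]
  refine Finset.sum_le_sum fun S hS => ?_
  obtain ⟨hSf, hSq⟩ := Finset.mem_filter.mp hS
  have hSi := mem_fam.mp hSf
  obtain ⟨W, hWs, hWi, hWc⟩ := hg.sub (av r S)
  refine hWc.trans (Nat.mul_le_mul_left _ ?_)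
  have hdisj : Disjoint S W := by
    rw [Finset.disjoint_left]
    intro x hx hxW
    exact ((hav S x).mp (hWs hxW)).1 hx
  have hun : Ind r (S ∪ W) := by
    intro u hu v hv huv
    rcases Finset.mem_union.mp hu with hu1 | hu1
    · rcases Finset.mem_union.mp hv with hv1 | hv1
      · exact hSi u hu1 v hv1 huv
      · exact ((hav S v).mp (hWs hv1)).2 u (Finset.mem_insert_of_mem hu1) v
          (Finset.mem_insert_self _ _) huv
    · rcases Finset.mem_union.mp hv with hv1 | hv1
      · exact ((hav S u).mp (hWs hu1)).2 u (Finset.mem_insert_self _ _) v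
          (Finset.mem_insert_of_mem hv1) huv
      · exact hWi u hu1 v hv1 huv
  have h1 : (S ∪ W).card ≤ alph r := Finset.le_sup (f := Finset.card) (mem_fam.mpr hun)
  rw [Finset.card_union_of_disjoint hdisj] at h1
  omega

end Pool.Agent.AMS
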