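import Mathlib
import Pool.Agent.AMS.Defs
import Pool.Agent.AMS.Fix
import Pool.Agent.AMS.Bas

/-!
# AMS: module Size — subtree sizes (easy)

`m v = 1 + chs m v` has a solution by `exists_fix`. `1 ≤ m v` by `down`. Summing over `v`:
`∑ m v = n + ∑_{w : t (b w) ≠ none} m w`, so `∑_{w : t (b w) = none} m w = n`. Then `m v ≤ n` by `up`:
for a root `w` it is one term of that sum; for a child `w` of `u`, `m w ≤ chs m u ≤ m u ≤ n`.

`infl_le_size`: `|D v| ≤ m v` for the influence vector of `c = 1`, by `down` and `0 ≤ q ≤ 1`.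
-/

open Finset

namespace Pool.Agent.AMS

variable {V ι : Type} [Fintype V] [DecidableEq V] [Fintype ι] [DecidableEq ι]

/-- Local monotonicity of the child sums. -/
theorem Size_chs_le (T : Tr V ι) (v : V) (f g : V → ℝ)
    (h : ∀ w, T.t (T.b w) = some v → f w ≤ g w) : T.chs f v ≤ T.chs g v := by
  unfold Tr.chs
  refine Finset.sum_le_sum fun i hi => Finset.sum_le_sum fun w hw => h w ?_
  have h1 : T.t i = some v := by
    simpa [Tr.ch] using hi
  have h2 : T.b w = i := by
    simpa [Tr.blk] using hw
  rw [h2, h1]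

/-- The sum of the child sums. -/
theorem Size_sum_chs (T : Tr V ι) (m : V → ℝ) :
    ∑ v, T.chs m v = ∑ w, (if T.t (T.b w) = none then 0 else m w) := by
  have h1 : ∀ v, T.chs m v = ∑ w, (if T.t (T.b w) = some v then m w else 0) := by
    intro v
    unfold Tr.chs Tr.ch Tr.blk
    rw [Finset.sum_filter]
    have h2 : ∀ i, (if T.t i = some v then ∑ w ∈ univ.filter (fun w => T.b w = i), m w else 0) =
        ∑ w, (if T.b w = i then (if T.t (T.b w) = some v then m w else 0) else 0) := by
      intro i
      rw [Finset.sum_filter]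
      by_cases hi : T.t i = some v
      · rw [if_pos hi]
        refine Finset.sum_congr rfl fun w _ => ?_
        by_cases hw : T.b w = i
        · rw [if_pos hw, if_pos hw, hw, if_pos hi]
        · rw [if_neg hw, if_neg hw]
      · rw [if_neg hi]
        symm
        apply Finset.sum_eq_zero
        intro w _
        by_cases hw : T.b w = i
        · rw [if_pos hw, hw, if_neg hi]
        · rw [if_neg hw]
    rw [Finset.sum_congr rfl fun i _ => h2 i, Finset.sum_comm]
    refine Finset.sum_congr rfl fun w _ => ?_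
    rw [Finset.sum_ite_eq]
    simp
  rw [Finset.sum_congr rfl fun v _ => h1 v, Finset.sum_comm]
  refine Finset.sum_congr rfl fun w _ => ?_
  cases hw : T.t (T.b w) with
  | none => simp
  | some u => simp

theorem exists_size (T : Tr V ι) : ∃ m : V → ℝ, (∀ v, m v = 1 + T.chs m v) ∧ (∀ v, 1 ≤ m v) ∧
    ∀ v, m v ≤ Fintype.card V := by
  obtain ⟨m, hm⟩ := exists_fix T (fun v f => 1 + T.chs f v)
    (fun v f g h => by
      show 1 + T.chs f v = 1 + T.chs g v
      rw [chs_congr T v f g h])
  have hone : ∀ v, 1 ≤ m v := by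
    apply down T
    intro v hv
    have h0 : T.chs (fun _ => 0) v ≤ T.chs m v :=
      Size_chs_le T v _ _ fun w hw => by linarith [hv w hw]
    have h1 : T.chs (fun _ => 0) v = 0 := by simp [Tr.chs]
    rw [hm v]
    linarith
  have hsum : ∑ w, (if T.t (T.b w) = none then m w else 0) = Fintype.card V := by
    have h1 : ∑ v, m v = ∑ v, (1 + T.chs m v) := Finset.sum_congr rfl fun v _ => hm v
    rw [Finset.sum_add_distrib, Size_sum_chs] at h1
    have h2 : ∑ v, m v = ∑ w, (if T.t (T.b w) = none then m w else 0) +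
        ∑ w, (if T.t (T.b w) = none then 0 else m w) := by
      rw [← Finset.sum_add_distrib]
      refine Finset.sum_congr rfl fun w _ => ?_
      by_cases hw : T.t (T.b w) = none
      · rw [if_pos hw, if_pos hw, add_zero]
      · rw [if_neg hw, if_neg hw, zero_add]
    rw [h2] at h1
    simp only [Finset.sum_const, Finset.card_univ, nsmul_eq_mul, mul_one] at h1
    linarith
  refine ⟨m, hm, hone, ?_⟩
  apply up T
  intro v hv
  cases hw : T.t (T.b v) with
  | none =>
    rw [← hsum]
    have h1 : m v = (if T.t (T.b v) = none then m v else 0) := by rw [if_pos hw]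
    rw [h1]
    apply Finset.single_le_sum (f := fun w => if T.t (T.b w) = none then m w else 0) _
      (Finset.mem_univ v)
    intro w _
    show (0 : ℝ) ≤ if T.t (T.b w) = none then m w else 0
    split_ifs
    · linarith [hone w]
    · exact le_rfl
  | some u =>
    have h1 := hv u hw
    refine le_trans ?_ h1
    rw [hm u]
    have h2 : m v ≤ T.chs m u := by
      unfold Tr.chs
      have h3 : m v ≤ ∑ w ∈ T.blk (T.b v), m w :=
        Finset.single_le_sum (f := m) (fun w _ => by linarith [hone w]) (by simp [Tr.blk])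
      refine h3.trans ?_
      apply Finset.single_le_sum (f := fun i => ∑ w ∈ T.blk i, m w) _ (by simp [Tr.ch, hw])
      intro i _
      exact Finset.sum_nonneg fun w _ => by linarith [hone w]
    linarith

theorem infl_le_size (T : Tr V ι) {x : ℝ} {o q : V → ℝ} (hx : 0 < x) (hd : T.Dat x o q)
    (D : V → ℝ) (hD : T.Infl q (fun _ => 1) D) (m : V → ℝ) (hm : ∀ v, m v = 1 + T.chs m v) (v : V) :
    |D v| ≤ m v := by
  revert v
  apply down T
  intro v hv
  rw [hD v, hm v]
  have h1 : |T.chs (fun w => q w * D w) v| ≤ T.chs (fun w => |q w * D w|) v := abs_chs_le T _ v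
  have h2 : T.chs (fun w => |q w * D w|) v ≤ T.chs m v := by
    apply Size_chs_le T v
    intro w hw
    have hq0 := q_pos T hx hd w
    have hq1 : q w ≤ 1 := (q_le T hx hd w).trans (by
      rw [div_le_one (by linarith)]
      linarith)
    show |q w * D w| ≤ m w
    rw [abs_mul, abs_of_pos hq0]
    calc q w * |D w| ≤ 1 * |D w| := mul_le_mul_of_nonneg_right hq1 (abs_nonneg _)
      _ ≤ m w := by rw [one_mul]; exact hv w hw
  have h3 : |1 - T.chs (fun w => q w * D w) v| ≤ |(1 : ℝ)| + |T.chs (fun w => q w * D w) v| :=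
    abs_sub _ _
  rw [abs_one] at h3
  linarith

end Pool.Agent.AMS
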