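import Mathlib
import Pool.Agent.AMS.Defs
import Pool.Agent.AMS.Fix
import Pool.Agent.AMS.Bas
import Pool.Agent.AMS.Contr
import Pool.Agent.AMS.Size

/-!
# AMS: module TSmall — `q |D|` is a small fraction of the subtree size (medium)

Let `p = X/(1+X)`, `ρ = (1+p)/2 < 1`. Claim: for every `k` there is `A ≥ 0` with
`q v |D v| ≤ ρ^k m v + A` for all block forests, all `x ≤ X`, all `v` (`m` = subtree sizes, `D` =
influence vector of `c = 1`). Induction on `k`. `k = 0`: `|D v| ≤ m v` (`infl_le_size`), `q ≤ 1`,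
`A = 0`. Step from `(ε, A)`, `ε = ρ^k`: let `δ > 0` with `p (ε + δ) ≤ ρ ε`, i.e.
`δ = ε (1 - p)/(2 p)`, and `M = A/δ`. For every `w`: `q w |D w| ≤ (ε + δ) m w + M q w` (if `m w ≥ M`
then `A ≤ δ m w`; otherwise `q w |D w| ≤ q w m w ≤ M q w`). So
`|D v| ≤ 1 + (ε + δ) chs m v + M chs q v` and, as `q v ≤ p`, `q v * chs q v ≤ x ≤ X`,
`chs m v ≤ m v`: `q v |D v| ≤ 1 + p (ε + δ) m v + M X`.
-/

open Finset

namespace Pool.Agent.AMS

theorem tsmall (X : ℝ) (hX : 0 < X) (k : ℕ) : ∃ A : ℝ, 0 ≤ A ∧
    ∀ (V ι : Type) [Fintype V] [DecidableEq V] [Fintype ι] [DecidableEq ι] (T : Tr V ι) (x : ℝ)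
      (o q D m : V → ℝ), 0 < x → x ≤ X → T.Dat x o q → T.Infl q (fun _ => 1) D →
      (∀ v, m v = 1 + T.chs m v) → (∀ v, 1 ≤ m v) →
      ∀ v, q v * |D v| ≤ ((1 + X / (1 + X)) / 2) ^ k * m v + A := by
  set p := X / (1 + X) with hp
  have hp0 : 0 < p := by positivity
  have hp1 : p < 1 := by rw [hp, div_lt_one (by positivity)]; linarith
  induction k with
  | zero =>
    refine ⟨0, le_rfl, ?_⟩
    intro V ι _ _ _ _ T x o q D m hx hxX hd hD hm hm1 v
    have h1 := infl_le_size T hx hd D hD m hm v
    have h2 := q_pos T hx hd v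
    have h3 := q_le T hx hd v
    have h4 : x / (1 + x) ≤ 1 := by rw [div_le_one (by positivity)]; linarith
    have h5 := abs_nonneg (D v)
    rw [pow_zero, one_mul, add_zero]
    nlinarith
  | succ k ih =>
    obtain ⟨A, hA, ih⟩ := ih
    set ρ := (1 + p) / 2 with hρ
    have hρ0 : 0 < ρ := by positivity
    set ε := ρ ^ k with hε
    have hε0 : 0 < ε := by positivity
    set δ := ε * (1 - p) / (2 * p) with hδ
    have hδ0 : 0 < δ := by
      have : 0 < 1 - p := by linarith
      positivity
    have hkey : p * (ε + δ) = ρ * ε := by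
      rw [hδ, hρ]
      field_simp
      ring
    set M := A / δ with hM
    have hM0 : 0 ≤ M := by positivity
    have hMδ : δ * M = A := by rw [hM]; field_simp
    refine ⟨1 + M * X, by positivity, ?_⟩
    intro V ι _ _ _ _ T x o q D m hx hxX hd hD hm hm1 v
    have hw : ∀ w, q w * |D w| ≤ (ε + δ) * m w + M * q w := by
      intro w
      have h1 := ih V ι T x o q D m hx hxX hd hD hm hm1 w
      have h2 := q_pos T hx hd w
      have h3 := infl_le_size T hx hd D hD m hm w
      have h4 := hm1 w
      rcases le_total M (m w) with h | h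
      · have : A ≤ δ * m w := by
          rw [← hMδ]; exact mul_le_mul_of_nonneg_left h hδ0.le
        have h5 : 0 ≤ M * q w := by positivity
        nlinarith
      · have h5 : q w * |D w| ≤ q w * M :=
          mul_le_mul_of_nonneg_left (h3.trans h) h2.le
        have h6 : 0 ≤ (ε + δ) * m w := by positivity
        nlinarith
    have h1 := infl_abs T hx hd (fun _ => 1) D hD v
    have h2 : T.chs (fun w => q w * |D w|) v ≤ (ε + δ) * T.chs m v + M * T.chs q v := by
      calc T.chs (fun w => q w * |D w|) v ≤ T.chs (fun w => (ε + δ) * m w + M * q w) v :=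
            chs_mono T _ _ hw v
        _ = _ := by
            rw [chs_add T (fun w => (ε + δ) * m w) (fun w => M * q w) v, chs_smul, chs_smul]
    have hq0 := q_pos T hx hd v
    have hq1 := q_le T hx hd v
    have hqp : q v ≤ p := by
      refine hq1.trans ?_
      rw [hp, div_le_div_iff₀ (by positivity) (by positivity)]
      nlinarith
    have hqs := q_mul_s T hx hd v
    have hcm : 0 ≤ T.chs m v := chs_nonneg T m (fun w => by linarith [hm1 w]) v
    have hcm2 : T.chs m v ≤ m v := by linarith [hm v]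
    have hcq : 0 ≤ T.chs q v := chs_nonneg T q (fun w => (q_pos T hx hd w).le) v
    simp only [abs_one] at h1
    have h3 : q v * |D v| ≤ q v * (1 + ((ε + δ) * T.chs m v + M * T.chs q v)) :=
      mul_le_mul_of_nonneg_left (by linarith) hq0.le
    have h4 : q v * ((ε + δ) * T.chs m v) ≤ p * ((ε + δ) * m v) := by
      have : 0 ≤ ε + δ := by positivity
      apply mul_le_mul hqp (mul_le_mul_of_nonneg_left hcm2 this) (by positivity) hp0.le
    have h5 : M * (q v * T.chs q v) ≤ M * X := mul_le_mul_of_nonneg_left (hqs.trans hxX) hM0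
    have h6 : ρ ^ (k + 1) * m v = p * ((ε + δ) * m v) := by
      rw [pow_succ, ← mul_assoc, hkey]
      ring
    rw [h6]
    nlinarith

end Pool.Agent.AMS
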