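import Mathlib
import Pool.Agent.AMS.Defs
import Pool.Agent.AMS.Fix
import Pool.Agent.AMS.Bas
import Pool.Agent.AMS.Contr
import Pool.Agent.AMS.Size
import Pool.Agent.AMS.TSmall

/-!
# AMS: module VarO — `∑ q D² = o(n²)` uniformly in `x ≤ X` (medium)

Take `k` with `ρ^k ≤ ε₁`, `A` from `tsmall`, `M = A / ε₁ + 1`: as in `TSmall`, for every `w`
`q w |D w| ≤ 2 ε₁ m w + M q w` (cases `m w ≥ M` or not, with `|D w| ≤ m w`). Let
`b v = chs (q|D|) v`. Then `b v ≤ 2 ε₁ m v + M chs q v ≤ 2 ε₁ n + M chs q v`, so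
`q v * b v ≤ 2 ε₁ n + M X` and `q v * b v ^ 2 ≤ (2 ε₁ n + M X) b v`. Sum over `v`:
`∑ b v ≤ ∑ q|D| ≤ x n ≤ X n` (`chs_sum`, `infl_one`). With `D v ² ≤ 2 + 2 b v ²`:
`∑ q D² ≤ 2 n + 2 (2 ε₁ n + M X) X n ≤ ε n²` for `ε₁ = ε / (8 X)`-ish and `n ≥ N`.
-/

open Finset

namespace Pool.Agent.AMS

theorem varO (X ε : ℝ) (hX : 0 < X) (hε : 0 < ε) : ∃ N : ℕ,
    ∀ (V ι : Type) [Fintype V] [DecidableEq V] [Fintype ι] [DecidableEq ι] (T : Tr V ι) (x : ℝ)
      (o q D : V → ℝ), 0 < x → x ≤ X → T.Dat x o q → T.Infl q (fun _ => 1) D →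
      N ≤ Fintype.card V → ∑ v, q v * D v ^ 2 ≤ ε * (Fintype.card V : ℝ) ^ 2 := by
  set ρ : ℝ := (1 + X / (1 + X)) / 2 with hρ
  have hp0 : 0 < X / (1 + X) := by positivity
  have hp1 : X / (1 + X) < 1 := by
    rw [div_lt_one (by positivity)]
    linarith
  have hρ0 : 0 < ρ := by rw [hρ]; linarith
  have hρ1 : ρ < 1 := by rw [hρ]; linarith
  set e1 : ℝ := ε / (8 * X) with he1
  have he1p : 0 < e1 := by positivity
  obtain ⟨k, hk⟩ := exists_pow_lt_of_lt_one he1p hρ1
  obtain ⟨A, hA, hAll⟩ := tsmall X hX k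
  set M : ℝ := A / e1 with hM
  have hM0 : 0 ≤ M := by positivity
  obtain ⟨N, hN⟩ := exists_nat_gt ((2 + 2 * (M * X) * X) / (ε / 2))
  refine ⟨N + 1, ?_⟩
  intro V ι _ _ _ _ T x o q D hx hxX hd hD hcard
  obtain ⟨m, hm1, hm2, hm3⟩ := exists_size T
  have hq := fun w => (q_pos T hx hd w).le
  have hqx := fun w => q_le T hx hd w
  have hxx : x / (1 + x) ≤ 1 := by
    rw [div_le_one (by positivity)]
    linarith
  have hq1 : ∀ w, q w ≤ 1 := fun w => (hqx w).trans hxx
  have hDm := infl_le_size T hx hd D hD m hm1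
  set n : ℝ := (Fintype.card V : ℝ) with hn
  have hcn : ((N + 1 : ℕ) : ℝ) ≤ n := by
    rw [hn]
    exact_mod_cast hcard
  have hn0 : 0 < n := by
    have : (0 : ℝ) < ((N + 1 : ℕ) : ℝ) := by positivity
    exact this.trans_le hcn
  have hNn : (N : ℝ) ≤ n := by
    push_cast at hcn
    linarith
  -- pointwise bound
  have hpt : ∀ w, q w * |D w| ≤ 2 * e1 * m w + M * q w := by
    intro w
    have hmw := hm2 w
    rcases le_or_gt M (m w) with h | h
    · have h1 := hAll V ι T x o q D m hx hxX hd hD hm1 hm2 w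
      have h2 : A ≤ e1 * m w := by
        rw [hM, div_le_iff₀ he1p] at h
        linarith
      have h3 : ρ ^ k * m w ≤ e1 * m w := mul_le_mul_of_nonneg_right hk.le (by linarith)
      have h4 : 0 ≤ M * q w := mul_nonneg hM0 (hq w)
      linarith
    · have h1 : q w * |D w| ≤ q w * m w := mul_le_mul_of_nonneg_left (hDm w) (hq w)
      have h2 : q w * m w ≤ q w * M := mul_le_mul_of_nonneg_left h.le (hq w)
      have h3 : 0 ≤ 2 * e1 * m w := by
        have : 0 ≤ m w := by linarith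
        positivity
      linarith
  have hchsm : ∀ v, T.chs m v ≤ n := by
    intro v
    have := hm1 v
    have := hm3 v
    linarith
  have hb : ∀ v, T.chs (fun w => q w * |D w|) v ≤ 2 * e1 * n + M * T.chs q v := by
    intro v
    have h1 := chs_mono T (fun w => q w * |D w|) (fun w => 2 * e1 * m w + M * q w) hpt v
    rw [chs_add T (fun w => 2 * e1 * m w) (fun w => M * q w), chs_smul, chs_smul] at h1
    have h2 := mul_le_mul_of_nonneg_left (hchsm v) (by positivity : 0 ≤ 2 * e1)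
    linarith
  have hb0 : ∀ v, 0 ≤ T.chs (fun w => q w * |D w|) v := fun v =>
    chs_nonneg T _ (fun w => mul_nonneg (hq w) (abs_nonneg _)) v
  have hqb : ∀ v, q v * T.chs (fun w => q w * |D w|) v ≤ 2 * e1 * n + M * X := by
    intro v
    have h1 := mul_le_mul_of_nonneg_left (hb v) (hq v)
    have h2 := q_mul_s T hx hd v
    have h3 : q v * (2 * e1 * n) ≤ 1 * (2 * e1 * n) :=
      mul_le_mul_of_nonneg_right (hq1 v) (by positivity)
    have h4 : M * (q v * T.chs q v) ≤ M * X :=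
      mul_le_mul_of_nonneg_left (h2.trans hxX) hM0
    nlinarith
  have hsumb : ∑ v, T.chs (fun w => q w * |D w|) v ≤ X * n := by
    have h1 := Contr_chs_le T hx hd (fun w => |D w|) (fun w => abs_nonneg _)
    have h2 := infl_one T hx hd D hD
    have h3 : x * n ≤ X * n := mul_le_mul_of_nonneg_right hxX hn0.le
    exact h1.trans (h2.trans h3)
  set B : ℝ := 2 * e1 * n + M * X with hB
  have hB0 : 0 ≤ B := by positivity
  have hpt2 : ∀ v, q v * D v ^ 2 ≤ 2 + 2 * B * T.chs (fun w => q w * |D w|) v := by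
    intro v
    have h1 := infl_abs T hx hd (fun _ => 1) D hD v
    rw [abs_one] at h1
    have h2 := hqb v
    have h3 := hb0 v
    set b := T.chs (fun w => q w * |D w|) v
    have h4 : D v ^ 2 ≤ 2 + 2 * b ^ 2 := by
      have h5 : D v ^ 2 ≤ (1 + b) ^ 2 := by
        rw [← sq_abs (D v)]
        exact pow_le_pow_left₀ (abs_nonneg _) h1 2
      nlinarith [sq_nonneg (1 - b)]
    have h6 := mul_le_mul_of_nonneg_left h4 (hq v)
    have h7 : q v * b * b ≤ B * b := mul_le_mul_of_nonneg_right h2 h3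
    have h8 := hq1 v
    nlinarith
  have hs := Finset.sum_le_sum (fun v (_ : v ∈ (univ : Finset V)) => hpt2 v)
  rw [Finset.sum_add_distrib, ← Finset.mul_sum, Finset.sum_const, Finset.card_univ,
    nsmul_eq_mul] at hs
  have h9 : 2 * B * ∑ v, T.chs (fun w => q w * |D w|) v ≤ 2 * B * (X * n) :=
    mul_le_mul_of_nonneg_left hsumb (by positivity)
  have h10 : 2 * B * (X * n) = ε / 2 * n ^ 2 + 2 * (M * X) * X * n := by
    rw [hB, he1]
    field_simp
    ring
  have h11 : 2 + 2 * (M * X) * X ≤ ε / 2 * n := by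
    have h12 := hN.le.trans hNn
    rw [div_le_iff₀ (by positivity)] at h12
    linarith
  have h13 := mul_le_mul_of_nonneg_right h11 hn0.le
  nlinarith

end Pool.Agent.AMS
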