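import Mathlib
import Pool.Agent.AMS.Defs
import Pool.Agent.AMS.CntLink
import Pool.Agent.AMS.Fix
import Pool.Agent.AMS.VarO
import Pool.Agent.AMS.VarF
import Pool.Agent.AMS.LocConc
import Pool.Agent.AMS.Lip
import Pool.Agent.AMS.Start
import Pool.Agent.AMS.Tail
import Pool.Agent.AMS.SeqUni

/-!
# AMS: module GraphUni — assembly (easy-medium)

`mean r x = sM (cnt r) n x`, `vari r x = sV (cnt r) n x` (`ExR_cnt`, `Zx_cnt`). `vari ≤ ε n²` for
`x ≤ X = 2^(4L(L+1))` by `exists_dat`, `exists_infl` (`c = 1`), `mean_eq`, `var_le`, `varO`. All other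
fields of `SeqHyp` are `cnt_pos`, `cnt_zero`, `alph_le`, `card_le_alph`, `cnt_down`, `cnt_tot`, `lip`,
`start`, `tail`, `locconc`. Apply `seq_uni`.
-/

open Finset

namespace Pool.Agent.AMS

theorem GraphUni_Z {V : Type} [Fintype V] [DecidableEq V] (r : V → V → Prop) (x : ℝ) :
    Zx r x = sZ (cnt r) (Fintype.card V) x := Zx_cnt r x

theorem mean_sM {V : Type} [Fintype V] [DecidableEq V] (r : V → V → Prop) (x : ℝ) :
    mean r x = sM (cnt r) (Fintype.card V) x := by
  unfold mean sM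
  rw [← GraphUni_Z]
  exact ExR_cnt r x (fun k => (k : ℝ))

theorem vari_sV {V : Type} [Fintype V] [DecidableEq V] (r : V → V → Prop) (x : ℝ) :
    vari r x = sV (cnt r) (Fintype.card V) x := by
  unfold vari sV
  rw [← GraphUni_Z, ← mean_sM]
  exact ExR_cnt r x (fun k => ((k : ℝ) - mean r x) ^ 2)

theorem graph_uni (L D : ℕ) (hL : 1 ≤ L) : ∃ N : ℕ,
    ∀ (V ι : Type) [Fintype V] [DecidableEq V] [Fintype ι] [DecidableEq ι] (T : Tr V ι),
      Good T.rel L D → N ≤ Fintype.card V → Uni (cnt T.rel) := by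
  obtain ⟨ε, hε, N0, h0⟩ := seq_uni L D hL
  obtain ⟨N1, h1⟩ := locconc L D hL
  obtain ⟨N2, h2⟩ := varO ((2 : ℝ) ^ (4 * L * (L + 1))) ε (by positivity) hε
  refine ⟨max N0 (max N1 N2), ?_⟩
  intro V ι _ _ _ _ T hg hn
  have hn0 : N0 ≤ Fintype.card V := (le_max_left _ _).trans hn
  have hn1 : N1 ≤ Fintype.card V := ((le_max_left _ _).trans (le_max_right _ _)).trans hn
  have hn2 : N2 ≤ Fintype.card V := ((le_max_right _ _).trans (le_max_right _ _)).trans hn
  apply h0 (Fintype.card V) (alph T.rel) (cnt T.rel) hn0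
  refine ⟨alph_le _, card_le_alph _ L D hg, fun k hk => cnt_pos _ k hk, fun k hk => cnt_zero _ k hk,
    cnt_down _, cnt_tot _, ?_, fun q hq => start _ hg.symm D hg.deg q hq,
    fun q => tail _ L D hg q, ?_, ?_⟩
  · intro q hq
    exact lip _ hg.symm q (cnt_pos _ q (by omega)) (cnt_pos _ (q + 1) hq)
  · intro x hx hx2
    rw [← vari_sV]
    obtain ⟨o, q, hd⟩ := exists_dat T x hx
    obtain ⟨D', hD'⟩ := exists_infl T q (fun _ => 1)
    have h3 := h2 V ι T x o q D' hx hx2 hd hD' hn2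
    have h4 := var_le T hx hd (fun _ => 1) D' hD'
    have h5 := mean_eq T hx hd (fun _ => 1) D' hD'
    simp only [Finset.sum_const, nsmul_eq_mul, mul_one] at h4 h5
    unfold vari mean
    rw [h5]
    exact h4.trans h3
  · intro x q hx hx2 hq hm
    rw [← mean_sM] at hm
    exact h1 V ι T hg hn1 x q hx hx2 hq hm

end Pool.Agent.AMS
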