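import Mathlib
import Pool.Agent.AMS.Defs
import Pool.Agent.HypU.Tree

/-!
# AMS: module Struct — the block forest of a linear hypertree (medium)

Root `r` of the host tree `T₀`; for a nonempty edge `e` let `top e ∈ e` minimise the distance to `r`.
By `HypU.Tree_parent`, `HypU.Tree_unique` and linearity a vertex `v` lies in at most one edge `e` with
`v ≠ top e` (see the proof of `HypU.acyc_of_hypertree`). Put `ι = ↥E ⊕ V`,
`b v = inl e` for this edge if it exists, else `inr v`; `t (inl e) = some (top e)` if `e` is nonempty,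
`none` otherwise; `t (inr v) = none`; `dep (inl e) = dist (top e) r + 1`, `dep (inr v) = 0`.
`lt`: if `v = top e` and `b v = inl f` then `dist (top f) < dist v` (`top f ≠ v`: strictly smaller by
`Tree_parent`, or by minimality plus uniqueness of the parent), so `dep (b v) ≤ dist v < dep (inl e)`.
`blk (inl e) = e \ {top e}`, `blk (inr v) ⊆ {v}`.
If `V` is empty everything is trivial (host tree: nonempty, so this does not occur).
-/

open Finset

namespace Pool.Agent.AMS

theorem struct_exists {V : Type} [Fintype V] [DecidableEq V] (l : ℕ) (E : Finset (Finset V))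
    (hT : HypU.IsHypertree E) (hL : HypU.IsLinear E) (hc : ∀ e ∈ E, e.card ≤ l) :
    ∃ (ι : Type) (_ : Fintype ι) (_ : DecidableEq ι) (T : Tr V ι),
      (∀ u v, u ≠ v → (T.rel u v ↔ ∃ e ∈ E, u ∈ e ∧ v ∈ e)) ∧
      ∀ i, (T.blk i).card + (if (T.t i).isSome then 1 else 0) ≤ max l 1 := by
  classical
  obtain ⟨T₀, hT, hC⟩ := hT
  obtain ⟨r⟩ := hT.connected.nonempty
  have htop : ∀ e : ↥E, ∃ a, e.1.Nonempty → a ∈ e.1 ∧ ∀ w ∈ e.1, T₀.dist a r ≤ T₀.dist w r := by
    intro e
    by_cases he : e.1.Nonempty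
    · obtain ⟨a, ha, h⟩ := Finset.exists_min_image e.1 (fun w => T₀.dist w r) he
      exact ⟨a, fun _ => ⟨ha, h⟩⟩
    · exact ⟨r, fun h => absurd h he⟩
  choose top htop using htop
  have hpar : ∀ (e : ↥E) (v : V), v ∈ e.1 → v ≠ top e →
      ∃ u ∈ e.1, T₀.Adj v u ∧ T₀.dist u r < T₀.dist v r := by
    intro e v hv hne
    have h := htop e ⟨v, hv⟩
    exact HypU.Tree_parent hT r e.1 (hC e.1 e.2) (top e) v h.1 hv hne h.2
  have hU : ∀ (v : V) (e f : ↥E), v ∈ e.1 → v ≠ top e → v ∈ f.1 → v ≠ top f → e = f := by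
    intro v e f hev hetop hfv hftop
    obtain ⟨u, hu, hadj, hd⟩ := hpar e v hev hetop
    obtain ⟨u', hu', hadj', hd'⟩ := hpar f v hfv hftop
    have huu : u = u' := HypU.Tree_unique hT r u u' v hadj hadj' hd.le hd'.le
    by_contra hne'
    have h3 := hL e.1 e.2 f.1 f.2 (fun h => hne' (Subtype.ext h))
    rw [Finset.card_le_one] at h3
    have h4 := h3 v (mem_inter.2 ⟨hev, hfv⟩) u (mem_inter.2 ⟨hu, by rw [huu]; exact hu'⟩)
    exact hadj.ne h4
  obtain ⟨b, hb⟩ : ∃ b : V → ↥E ⊕ V, ∀ v, (∀ e : ↥E, v ∈ e.1 → v ≠ top e → b v = Sum.inl e) ∧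
      (∀ e : ↥E, b v = Sum.inl e → v ∈ e.1 ∧ v ≠ top e) ∧ (∀ w, b v = Sum.inr w → w = v) := by
    have h1 : ∀ v, ∃ i : ↥E ⊕ V, (∀ e : ↥E, v ∈ e.1 → v ≠ top e → i = Sum.inl e) ∧
        (∀ e : ↥E, i = Sum.inl e → v ∈ e.1 ∧ v ≠ top e) ∧ (∀ w, i = Sum.inr w → w = v) := by
      intro v
      by_cases h : ∃ e : ↥E, v ∈ e.1 ∧ v ≠ top e
      · obtain ⟨e, he, he'⟩ := h
        refine ⟨Sum.inl e, fun f hf hf' => ?_, fun f hf => ?_, fun w hw => ?_⟩
        · rw [hU v e f he he' hf hf']
        · have := Sum.inl.inj hf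
          subst this
          exact ⟨he, he'⟩
        · cases hw
      · refine ⟨Sum.inr v, fun f hf hf' => absurd ⟨f, hf, hf'⟩ h, fun f hf => ?_, fun w hw => ?_⟩
        · cases hf
        · exact (Sum.inr.inj hw).symm
    choose b hb using h1
    exact ⟨b, hb⟩
  let t : ↥E ⊕ V → Option V :=
    Sum.elim (fun e => if e.1.Nonempty then some (top e) else none) (fun _ => none)
  let dep : ↥E ⊕ V → ℕ := Sum.elim (fun e => T₀.dist (top e) r + 1) (fun _ => 0)
  have ht1 : ∀ e : ↥E, e.1.Nonempty → t (Sum.inl e) = some (top e) := fun e he => by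
    simp only [t, Sum.elim_inl, if_pos he]
  have ht2 : ∀ e : ↥E, ¬ e.1.Nonempty → t (Sum.inl e) = none := fun e he => by
    simp only [t, Sum.elim_inl, if_neg he]
  have ht3 : ∀ v : V, t (Sum.inr v) = none := fun v => rfl
  have ht4 : ∀ (i : ↥E ⊕ V) (v : V), t i = some v → ∃ e : ↥E, i = Sum.inl e ∧ e.1.Nonempty ∧
      top e = v := by
    intro i v h
    cases i with
    | inl e =>
      by_cases he : e.1.Nonempty
      · rw [ht1 e he] at h
        exact ⟨e, rfl, he, Option.some.inj h⟩
      · rw [ht2 e he] at h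
        cases h
    | inr w =>
      rw [ht3] at h
      cases h
  have hlt : ∀ (i : ↥E ⊕ V) (v : V), t i = some v → dep (b v) < dep i := by
    intro i v h
    obtain ⟨e, rfl, he, hv⟩ := ht4 i v h
    have hd1 : dep (Sum.inl e) = T₀.dist v r + 1 := by
      simp only [dep, Sum.elim_inl, hv]
    rw [hd1]
    cases hbv : b v with
    | inl f =>
      have hd2 : dep (Sum.inl f) = T₀.dist (top f) r + 1 := rfl
      rw [hd2]
      obtain ⟨hf1, hf2⟩ := (hb v).2.1 f hbv
      obtain ⟨u, hu, _, hu'⟩ := hpar f v hf1 hf2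
      have := (htop f ⟨v, hf1⟩).2 u hu
      omega
    | inr w =>
      have hd2 : dep (Sum.inr w) = 0 := rfl
      rw [hd2]
      omega
  refine ⟨↥E ⊕ V, inferInstance, inferInstance, ⟨b, t, dep, hlt⟩, ?_, ?_⟩
  · intro u v huv
    have key : ∀ u v : V, u ≠ v → t (b v) = some u → ∃ e ∈ E, u ∈ e ∧ v ∈ e := by
      intro u v _ h
      obtain ⟨e, he, hne, hu⟩ := ht4 _ _ h
      refine ⟨e.1, e.2, ?_, ((hb v).2.1 e he).1⟩
      rw [← hu]
      exact (htop e hne).1
    unfold Tr.rel
    show (b u = b v ∨ t (b v) = some u ∨ t (b u) = some v) ↔ _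
    constructor
    · rintro (h | h | h)
      · cases hbv : b v with
        | inl e =>
          rw [hbv] at h
          exact ⟨e.1, e.2, ((hb u).2.1 e h).1, ((hb v).2.1 e hbv).1⟩
        | inr w =>
          rw [hbv] at h
          exact absurd (((hb u).2.2 w h).symm.trans ((hb v).2.2 w hbv)) huv
      · exact key u v huv h
      · obtain ⟨e, he, h1, h2⟩ := key v u huv.symm h
        exact ⟨e, he, h2, h1⟩
    · rintro ⟨e, he, hue, hve⟩
      have hne : (⟨e, he⟩ : ↥E).1.Nonempty := ⟨u, hue⟩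
      by_cases h1 : u = top ⟨e, he⟩
      · right; left
        have h2 : v ≠ top ⟨e, he⟩ := fun h => huv (h1.trans h.symm)
        rw [(hb v).1 ⟨e, he⟩ hve h2, ht1 _ hne, h1]
      · by_cases h2 : v = top ⟨e, he⟩
        · right; right
          rw [(hb u).1 ⟨e, he⟩ hue h1, ht1 _ hne, h2]
        · left
          rw [(hb u).1 ⟨e, he⟩ hue h1, (hb v).1 ⟨e, he⟩ hve h2]
  · intro i
    show (univ.filter (fun v => b v = i)).card + (if (t i).isSome then 1 else 0) ≤ max l 1
    cases i with
    | inl e =>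
      by_cases he : e.1.Nonempty
      · have h1 : (univ.filter (fun v => b v = Sum.inl e)) ⊆ e.1.erase (top e) := by
          intro v hv
          rw [mem_filter] at hv
          obtain ⟨h1, h2⟩ := (hb v).2.1 e hv.2
          exact mem_erase.2 ⟨h2, h1⟩
        have h2 := Finset.card_le_card h1
        have h3 := Finset.card_erase_of_mem (htop e he).1
        have h4 := hc e.1 e.2
        have h5 : 0 < e.1.card := he.card_pos
        rw [ht1 e he, Option.isSome_some, if_pos rfl]
        have h6 : l ≤ max l 1 := le_max_left _ _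
        omega
      · have h1 : (univ.filter (fun v => b v = Sum.inl e)) = ∅ := by
          rw [Finset.filter_eq_empty_iff]
          intro v _ hv
          exact he ⟨v, ((hb v).2.1 e hv).1⟩
        rw [h1, ht2 e he]
        simp
    | inr w =>
      have h1 : (univ.filter (fun v => b v = Sum.inr w)) ⊆ {w} := by
        intro v hv
        rw [mem_filter] at hv
        rw [mem_singleton]
        exact ((hb v).2.2 w hv.2).symm
      have h2 := Finset.card_le_card h1
      rw [card_singleton] at h2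
      rw [ht3]
      have h6 : 1 ≤ max l 1 := le_max_right _ _
      simpa using h2.trans h6

end Pool.Agent.AMS
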