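import Mathlib
import Pool.Agent.AMS.Defs
import Pool.Agent.AMS.Fix

/-!
# AMS: module TrGood — block forests with small blocks are Good (easy-medium)

* `symm`: clear.
* `deg`: the neighbours of `v` are: the other vertices of its block (`|blk (b v)| - 1`), the parent of
  its block (if any), and its child vertices; so `dg v ≤ (L - 1) + ∑_{i ∈ ch v} |blk i|`, and
  `∑_v ∑_{i ∈ ch v} |blk i| ≤ n`. Total `≤ L n`.
* `sub`: induction on `|U|`. Take `u ∈ U` with `dep (b u)` maximal. The neighbours of `u` in `U` are in
  its block or the parent of its block (child vertices have larger depth), so at most `L - 1`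
  of them; remove `u` and its neighbours from `U` (at most `L` vertices), apply the induction
  hypothesis, add `u`.
-/

open Finset

namespace Pool.Agent.AMS

variable {V ι : Type} [Fintype V] [DecidableEq V] [Fintype ι] [DecidableEq ι]

/-- the parent of a block as a set -/
def TrGood_par (T : Tr V ι) (i : ι) : Finset V := univ.filter (fun u => T.t i = some u)

omit [DecidableEq ι] [Fintype ι] in
theorem TrGood_par_card (T : Tr V ι) (i : ι) :
    (TrGood_par T i).card ≤ if (T.t i).isSome then 1 else 0 := by
  unfold TrGood_par
  cases h : T.t i with
  | none => simp
  | some u =>
    have : univ.filter (fun v => (some u : Option V) = some v) ⊆ {u} := by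
      intro v hv
      rw [mem_filter] at hv
      rw [mem_singleton]
      exact (Option.some.inj hv.2).symm
    simpa using Finset.card_le_card this

theorem tr_good (T : Tr V ι) (L : ℕ) (hL : 1 ≤ L)
    (h : ∀ i, (T.blk i).card + (if (T.t i).isSome then 1 else 0) ≤ L) : Good T.rel L L := by
  classical
  have hsymm : ∀ u v, T.rel u v → T.rel v u := by
    intro u v huv
    rcases huv with h1 | h1 | h1
    · exact Or.inl h1.symm
    · exact Or.inr (Or.inr h1)
    · exact Or.inr (Or.inl h1)
  have hmem : ∀ v, v ∈ T.blk (T.b v) := by
    intro v
    unfold Tr.blk
    rw [mem_filter]
    exact ⟨mem_univ _, rfl⟩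
  refine ⟨hsymm, ?_, ?_⟩
  · have hdg : ∀ v, dg T.rel v ≤ (L - 1) + (univ.filter (fun u => T.t (T.b u) = some v)).card := by
      intro v
      unfold dg
      have hsub : univ.filter (fun u => u ≠ v ∧ T.rel v u) ⊆
          (((T.blk (T.b v)).erase v) ∪ TrGood_par T (T.b v)) ∪
            univ.filter (fun u => T.t (T.b u) = some v) := by
        intro u hu
        rw [mem_filter] at hu
        rw [mem_union, mem_union, mem_erase, mem_filter]
        obtain ⟨_, hne, hr⟩ := hu
        rcases hr with h1 | h1 | h1
        · left; left
          refine ⟨hne, ?_⟩
          unfold Tr.blk
          rw [mem_filter]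
          exact ⟨mem_univ _, h1.symm⟩
        · right
          exact ⟨mem_univ _, h1⟩
        · left; right
          unfold TrGood_par
          rw [mem_filter]
          exact ⟨mem_univ _, h1⟩
      refine (Finset.card_le_card hsub).trans ((Finset.card_union_le _ _).trans ?_)
      have h1 := Finset.card_union_le ((T.blk (T.b v)).erase v) (TrGood_par T (T.b v))
      have h2 := Finset.card_erase_of_mem (hmem v)
      have h3 := TrGood_par_card T (T.b v)
      have h4 := h (T.b v)
      have h5 : 1 ≤ (T.blk (T.b v)).card := Finset.card_pos.2 ⟨v, hmem v⟩
      omega
    have hch : ∑ v, (univ.filter (fun u => T.t (T.b u) = some v)).card ≤ Fintype.card V := by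
      simp_rw [Finset.card_filter]
      rw [Finset.sum_comm]
      have h1 : ∀ u ∈ (univ : Finset V), ∑ v, (if T.t (T.b u) = some v then 1 else 0) ≤ 1 := by
        intro u _
        rw [← Finset.card_filter]
        rw [Finset.card_le_one]
        intro a ha b hb
        rw [mem_filter] at ha hb
        exact Option.some.inj (ha.2.symm.trans hb.2)
      refine (Finset.sum_le_sum h1).trans ?_
      simp
    calc ∑ v, dg T.rel v ≤ ∑ v, ((L - 1) + (univ.filter (fun u => T.t (T.b u) = some v)).card) :=
          Finset.sum_le_sum (fun v _ => hdg v)
      _ = Fintype.card V * (L - 1) + ∑ v, (univ.filter (fun u => T.t (T.b u) = some v)).card := by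
          rw [Finset.sum_add_distrib]; simp
      _ ≤ Fintype.card V * (L - 1) + Fintype.card V := by omega
      _ = L * Fintype.card V := by
          obtain ⟨l, rfl⟩ : ∃ l, L = l + 1 := ⟨L - 1, by omega⟩
          simp only [Nat.add_sub_cancel]
          ring
  · intro U
    induction hn : U.card using Nat.strong_induction_on generalizing U with
    | _ n ih =>
      rcases U.eq_empty_or_nonempty with hU | hU
      · refine ⟨∅, Finset.empty_subset _, ?_, ?_⟩
        · intro u hu
          exact absurd hu (Finset.notMem_empty u)
        · rw [hU] at hn
          simp at hn
          omega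
      · obtain ⟨u, huU, hmax⟩ := Finset.exists_max_image U (fun u => T.dep (T.b u)) hU
        set U' := U.filter (fun w => w ≠ u ∧ ¬ T.rel u w) with hU'
        have hR : U.filter (fun w => ¬ (w ≠ u ∧ ¬ T.rel u w)) ⊆
            T.blk (T.b u) ∪ TrGood_par T (T.b u) := by
          intro w hw
          rw [mem_filter] at hw
          rw [mem_union]
          by_cases hwu : w = u
          · left
            rw [hwu]
            exact hmem u
          · have hr : T.rel u w := by
              by_contra hr
              exact hw.2 ⟨hwu, hr⟩
            rcases hr with h1 | h1 | h1
            · left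
              unfold Tr.blk
              rw [mem_filter]
              exact ⟨mem_univ _, h1.symm⟩
            · exfalso
              have h2 := T.lt _ _ h1
              have h3 := hmax w hw.1
              omega
            · right
              unfold TrGood_par
              rw [mem_filter]
              exact ⟨mem_univ _, h1⟩
        have hRc : (U.filter (fun w => ¬ (w ≠ u ∧ ¬ T.rel u w))).card ≤ L := by
          refine (Finset.card_le_card hR).trans ((Finset.card_union_le _ _).trans ?_)
          have h3 := TrGood_par_card T (T.b u)
          have h4 := h (T.b u)
          omega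
        have hsplit := Finset.card_filter_add_card_filter_not (s := U)
          (fun w => w ≠ u ∧ ¬ T.rel u w)
        have hlt : U'.card < n := by
          rw [← hn]
          apply Finset.card_lt_card
          refine ⟨Finset.filter_subset _ _, fun hs => ?_⟩
          have := hs huU
          rw [hU', mem_filter] at this
          exact this.2.1 rfl
        obtain ⟨W, hWU, hW, hc⟩ := ih U'.card hlt U' rfl
        have huW : u ∉ W := by
          intro hu
          have := hWU hu
          rw [hU', mem_filter] at this
          exact this.2.1 rfl
        refine ⟨insert u W, ?_, ?_, ?_⟩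
        · intro w hw
          rw [mem_insert] at hw
          rcases hw with rfl | hw
          · exact huU
          · exact (Finset.mem_filter.1 (hWU hw)).1
        · intro a ha b hb hab
          rw [mem_insert] at ha hb
          rcases ha with rfl | ha
          · rcases hb with rfl | hb
            · exact absurd rfl hab
            · exact (Finset.mem_filter.1 (hWU hb)).2.2
          · rcases hb with rfl | hb
            · intro hr
              exact (Finset.mem_filter.1 (hWU ha)).2.2 (hsymm _ _ hr)
            · exact hW a ha b hb hab
        · rw [Finset.card_insert_of_notMem huW]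
          have : n ≤ U'.card + L := by
            rw [← hn, ← hsplit]
            exact Nat.add_le_add_left hRc _
          calc n ≤ U'.card + L := this
            _ ≤ L * W.card + L := by omega
            _ = L * (W.card + 1) := by ring

end Pool.Agent.AMS
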