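import Mathlib
import Pool.Agent.AMS.Defs
import Pool.Agent.AMS.GraphUni
import Pool.Agent.AMS.TrGood
import Pool.Agent.AMS.Struct

/-!
# AMS: module Final
-/

open Finset

namespace Pool.Agent.AMS

/-- Every linear hypertree with all edges of size at most `l` and sufficiently many vertices has a
unimodal strong independent set sequence. -/
theorem final (l : ℕ) : ∃ N : ℕ, ∀ (V : Type) [Fintype V] [DecidableEq V] (E : Finset (Finset V)),
    HypU.IsHypertree E → HypU.IsLinear E → (∀ e ∈ E, e.card ≤ l) → N ≤ Fintype.card V →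
      HypU.Unimodal (HypU.indepCount E) := by
  obtain ⟨N, hN⟩ := graph_uni (max l 1) (max l 1) (le_max_right _ _)
  refine ⟨N, fun V _ _ E hT hL hc hn => ?_⟩
  obtain ⟨ι, _, _, T, hrel, hblk⟩ := struct_exists l E hT hL hc
  have h1 := hN V ι T (tr_good T (max l 1) (le_max_right _ _) hblk) hn
  have h2 : ∀ S : Finset V, Ind T.rel S ↔ HypU.StrongIndep E S := by
    intro S
    constructor
    · intro h e he
      rw [Finset.card_le_one]
      intro u hu v hv
      rw [Finset.mem_inter] at hu hv
      by_contra hne
      exact h u hu.1 v hv.1 hne ((hrel u v hne).2 ⟨e, he, hu.2, hv.2⟩)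
    · intro h u hu v hv hne hr
      obtain ⟨e, he, hue, hve⟩ := (hrel u v hne).1 hr
      have h3 := h e he
      rw [Finset.card_le_one] at h3
      exact hne (h3 u (Finset.mem_inter.2 ⟨hu, hue⟩) v (Finset.mem_inter.2 ⟨hv, hve⟩))
  have h3 : HypU.indepCount E = cnt T.rel := by
    funext k
    unfold HypU.indepCount cnt
    congr 1
    ext S
    simp only [Finset.mem_filter, Finset.mem_univ, true_and, mem_fam, h2]
  rw [h3]
  exact h1

end Pool.Agent.AMS
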